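import Pool.Agent.T6.H27.CL.Alg
import Pool.Agent.T6.H27.CL.Fam
import Pool.Agent.TH382.HS.Limit

/-!
# Reduction of the closing problem on a homogeneous submanifold to a problem in the group
-/

set_option autoImplicit false
set_option linter.unusedSectionVars false

open scoped Manifold ContDiff Topology NNReal
open Filter Set Metric

universe u

namespace Pool.Agent.T6.H27.CL

open Pool.Agent.H718R2.G Pool.Agent.W564.SC Pool.Agent.TH382.QC Pool.Agent.TH80.CLX
  Pool.Agent.TH382.HS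

section Defs

variable {A : Type*} [NormedRing A] [NormedAlgebra ℝ A]

/-- `act` is a smooth action of the linear Lie group `G` on the open subset `O` of the manifold `N`.
Smoothness: for every smooth family `c` of elements of `G`, depending on a parameter `s ∈ ℝʲ`, the map
`(s, y) ↦ c(s) y` is smooth. -/
structure IsGAction (G : Subgroup Aˣ) (n : ℕ) (N : Type u) [TopologicalSpace N]
    [ChartedSpace (V n) N] (O : Set N) (act : G → N → N) : Prop where
  isOpen : IsOpen O
  maps : ∀ g, ∀ y ∈ O, act g y ∈ O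
  one : ∀ y ∈ O, act 1 y = y
  mul : ∀ g h, ∀ y ∈ O, act (g * h) y = act g (act h y)
  cont : ContinuousOn (fun p : G × N => act p.1 p.2) (univ ×ˢ O)
  smooth : ∀ (j : ℕ) (c : V j → G), (ContDiff ℝ ∞ fun s => (((c s : G) : Aˣ) : A)) →
    ContMDiffOn ((𝓡 j).prod (𝓡 n)) (𝓡 n) ∞ (fun p : V j × N => act (c p.1) p.2) (univ ×ˢ O)

/-- The orbit of `y` is compact: it is the orbit under a compact subset of `G`. -/
def CptOrbit {G : Subgroup Aˣ} {N : Type u} (act : G → N → N) (y : N) : Prop :=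
  ∃ K : Set G, IsCompact K ∧ ∀ g, ∃ k ∈ K, act g y = act k y

/-- a smooth family of elements of `G`, made of one-parameter groups, which covers the neighbourhoods
of `1` -/
structure ExpFam (G : Subgroup Aˣ) (j : ℕ) (c : V j → G) : Prop where
  smooth : ContDiff ℝ ∞ fun s => (((c s : G) : Aˣ) : A)
  add : ∀ (s t : ℝ) (v : V j), c ((s + t) • v) = c (s • v) * c (t • v)
  cover : ∀ ε : ℝ, 0 < ε → ∃ U ∈ 𝓝 (1 : G), ∀ u ∈ U, ∃ s, ‖s‖ < ε ∧ u = c s

theorem ExpFam.zero {G : Subgroup Aˣ} {j : ℕ} {c : V j → G} (hc : ExpFam G j c) : c 0 = 1 := by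
  have h1 := hc.add 0 0 0
  rw [add_zero, zero_smul] at h1
  exact mul_eq_left.1 h1.symm

end Defs

section Exp

variable {A : Type*} [NormedRing A] [NormedAlgebra ℝ A] [CompleteSpace A] [FiniteDimensional ℝ A]

theorem exists_expFam {G : Subgroup Aˣ} (hG : IsClosed (G : Set Aˣ)) :
    ∃ (j : ℕ) (c : V j → G), ExpFam G j c := by
  let e : (lie G hG) ≃L[ℝ] V (Module.finrank ℝ (lie G hG)) := toEuclidean
  have hmem : ∀ s, (((e.symm s : lie G hG) : A)) ∈ lieSet G := fun s => (e.symm s).2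
  refine ⟨_, fun s => ⟨eu ((e.symm s : lie G hG) : A), lie_eu (hmem s)⟩, ?_, ?_, ?_⟩
  · have h1 : ContDiff ℝ ∞ (NormedSpace.exp : A → A) := by
      have h2 : AnalyticOnNhd ℝ (NormedSpace.exp : A → A) univ := fun x _ =>
        NormedSpace.exp_analytic (𝕂 := ℝ) x
      exact h2.contDiff
    have h2 : ContDiff ℝ ∞ (fun s => ((e.symm s : lie G hG) : A)) :=
      ((lie G hG).subtypeL.contDiff).comp e.symm.contDiff
    exact h1.comp h2
  · intro s t v
    apply Subtype.ext
    show eu (((e.symm ((s + t) • v) : lie G hG) : A)) =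
      eu ((e.symm (s • v) : lie G hG) : A) * eu ((e.symm (t • v) : lie G hG) : A)
    rw [map_smul, map_smul, map_smul]
    show eu ((s + t) • ((e.symm v : lie G hG) : A)) =
      eu (s • ((e.symm v : lie G hG) : A)) * eu (t • ((e.symm v : lie G hG) : A))
    rw [add_smul, eu_add]
    exact ((Commute.refl _).smul_left _).smul_right _
  · intro ε hε
    have hc : Tendsto (fun X : lie G hG => ‖e X‖) (𝓝 0) (𝓝 0) := by
      have h1 := (e.continuous.norm).tendsto 0
      rwa [map_zero, norm_zero] at h1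
    obtain ⟨δ, hδ, hδ2⟩ := Metric.eventually_nhds_iff_ball.1 (hc.eventually (gt_mem_nhds hε))
    obtain ⟨U, hU, hU2⟩ := exp_cover hG hδ
    refine ⟨(Subtype.val : G → Aˣ) ⁻¹' U,
      continuous_subtype_val.continuousAt.preimage_mem_nhds hU, fun u hu => ?_⟩
    obtain ⟨X, hX, hXδ, hXu⟩ := hU2 u hu u.2
    refine ⟨e ⟨X, hX⟩, hδ2 _ ?_, ?_⟩
    · rw [mem_ball_zero_iff]
      exact hXδ
    · apply Subtype.ext
      show (u : Aˣ) = eu ((e.symm (e ⟨X, hX⟩) : lie G hG) : A)
      rw [e.symm_apply_apply]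
      exact hXu

end Exp

variable {A : Type*} [NormedRing A] [NormedAlgebra ℝ A] [CompleteSpace A] [FiniteDimensional ℝ A]
  {n : ℕ} {N : Type u} [TopologicalSpace N] [T2Space N] [CompactSpace N]
  [ChartedSpace (V n) N] [IsManifold (𝓡 n) ∞ N] {r : ℕ∞} {G : Subgroup Aˣ}

theorem act_cont {O : Set N} {act : G → N → N} (hact : IsGAction G n N O act) {y : N}
    (hyO : y ∈ O) : Continuous (fun a : G => act a y) := by
  have h1 : ContinuousOn (fun a : G => act a y) univ :=
    hact.cont.comp (f := fun a : G => ((a, y) : G × N)) (by fun_prop)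
      (fun a _ => ⟨mem_univ _, hyO⟩)
  exact continuousOn_univ.1 h1

/-- perturbations of `F` along an exponential family -/
theorem pert {O : Set N} {act : G → N → N} (hact : IsGAction G n N O act) {y : N}
    (hyO : y ∈ O) (hlat : CptOrbit act y) (F : DiffM n N r) {m : ℕ}
    (hdis : ∀ i, 1 ≤ i → i < m → ∀ g g', F^[i] (act g y) ≠ act g' y)
    {j : ℕ} {c : V j → G} (hc : ExpFam G j c) :
    ∃ (H : V j → DiffM n N r) (ε : ℝ), 0 < ε ∧ H 0 = F ∧ IsFam n N r H ∧ ∀ t, ‖t‖ < ε →
      ∀ (a : G) (i : ℕ), 1 ≤ i → i ≤ m → (H t)^[i] (act a y) = F^[i] (act (c t * a) y) := by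
  classical
  have hc0 := hc.zero
  obtain ⟨K, hK, hKy⟩ := hlat
  have hcy := act_cont hact hyO
  -- the orbit
  obtain ⟨C, hC⟩ : ∃ C : Set N, C = (fun a : G => act a y) '' K := ⟨_, rfl⟩
  have hCc : IsCompact C := by
    rw [hC]
    exact hK.image hcy
  have hCmem : ∀ a : G, act a y ∈ C := by
    intro a
    obtain ⟨b, hb, hab⟩ := hKy a
    rw [hC]
    exact ⟨b, hb, hab.symm⟩
  have hCmem' : ∀ w ∈ C, ∃ a : G, act a y = w := by
    intro w hw
    rw [hC] at hw
    obtain ⟨a, -, ha⟩ := hw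
    exact ⟨a, ha⟩
  have hCO : C ⊆ O := by
    intro w hw
    obtain ⟨a, ha⟩ := hCmem' w hw
    rw [← ha]
    exact hact.maps a y hyO
  obtain ⟨C0, hC0⟩ : ∃ C0 : Set N, C0 = ⋃ i ∈ Finset.Ico 1 m, F^[i] '' C := ⟨_, rfl⟩
  have hFc : ∀ i : ℕ, Continuous (F^[i]) := fun i => F.continuous.iterate i
  have hC0c : IsClosed C0 := by
    rw [hC0]
    exact isClosed_biUnion_finset fun i _ => (hCc.image (hFc i)).isClosed
  have hdisj0 : Disjoint C0 C := by
    rw [Set.disjoint_left]
    intro w hw1 hw2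
    rw [hC0] at hw1
    simp only [mem_iUnion, Finset.mem_Ico] at hw1
    obtain ⟨i, ⟨hi1, hi2⟩, v, hv, hvw⟩ := hw1
    obtain ⟨a, ha⟩ := hCmem' v hv
    obtain ⟨b, hb⟩ := hCmem' w hw2
    apply hdis i hi1 hi2 a b
    rw [ha, hvw, hb]
  -- a compact neighbourhood of the orbit
  obtain ⟨O₁, hO₁, hCO₁, hO₁O, hO₁c⟩ := exists_open_between_and_isCompact_closure hCc hact.isOpen hCO
  have hD : IsClosed (C0 ∪ O₁ᶜ) := hC0c.union hO₁.isClosed_compl
  have hdisj : Disjoint (C0 ∪ O₁ᶜ) C := by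
    rw [Set.disjoint_union_left]
    exact ⟨hdisj0, Set.disjoint_left.2 fun w hw hwC => hw (hCO₁ hwC)⟩
  obtain ⟨f, hf0, hf1, -⟩ := exists_contMDiffMap_zero_one_of_isClosed (n := ⊤) (𝓡 n) hD
    hCc.isClosed hdisj
  have hρ : ContMDiff (𝓡 n) 𝓘(ℝ, ℝ) ∞ (f : N → ℝ) := f.contMDiff
  have hρ0 : ∀ w ∈ O, w ∉ closure O₁ → f w = 0 := by
    intro w _ hwK
    exact hf0 (Or.inr fun h1 => hwK (subset_closure h1))
  have hA : LActL j n N O (fun t w => act (c t) w) :=
    { isOpen := hact.isOpen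
      maps := fun t w hw => hact.maps _ w hw
      smooth := hact.smooth j c hc.smooth
      zero := fun w hw => by
        show act (c 0) w = w
        rw [hc0, hact.one w hw]
      add := fun s t v w hw => by
        show act (c ((s + t) • v)) w = act (c (s • v)) (act (c (t • v)) w)
        rw [hc.add, hact.mul _ _ w hw] }
  obtain ⟨H, ε, hε, hH0, hfam, hH⟩ := lactl_fam hA hρ (closure O₁) hO₁c isClosed_closure hO₁O hρ0 r F
  refine ⟨H, ε, hε, hH0, hfam, ?_⟩
  intro t ht a i' hi1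
  have hHs := hH t ht
  induction i' with
  | zero => omega
  | succ i' ih =>
    intro him
    rcases Nat.eq_zero_or_pos i' with h0 | h0
    · subst h0
      have h2 : f (act a y) = 1 := hf1 (hCmem a)
      show H t (act a y) = F (act (c t * a) y)
      rw [hHs, if_pos (hCO (hCmem a)), h2, one_smul]
      show F (act (c t) (act a y)) = _
      rw [← hact.mul _ _ y hyO]
    · rw [Function.iterate_succ_apply', ih h0 (by omega), hHs,
        Function.iterate_succ_apply' F]
      have h2 : f (F^[i'] (act (c t * a) y)) = 0 := hf0 (by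
        left
        rw [hC0]
        simp only [mem_iUnion, Finset.mem_Ico]
        exact ⟨i', ⟨h0, by omega⟩, _, hCmem _, rfl⟩)
      congr 1
      by_cases hO : F^[i'] (act (c t * a) y) ∈ O
      · rw [if_pos hO, h2, zero_smul]
        show act (c 0) _ = _
        rw [hc0, hact.one _ hO]
      · rw [if_neg hO]

/-- **Reduction.** -/
theorem step (hG : IsClosed (G : Set Aˣ)) {O : Set N} {act : G → N → N}
    (hact : IsGAction G n N O act) {y : N} (hyO : y ∈ O)
    (hlat : CptOrbit act y) (F : DiffM n N r) {m : ℕ} (hm : 1 ≤ m) {h k : G} {l : ℕ}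
    (hl : 1 ≤ l) (hk : act (k ^ l) y = y) (hF : ∀ g, F^[m] (act g y) = act (h * g * k) y)
    (hdis : ∀ i, 1 ≤ i → i < m → ∀ g g', F^[i] (act g y) ≠ act g' y)
    (hcl : ∀ U ∈ 𝓝 (1 : G), ∃ c ∈ U, ∃ g ∈ U, ∃ i : ℕ, 1 ≤ i ∧ ∃ γ : G, act γ y = y ∧
      (h * c) ^ i * g = g * γ) : ClosableAt n N r F y := by
  obtain ⟨j, c, hc⟩ := exists_expFam hG
  have hcy := act_cont hact hyO
  obtain ⟨H, ε, hε, hH0, hfam, hH⟩ := pert hact hyO hlat F hdis hc
  -- a sequence
  have : SecondCountableTopology G :=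
    (Topology.IsInducing.subtypeVal (t := (G : Set Aˣ))).secondCountableTopology
  obtain ⟨W, hW⟩ := (𝓝 (1 : G)).exists_antitone_basis
  have h1 : ∀ i : ℕ, ∃ (s : V j) (g : G) (κ : ℕ) (γ : G), ‖s‖ < 1 / ((i : ℝ) + 1) ∧ g ∈ W i ∧
      1 ≤ κ ∧ act γ y = y ∧ (h * c s) ^ κ * g = g * γ := by
    intro i
    obtain ⟨U, hU, hU2⟩ := hc.cover (1 / ((i : ℝ) + 1)) (by positivity)
    obtain ⟨c', hc', g, hg, κ, hκ, γ, hγ, he⟩ := hcl (U ∩ W i) (inter_mem hU (hW.mem i))
    obtain ⟨s, hs, hcs⟩ := hU2 c' hc'.1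
    exact ⟨s, g, κ, γ, hs, hg.2, hκ, hγ, by rw [← hcs]; exact he⟩
  choose s g κ γ hs hgW hκ hγ he using h1
  have hs0 : Tendsto s atTop (𝓝 0) := by
    rw [tendsto_zero_iff_norm_tendsto_zero]
    exact squeeze_zero (fun i => norm_nonneg _) (fun i => (hs i).le)
      tendsto_one_div_add_atTop_nhds_zero_nat
  have hg1 : Tendsto g atTop (𝓝 1) := hW.tendsto hgW
  have hcv : Cv (fun i => H (s i)) F := by
    have h1 := Cv.fam Pool.Agent.W917.SC.comp hfam hs0
    rwa [hH0] at h1
  have hy : Tendsto (fun i => act (g i) y) atTop (𝓝 y) := by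
    have h1 := (hcy.tendsto 1).comp hg1
    rwa [hact.one y hyO] at h1
  refine closable_of_seq F y (fun i => H (s i)) hcv _ hy ?_
  have hev : ∀ᶠ i in atTop, ‖s i‖ < ε := by
    have h1 := hs0.norm
    rw [norm_zero] at h1
    exact h1.eventually (gt_mem_nhds hε)
  filter_upwards [hev] with i hi
  have h1 := hH (s i) hi
  have h2 : ∀ a : G, (H (s i))^[m] (act a y) = act (h * c (s i) * a * k) y := by
    intro a
    rw [h1 a m hm le_rfl, hF]
    congr 1
    group
  have h3 : ∀ (q : ℕ) (a : G),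
      (H (s i))^[m * q] (act a y) = act ((h * c (s i)) ^ q * a * k ^ q) y := by
    intro q
    induction q with
    | zero =>
      intro a
      rw [pow_zero, pow_zero, one_mul, mul_one]
      rfl
    | succ q ih =>
      intro a
      rw [Nat.mul_succ, Function.iterate_add_apply, h2, ih, pow_succ, pow_succ']
      congr 1
      group
  -- powers
  have h4 : ∀ b : G, act b y = y → ∀ q : ℕ, act (b ^ q) y = y := by
    intro b hb q
    induction q with
    | zero => rw [pow_zero, hact.one y hyO]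
    | succ q ih => rw [pow_succ, hact.mul _ _ y hyO, hb, ih]
  have h5 : ∀ q : ℕ, (h * c (s i)) ^ (κ i * q) * g i = g i * γ i ^ q := by
    intro q
    induction q with
    | zero => rw [mul_zero, pow_zero, pow_zero, one_mul, mul_one]
    | succ q ih =>
      rw [Nat.mul_succ, add_comm, pow_add, mul_assoc, ih, ← mul_assoc, he, pow_succ', mul_assoc]
  refine ⟨m * (κ i * l), Nat.mul_pos hm (Nat.mul_pos (hκ i) hl), ?_⟩
  rw [h3, hact.mul _ _ y hyO]
  have h6 : act (k ^ (κ i * l)) y = y := by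
    rw [mul_comm, pow_mul]
    exact h4 _ hk _
  rw [h6, h5, hact.mul _ _ y hyO, h4 _ (hγ i)]

end Pool.Agent.T6.H27.CL
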