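import Pool.Agent.T6.H27.CL.Lie

/-!
# The Lie algebra of a closed subgroup
-/

set_option autoImplicit false
set_option linter.unusedSectionVars false

open Filter Set Topology NormedSpace

namespace Pool.Agent.T6.H27.CL

section A

variable {A : Type*} [NormedRing A] [NormedAlgebra ℝ A] [CompleteSpace A]

/-- Solutions of `S' = [V, S]`. -/
theorem ad_curve {V : A} (S : ℝ → A) (hS : ∀ t, HasDerivAt S (V * S t - S t * V) t) :
    Ad (eu V) (S 0) = S 1 := by
  have h1 : ∀ t : ℝ, HasDerivAt (fun t : ℝ => exp (t • (-V)) * S t * exp (t • V)) 0 t := by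
    intro t
    have h2 := ((hasDerivAt_exp_smul_const (𝕂 := ℝ) (-V) t).mul (hS t)).mul
      (hasDerivAt_exp_smul_const' (𝕂 := ℝ) V t)
    refine h2.congr_deriv ?_
    have h5 : ((fun u : ℝ => exp (u • -V)) * S) t = exp (t • -V) * S t := rfl
    rw [h5]
    noncomm_ring
  have h3 := is_const_of_deriv_eq_zero (fun t => (h1 t).differentiableAt)
    (fun t => (h1 t).deriv) 0 1
  simp only [zero_smul, exp_zero, one_mul, mul_one, one_smul] at h3
  rw [h3, Ad_apply, eu_val]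
  have h4 : (((eu V)⁻¹ : Aˣ) : A) = exp (-V) := rfl
  rw [h4]
  calc exp V * (exp (-V) * S 1 * exp V) * exp (-V)
      = (exp V * exp (-V)) * S 1 * (exp V * exp (-V)) := by simp only [mul_assoc]
    _ = S 1 := by rw [exp_mul_exp_neg, one_mul, mul_one]

/-- The bracket. -/
theorem lie_bracket [FiniteDimensional ℝ A] {G : Subgroup Aˣ} (hG : IsClosed (G : Set Aˣ)) {X Y : A}
    (hX : X ∈ lieSet G) (hY : Y ∈ lieSet G) : X * Y - Y * X ∈ lieSet G := by
  have h1 : HasDerivAt (fun t : ℝ => exp (t • X) * Y * exp (t • (-X))) (X * Y - Y * X) 0 := by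
    have h2 := ((hasDerivAt_exp_smul_const (𝕂 := ℝ) X 0).mul_const Y).mul
      (hasDerivAt_exp_smul_const' (𝕂 := ℝ) (-X) 0)
    refine h2.congr_deriv ?_
    simp only [zero_smul, exp_zero, one_mul, mul_one]
    noncomm_ring
  have h3 := hasDerivAt_iff_tendsto_slope_zero.1 h1
  have hcl : IsClosed ((lie G hG : Submodule ℝ A) : Set A) :=
    (lie G hG).closed_of_finiteDimensional
  refine hcl.mem_of_tendsto h3 (Eventually.of_forall fun t => ?_)
  have h4 : ∀ t : ℝ, exp (t • X) * Y * exp (t • (-X)) ∈ lie G hG := by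
    intro t
    have h5 := lie_Ad hY (hX t)
    rw [Ad_apply] at h5
    have h6 : (((eu (t • X))⁻¹ : Aˣ) : A) = exp (t • (-X)) := by
      rw [smul_neg]
      rfl
    rw [h6] at h5
    exact h5
  exact (lie G hG).smul_mem _ ((lie G hG).sub_mem (h4 _) (h4 _))

/-- A strictly differentiable map into `G` whose derivative maps onto the Lie algebra covers a
neighbourhood of `1`. -/
theorem local_cover [FiniteDimensional ℝ A] {G : Subgroup Aˣ} (hG : IsClosed (G : Set Aˣ))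
    {E : Type*} [NormedAddCommGroup E] [NormedSpace ℝ E] [CompleteSpace E] {φ : E → A} {φ' : E →L[ℝ] A}
    (hφ : HasStrictFDerivAt φ φ' 0) (hφ0 : φ 0 = 1) (hφG : ∀ x, ∃ u ∈ G, (u : A) = φ x)
    (hr : ∀ X ∈ lieSet G, ∃ x, φ' x = X) {O : Set E} (hO : O ∈ 𝓝 (0 : E)) :
    ∃ U ∈ 𝓝 (1 : Aˣ), ∀ u ∈ U, u ∈ G → ∃ x ∈ O, (u : A) = φ x := by
  obtain ⟨P, hP⟩ := Submodule.exists_isCompl (lie G hG)
  obtain ⟨ε, hε, hεP⟩ := small_compl hG P hP.disjoint
  let F : E × P → A := fun p => φ p.1 * exp ((p.2 : P) : A)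
  let F' : E × P →L[ℝ] A := φ'.comp (ContinuousLinearMap.fst ℝ E P) +
    P.subtypeL.comp (ContinuousLinearMap.snd ℝ E P)
  have hF0 : F 0 = 1 := by
    show φ 0 * exp ((0 : P) : A) = 1
    rw [hφ0, one_mul, Submodule.coe_zero, exp_zero]
  have hF : HasStrictFDerivAt F F' 0 := by
    have h1 : HasStrictFDerivAt (fun p : E × P => φ p.1)
        (φ'.comp (ContinuousLinearMap.fst ℝ E P)) 0 :=
      HasStrictFDerivAt.comp (0 : E × P) (f := Prod.fst) (g := φ) hφ hasStrictFDerivAt_fst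
    have h2 : HasStrictFDerivAt (fun p : E × P => exp ((p.2 : P) : A))
        (P.subtypeL.comp (ContinuousLinearMap.snd ℝ E P)) 0 := by
      have h3 : HasStrictFDerivAt (exp : A → A) (1 : A →L[ℝ] A)
          ((P.subtypeL.comp (ContinuousLinearMap.snd ℝ E P)) 0) := by
        rw [map_zero]
        exact hasStrictFDerivAt_exp_zero
      exact h3.comp (0 : E × P) (P.subtypeL.comp (ContinuousLinearMap.snd ℝ E P)).hasStrictFDerivAt
    have h3 := h1.mul' h2
    refine h3.congr_fderiv ?_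
    ext p
    · simp [F', hφ0]
    · simp [F', hφ0]
  have hsurj : F'.range = ⊤ := by
    rw [LinearMap.range_eq_top]
    intro z
    obtain ⟨X, hX, M, hM, rfl⟩ := Submodule.mem_sup.1 (hP.sup_eq_top ▸ Submodule.mem_top : z ∈ _)
    obtain ⟨x, hx⟩ := hr X hX
    refine ⟨(x, ⟨M, hM⟩), ?_⟩
    show φ' x + M = X + M
    rw [hx]
  have hPc : CompleteSpace P := FiniteDimensional.complete ℝ P
  have hmap := hF.map_nhds_eq_of_surj hsurj
  rw [hF0] at hmap
  have hN : O ×ˢ Metric.ball (0 : P) ε ∈ 𝓝 (0 : E × P) := by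
    rw [← Prod.mk_zero_zero, nhds_prod_eq]
    exact prod_mem_prod hO (Metric.ball_mem_nhds _ hε)
  have hN2 : F '' (O ×ˢ Metric.ball (0 : P) ε) ∈ 𝓝 (1 : A) := by
    rw [← hmap]
    exact image_mem_map hN
  refine ⟨(fun u : Aˣ => (u : A)) ⁻¹' (F '' (O ×ˢ Metric.ball (0 : P) ε)), ?_, ?_⟩
  · apply Units.continuous_val.continuousAt.preimage_mem_nhds
    rw [Units.val_one]
    exact hN2
  rintro u ⟨⟨x, M⟩, ⟨hx, hM⟩, hxM⟩ huG
  obtain ⟨v, hv, hvx⟩ := hφG x
  have h1 : (u : A) = (v : A) * exp (M : A) := by rw [hvx]; exact hxM.symm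
  have h2 : eu (M : A) = v⁻¹ * u := by
    apply Units.ext
    rw [Units.val_mul, h1, ← mul_assoc, Units.inv_mul, one_mul]
    rfl
  have h3 : eu (M : A) ∈ G := by
    rw [h2]
    exact G.mul_mem (G.inv_mem hv) huG
  have h4 : (M : A) = 0 := by
    refine hεP _ M.2 ?_ h3
    have h5 : ‖M‖ < ε := by rwa [mem_ball_zero_iff] at hM
    exact h5
  refine ⟨x, hx, ?_⟩
  rw [h1, h4, exp_zero, mul_one, hvx]

/-- The exponential covers a neighbourhood of `1`. -/
theorem exp_cover [FiniteDimensional ℝ A] {G : Subgroup Aˣ} (hG : IsClosed (G : Set Aˣ))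
    {ε : ℝ} (hε : 0 < ε) : ∃ U ∈ 𝓝 (1 : Aˣ), ∀ u ∈ U, u ∈ G →
      ∃ X ∈ lieSet G, ‖X‖ < ε ∧ u = eu X := by
  have hc : CompleteSpace (lie G hG) := FiniteDimensional.complete ℝ _
  obtain ⟨U, hU, hU2⟩ := local_cover hG (E := lie G hG) (φ := fun X => exp (X : A))
    (φ' := (lie G hG).subtypeL) (by
      have h3 : HasStrictFDerivAt (exp : A → A) (1 : A →L[ℝ] A)
          ((lie G hG).subtypeL 0) := by
        rw [map_zero]
        exact hasStrictFDerivAt_exp_zero
      exact h3.comp (0 : lie G hG) (lie G hG).subtypeL.hasStrictFDerivAt)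
    (by simp) (fun X => ⟨eu X, lie_eu X.2, rfl⟩) (fun X hX => ⟨⟨X, hX⟩, rfl⟩)
    (Metric.ball_mem_nhds _ hε)
  refine ⟨U, hU, fun u hu huG => ?_⟩
  obtain ⟨X, hX, huX⟩ := hU2 u hu huG
  refine ⟨X, X.2, ?_, Units.ext huX⟩
  rw [mem_ball_zero_iff] at hX
  exact hX

/-- A subgroup which contains the one-parameter subgroups is everything. -/
theorem gen_top [FiniteDimensional ℝ A] {G : Subgroup Aˣ} (hG : IsClosed (G : Set Aˣ))
    [ConnectedSpace G] (H : Subgroup G)
    (hH : ∀ (X : A) (hX : X ∈ lieSet G), (⟨eu X, lie_eu hX⟩ : G) ∈ H) (g : G) : g ∈ H := by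
  obtain ⟨U, hU, hU2⟩ := exp_cover hG one_pos
  have hN : (Subtype.val : G → Aˣ) ⁻¹' U ∈ 𝓝 (1 : G) :=
    continuous_subtype_val.continuousAt.preimage_mem_nhds hU
  have hHn : (H : Set G) ∈ 𝓝 (1 : G) := by
    refine mem_of_superset hN fun u hu => ?_
    obtain ⟨X, hX, -, huX⟩ := hU2 u hu u.2
    have h1 : u = ⟨eu X, lie_eu hX⟩ := Subtype.ext huX
    rw [h1]
    exact hH X hX
  have hop : IsOpen (H : Set G) := Subgroup.isOpen_of_mem_nhds H hHn
  have hcl : IsClopen (H : Set G) := ⟨Subgroup.isClosed_of_isOpen H hop, hop⟩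
  have h1 := hcl.eq_univ ⟨1, H.one_mem⟩
  have h2 : g ∈ (H : Set G) := by rw [h1]; exact mem_univ _
  exact h2

end A

end Pool.Agent.T6.H27.CL
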