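import Pool.Agent.T6.H27.CL.SSDense

/-!
# The elements of the Lie algebra with a bounded orbit
-/

set_option autoImplicit false
set_option linter.unusedSectionVars false

open Filter Set Topology NormedSpace LieAlgebra

namespace Pool.Agent.T6.H27.CL

attribute [local instance 100] LieRing.ofAssociativeRing

variable {A : Type*} [NormedRing A] [NormedAlgebra ℝ A] [CompleteSpace A]

/-- The orbit of `X` under the adjoint action of `G` is bounded. -/
def Bdd (G : Subgroup Aˣ) (X : A) : Prop := ∃ C : ℝ, ∀ g ∈ G, ‖Ad g X‖ ≤ C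

theorem Bdd.add {G : Subgroup Aˣ} {X Y : A} (hX : Bdd G X) (hY : Bdd G Y) : Bdd G (X + Y) := by
  obtain ⟨C, hC⟩ := hX
  obtain ⟨D, hD⟩ := hY
  refine ⟨C + D, fun g hg => ?_⟩
  rw [map_add]
  exact (norm_add_le _ _).trans (add_le_add (hC g hg) (hD g hg))

theorem Bdd.smul {G : Subgroup Aˣ} {X : A} (hX : Bdd G X) (c : ℝ) : Bdd G (c • X) := by
  obtain ⟨C, hC⟩ := hX
  refine ⟨‖c‖ * C, fun g hg => ?_⟩
  rw [map_smul, norm_smul]
  exact mul_le_mul_of_nonneg_left (hC g hg) (norm_nonneg _)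

theorem Bdd.zero {G : Subgroup Aˣ} : Bdd G (0 : A) := ⟨0, fun g _ => by rw [map_zero, norm_zero]⟩

theorem Bdd.Ad {G : Subgroup Aˣ} {X : A} (hX : Bdd G X) {u : Aˣ} (hu : u ∈ G) :
    Bdd G (CL.Ad u X) := by
  obtain ⟨C, hC⟩ := hX
  refine ⟨C, fun g hg => ?_⟩
  rw [← Ad_mul]
  exact hC _ (G.mul_mem hg hu)

variable [FiniteDimensional ℝ A] {G : Subgroup Aˣ} (hG : IsClosed (G : Set Aˣ))

/-- the subspace of the elements with a bounded orbit -/
def bddS : Submodule ℝ (lieA G hG) where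
  carrier := {X | Bdd G (X : A)}
  add_mem' hX hY := Bdd.add hX hY
  zero_mem' := Bdd.zero
  smul_mem' c _ hX := Bdd.smul hX c

theorem mem_bddS {X : lieA G hG} : X ∈ bddS hG ↔ Bdd G (X : A) := Iff.rfl

theorem bddS_adL {X : lieA G hG} (hX : X ∈ bddS hG) (g : G) : adL hG g X ∈ bddS hG :=
  Bdd.Ad hX g.2

/-- The orbits are uniformly bounded. -/
theorem bdd_unif : ∃ M : ℝ, 0 ≤ M ∧ ∀ X ∈ bddS hG, ∀ g : G, ‖adL hG g X‖ ≤ M * ‖X‖ := by
  have hc : CompleteSpace (bddS hG) := FiniteDimensional.complete ℝ _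
  let f : G → bddS hG →L[ℝ] A := fun g =>
    (Ad (g : Aˣ)).comp ((lie G hG).subtypeL.comp (bddS hG).subtypeL)
  obtain ⟨M, hM⟩ := banach_steinhaus (g := f) (fun X => by
    obtain ⟨C, hC⟩ := (mem_bddS hG).1 X.2
    exact ⟨C, fun g => hC g g.2⟩)
  refine ⟨max M 0, le_max_right _ _, fun X hX g => ?_⟩
  have h1 := (f g).le_opNorm ⟨X, hX⟩
  have h2 : ‖adL hG g X‖ = ‖f g ⟨X, hX⟩‖ := rfl
  rw [h2]
  refine h1.trans ?_
  have h3 : ‖(⟨X, hX⟩ : bddS hG)‖ = ‖X‖ := rfl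
  rw [h3]
  gcongr
  exact (hM g).trans (le_max_left _ _)

/-- The derivative of `exp(tX) Y exp(-tX)`. -/
theorem lie_slope (X Y : lieA G hG) : Tendsto (fun t : ℝ =>
    t⁻¹ • (adL hG (eL (t • X)) Y - Y)) (𝓝[≠] 0) (𝓝 ⁅X, Y⁆) := by
  have h1 : HasDerivAt (fun t : ℝ => exp (t • (X : A)) * (Y : A) * exp (t • (-(X : A))))
      ((X : A) * Y - Y * X) 0 := by
    have h2 := ((hasDerivAt_exp_smul_const (𝕂 := ℝ) (X : A) 0).mul_const (Y : A)).mul
      (hasDerivAt_exp_smul_const' (𝕂 := ℝ) (-(X : A)) 0)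
    refine h2.congr_deriv ?_
    simp only [zero_smul, exp_zero, one_mul, mul_one]
    noncomm_ring
  have h3 := hasDerivAt_iff_tendsto_slope_zero.1 h1
  rw [tendsto_subtype_rng]
  refine h3.congr fun t => ?_
  have h4 : exp (((0 : ℝ) + t) • (X : A)) * (Y : A) * exp (((0 : ℝ) + t) • (-(X : A))) =
      Ad (eu (t • (X : A))) (Y : A) := by
    rw [Ad_apply, zero_add, smul_neg]
    rfl
  have h5 : exp ((0 : ℝ) • (X : A)) * (Y : A) * exp ((0 : ℝ) • (-(X : A))) = (Y : A) := by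
    simp
  rw [h4, h5]
  rfl

/-- the elements with a bounded orbit form an ideal -/
def bddI : LieIdeal ℝ (lieA G hG) :=
  { bddS hG with
    lie_mem := fun {x m} hm => by
      have hcl : IsClosed ((bddS hG : Submodule ℝ (lieA G hG)) : Set (lieA G hG)) :=
        (bddS hG).closed_of_finiteDimensional
      refine hcl.mem_of_tendsto (lie_slope hG x m) (Eventually.of_forall fun t => ?_)
      exact (bddS hG).smul_mem _ ((bddS hG).sub_mem (bddS_adL hG hm _) hm) }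

theorem mem_bddI {X : lieA G hG} : X ∈ bddI hG ↔ Bdd G (X : A) := Iff.rfl

/-- If not all orbits are bounded, then there is an element with an unbounded orbit which commutes
with the elements with bounded orbits. -/
theorem exists_unbdd [IsKilling ℝ (lieA G hG)] (h : ∃ X ∈ lieSet G, ¬ Bdd G X) :
    ∃ X : lieA G hG, ¬ Bdd G (X : A) ∧ ∀ Y : lieA G hG, Bdd G (Y : A) → ⁅X, Y⁆ = 0 := by
  obtain ⟨X₀, hX₀, hX₀b⟩ := h
  have hcompl := LieIdeal.isCompl_killingCompl (bddI hG)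
  have hne : (LieIdeal.killingCompl ℝ (lieA G hG) (bddI hG)) ≠ ⊥ := by
    intro h0
    have h1 := hcompl.sup_eq_top
    rw [h0, sup_bot_eq] at h1
    have h2 : (⟨X₀, hX₀⟩ : lieA G hG) ∈ bddI hG := by
      rw [h1]
      exact LieSubmodule.mem_top _
    exact hX₀b h2
  obtain ⟨X, hX, hX0⟩ : ∃ X ∈ LieIdeal.killingCompl ℝ (lieA G hG) (bddI hG), X ≠ 0 := by
    by_contra hcon
    push Not at hcon
    exact hne ((LieSubmodule.eq_bot_iff _).2 hcon)
  have hdisj : ∀ Z : lieA G hG, Z ∈ bddI hG →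
      Z ∈ LieIdeal.killingCompl ℝ (lieA G hG) (bddI hG) → Z = 0 := by
    intro Z h1 h2
    have h3 : Z ∈ (bddI hG ⊓ LieIdeal.killingCompl ℝ (lieA G hG) (bddI hG) :
        LieIdeal ℝ (lieA G hG)) := LieSubmodule.mem_inf _ _ _ |>.2 ⟨h1, h2⟩
    rw [hcompl.inf_eq_bot, LieSubmodule.mem_bot] at h3
    exact h3
  refine ⟨X, fun hb => hX0 (hdisj X hb hX), fun Y hY => ?_⟩
  apply hdisj
  · exact LieSubmodule.lie_mem _ hY
  · rw [← lie_skew]
    exact neg_mem (LieSubmodule.lie_mem _ hX)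

end Pool.Agent.T6.H27.CL
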