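import Pool.Agent.T6.H27.CL.Lie

/-!
# Conjugation of perturbations of large powers, uniformly in the exponent
-/

set_option autoImplicit false
set_option linter.unusedSectionVars false

open Filter Set Topology NormedSpace
open scoped NNReal

namespace Pool.Agent.T6.H27.CL

variable {A : Type*} [NormedRing A] [NormedAlgebra ℝ A] [CompleteSpace A] [FiniteDimensional ℝ A]

/-- The map `(P, Q, Z, M) ↦ exp P exp Z exp (-Q) exp M`. -/
noncomputable def Psi (p : A × A × A × A) : A :=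
  exp p.1 * exp p.2.2.1 * exp (-p.2.1) * exp p.2.2.2

/-- its derivative at `0` -/
noncomputable def dPsi : (A × A × A × A) →L[ℝ] A :=
  ContinuousLinearMap.fst ℝ A (A × A × A) +
    ((ContinuousLinearMap.fst ℝ A A).comp ((ContinuousLinearMap.snd ℝ A (A × A)).comp
      (ContinuousLinearMap.snd ℝ A (A × A × A)))) -
    ((ContinuousLinearMap.fst ℝ A (A × A)).comp (ContinuousLinearMap.snd ℝ A (A × A × A))) +
    ((ContinuousLinearMap.snd ℝ A A).comp ((ContinuousLinearMap.snd ℝ A (A × A)).comp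
      (ContinuousLinearMap.snd ℝ A (A × A × A))))

theorem dPsi_apply (p : A × A × A × A) : dPsi p = p.1 + p.2.2.1 - p.2.1 + p.2.2.2 := rfl

omit [FiniteDimensional ℝ A] in
theorem Psi_zero : Psi (0 : A × A × A × A) = 1 := by
  simp [Psi]

theorem Psi_deriv : HasStrictFDerivAt (Psi : A × A × A × A → A) dPsi 0 := by
  have e0 : HasStrictFDerivAt (exp : A → A) (1 : A →L[ℝ] A) 0 := hasStrictFDerivAt_exp_zero
  have hl : ∀ L : (A × A × A × A) →L[ℝ] A,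
      HasStrictFDerivAt (fun p : A × A × A × A => exp (L p)) L 0 := by
    intro L
    have h1 : HasStrictFDerivAt (exp : A → A) (1 : A →L[ℝ] A) (L 0) := by
      rw [map_zero]
      exact e0
    exact h1.comp (0 : A × A × A × A) L.hasStrictFDerivAt
  have h1 := hl (ContinuousLinearMap.fst ℝ A (A × A × A))
  have h2 := hl ((ContinuousLinearMap.fst ℝ A A).comp ((ContinuousLinearMap.snd ℝ A (A × A)).comp
      (ContinuousLinearMap.snd ℝ A (A × A × A))))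
  have h3 := hl (-((ContinuousLinearMap.fst ℝ A (A × A)).comp
    (ContinuousLinearMap.snd ℝ A (A × A × A))))
  have h4 := hl ((ContinuousLinearMap.snd ℝ A A).comp ((ContinuousLinearMap.snd ℝ A (A × A)).comp
      (ContinuousLinearMap.snd ℝ A (A × A × A))))
  have h5 := ((h1.mul' h2).mul' h3).mul' h4
  refine h5.congr_fderiv ?_
  ext p <;> simp [dPsi_apply]

theorem conj_unif {G : Subgroup Aˣ} (hG : IsClosed (G : Set Aˣ)) {h : Aˣ} (hh : h ∈ G) {S : Set ℕ}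
    (hS : S.Nonempty) {C : ℝ} (hC : ∀ n ∈ S, ∀ X ∈ lieSet G,
      ‖Ad h X - X‖ ≤ C * ‖Ad (h ^ n) (Ad h X - X) - (Ad h X - X)‖) {ε : ℝ} (hε : 0 < ε) :
    ∃ U ∈ 𝓝 (1 : Aˣ), ∀ n ∈ S, ∀ u ∈ U, u ∈ G → ∃ X Z : A, X ∈ lieSet G ∧ Z ∈ lieSet G ∧
      Ad h Z = Z ∧ ‖X‖ < ε ∧ ‖Z‖ < ε ∧ u * h ^ n = eu X * eu Z * h ^ n * (eu X)⁻¹ := by
  -- the subspaces
  obtain ⟨g, hgd⟩ : ∃ g : Submodule ℝ A, g = lie G hG := ⟨_, rfl⟩
  have hgm : ∀ X, X ∈ g ↔ X ∈ lieSet G := fun X => by rw [hgd]; rfl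
  have hAg : ∀ n : ℕ, ∀ X ∈ g, Ad (h ^ n) X ∈ g := fun n X hX =>
    (hgm _).2 (lie_Ad ((hgm _).1 hX) (G.pow_mem hh n))
  have hAg1 : ∀ X ∈ g, Ad h X ∈ g := fun X hX => (hgm _).2 (lie_Ad ((hgm _).1 hX) hh)
  let T1 : A →ₗ[ℝ] A := (Ad h : A →L[ℝ] A).toLinearMap - LinearMap.id
  have hT1 : ∀ X, T1 X = Ad h X - X := fun _ => rfl
  let R : Submodule ℝ A := g.map T1
  let Zs : Submodule ℝ A := g ⊓ LinearMap.ker T1
  obtain ⟨P, hP⟩ := g.exists_isCompl
  have hRg : R ≤ g := by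
    rintro _ ⟨X, hX, rfl⟩
    exact g.sub_mem (hAg1 X hX) hX
  have hcomm : ∀ (n : ℕ) (X : A), Ad (h ^ n) (Ad h X) = Ad h (Ad (h ^ n) X) := by
    intro n X
    rw [← Ad_mul, ← Ad_mul, ← pow_succ, ← pow_succ']
  have hRT : ∀ n : ℕ, ∀ X ∈ R, Ad (h ^ n) X ∈ R := by
    rintro n _ ⟨X, hX, rfl⟩
    refine ⟨Ad (h ^ n) X, hAg n X hX, ?_⟩
    rw [hT1, hT1, map_sub, hcomm]
  have hCR : ∀ n ∈ S, ∀ Y ∈ R, ‖Y‖ ≤ C * ‖Ad (h ^ n) Y - Y‖ := by
    rintro n hn _ ⟨X, hX, rfl⟩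
    exact hC n hn X ((hgm _).1 hX)
  -- a fixed vector in `R` is zero
  have hfix : ∀ Y ∈ R, Ad h Y = Y → Y = 0 := by
    intro Y hY hYf
    obtain ⟨n, hn⟩ := hS
    have h1 := hCR n hn Y hY
    have h2 : Ad (h ^ n) Y = Y := by
      rw [Ad_pow]
      exact Function.iterate_fixed hYf n
    rw [h2, sub_self, norm_zero, mul_zero] at h1
    exact norm_le_zero_iff.1 h1
  -- the decomposition
  have hRinv : ∀ X ∈ R, T1 X ∈ R := by
    rintro X hX
    rw [hT1]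
    have h1 := hRT 1 X hX
    rw [pow_one] at h1
    exact R.sub_mem h1 hX
  have hdec : ∀ X ∈ g, ∃ Y ∈ R, X - Y ∈ Zs := by
    intro X hX
    let t : R →ₗ[ℝ] R := T1.restrict hRinv
    have htinj : Function.Injective t := by
      rw [← LinearMap.ker_eq_bot, LinearMap.ker_eq_bot']
      intro Y hY
      apply Subtype.ext
      apply hfix _ Y.2
      have h1 : T1 Y.1 = 0 := congrArg Subtype.val hY
      rw [hT1] at h1
      exact sub_eq_zero.1 h1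
    have htsurj : Function.Surjective t := LinearMap.injective_iff_surjective.1 htinj
    obtain ⟨Y, hY⟩ := htsurj ⟨T1 X, ⟨X, hX, rfl⟩⟩
    refine ⟨Y.1, Y.2, g.sub_mem hX (hRg Y.2), ?_⟩
    have h1 : T1 Y.1 = T1 X := congrArg Subtype.val hY
    show T1 (X - Y.1) = 0
    rw [map_sub, h1, sub_self]
  -- the inverses
  have hB : ∀ n ∈ S, ∃ B : R →ₗ[ℝ] R, ∀ Y : R, ((B Y : A) - Ad (h ^ n) (B Y : A) = (Y : A)) ∧
      ‖(B Y : A)‖ ≤ C * ‖(Y : A)‖ := by
    intro n hn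
    let tn : A →ₗ[ℝ] A := LinearMap.id - (Ad (h ^ n) : A →L[ℝ] A).toLinearMap
    have htn : ∀ X, tn X = X - Ad (h ^ n) X := fun _ => rfl
    have htnR : ∀ X ∈ R, tn X ∈ R := fun X hX => R.sub_mem hX (hRT n X hX)
    let t : R →ₗ[ℝ] R := tn.restrict htnR
    have htv : ∀ Y : R, ((t Y : R) : A) = (Y : A) - Ad (h ^ n) (Y : A) := fun _ => rfl
    have hbd : ∀ Y : R, ‖(Y : A)‖ ≤ C * ‖((t Y : R) : A)‖ := by
      intro Y
      have h1 := hCR n hn Y.1 Y.2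
      rw [htv, norm_sub_rev]
      exact h1
    have htinj : Function.Injective t := by
      rw [← LinearMap.ker_eq_bot, LinearMap.ker_eq_bot']
      intro Y hY
      apply Subtype.ext
      have h1 := hbd Y
      rw [hY] at h1
      simp only [ZeroMemClass.coe_zero, norm_zero, mul_zero] at h1
      exact norm_le_zero_iff.1 h1
    let e := LinearEquiv.ofInjectiveEndo t htinj
    refine ⟨e.symm.toLinearMap, fun Y => ?_⟩
    have h1 : t (e.symm Y) = Y := LinearEquiv.apply_symm_apply e Y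
    constructor
    · have h2 := htv (e.symm Y)
      rw [h1] at h2
      exact h2.symm
    · have h2 := hbd (e.symm Y)
      rw [h1] at h2
      exact h2
  choose! B hB using hB
  -- the linear part
  let L : (R × Zs × P) →L[ℝ] A :=
    LinearMap.toContinuousLinearMap
      (R.subtype ∘ₗ LinearMap.fst ℝ R (Zs × P) +
        Zs.subtype ∘ₗ LinearMap.fst ℝ Zs P ∘ₗ LinearMap.snd ℝ R (Zs × P) +
        P.subtype ∘ₗ LinearMap.snd ℝ Zs P ∘ₗ LinearMap.snd ℝ R (Zs × P))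
  have hL : ∀ w : R × Zs × P, L w = (w.1 : A) + (w.2.1 : A) + (w.2.2 : A) := fun _ => rfl
  have hLs : (L : (R × Zs × P) →ₗ[ℝ] A).range = ⊤ := by
    rw [LinearMap.range_eq_top]
    intro X
    have h1 : X ∈ g ⊔ P := by
      rw [hP.sup_eq_top]
      exact Submodule.mem_top
    obtain ⟨X₁, hX₁, M, hM, rfl⟩ := Submodule.mem_sup.1 h1
    obtain ⟨Y, hY, hZ⟩ := hdec X₁ hX₁
    refine ⟨(⟨Y, hY⟩, ⟨X₁ - Y, hZ⟩, ⟨M, hM⟩), ?_⟩
    show L _ = _
    rw [hL]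
    show Y + (X₁ - Y) + M = X₁ + M
    abel
  obtain ⟨fs, hfs⟩ := L.exists_nonlinearRightInverse_of_surjective hLs
  obtain ⟨κ, hκd⟩ : ∃ κ : ℝ, κ = fs.nnnorm := ⟨_, rfl⟩
  have hκ : 0 < κ := by rw [hκd]; exact_mod_cast hfs
  -- the constants
  obtain ⟨K, hKd⟩ : ∃ K : ℝ, K = |C| + 1 := ⟨_, rfl⟩
  have hK1 : 1 ≤ K := by rw [hKd]; linarith [abs_nonneg C]
  have hK0 : 0 < K := by linarith
  obtain ⟨c0, hc0d⟩ : ∃ c0 : ℝ≥0, (c0 : ℝ) = 1 / (2 * κ * K) :=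
    ⟨⟨1 / (2 * κ * K), by positivity⟩, rfl⟩
  have hc00 : 0 < c0 := by
    rw [← NNReal.coe_pos, hc0d]
    positivity
  obtain ⟨Kn, hKn⟩ : ∃ Kn : ℝ≥0, (Kn : ℝ) = K := ⟨⟨K, hK0.le⟩, rfl⟩
  obtain ⟨s, hs, hsa⟩ := (Psi_deriv (A := A)).approximates_deriv_on_nhds (c := c0) (Or.inr hc00)
  obtain ⟨δ, hδ, hδs⟩ := Metric.mem_nhds_iff.1 hs
  obtain ⟨ε₀, hε₀, hsmall⟩ := small_compl hG P (by rw [← hgd]; exact hP.disjoint)
  obtain ⟨η, hη0, hη1, hη2, hη3⟩ : ∃ η : ℝ, 0 < η ∧ K * η < δ ∧ K * η < ε ∧ K * η < ε₀ := by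
    refine ⟨min δ (min ε ε₀) / (2 * K), by positivity, ?_, ?_, ?_⟩ <;>
    · have e1 : K * (min δ (min ε ε₀) / (2 * K)) = min δ (min ε ε₀) / 2 := by
        field_simp
      rw [e1]
      have h1 : 0 < min δ (min ε ε₀) := by positivity
      have h2 : min δ (min ε ε₀) ≤ δ := min_le_left _ _
      have h3 : min δ (min ε ε₀) ≤ ε := (min_le_right _ _).trans (min_le_left _ _)
      have h4 : min δ (min ε ε₀) ≤ ε₀ := (min_le_right _ _).trans (min_le_right _ _)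
      linarith
  refine ⟨(fun u : Aˣ => (u : A)) ⁻¹' Metric.closedBall 1 (η / (2 * κ)), ?_, ?_⟩
  · apply (Units.continuous_val).continuousAt.preimage_mem_nhds
    rw [Units.val_one]
    exact Metric.closedBall_mem_nhds _ (by positivity)
  intro n hn u hu huG
  have hBn := hB n hn
  -- the map for this `n`
  let J : (R × Zs × P) →L[ℝ] (A × A × A × A) :=
    LinearMap.toContinuousLinearMap
      (LinearMap.prod (R.subtype ∘ₗ B n ∘ₗ LinearMap.fst ℝ R (Zs × P))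
        (LinearMap.prod (R.subtype ∘ₗ B n ∘ₗ LinearMap.fst ℝ R (Zs × P) -
            R.subtype ∘ₗ LinearMap.fst ℝ R (Zs × P))
          (LinearMap.prod (Zs.subtype ∘ₗ LinearMap.fst ℝ Zs P ∘ₗ LinearMap.snd ℝ R (Zs × P))
            (P.subtype ∘ₗ LinearMap.snd ℝ Zs P ∘ₗ LinearMap.snd ℝ R (Zs × P)))))
  have hJ : ∀ w : R × Zs × P, J w =
      ((B n w.1 : A), ((B n w.1 : A) - (w.1 : A), ((w.2.1 : A), (w.2.2 : A)))) := fun _ => rfl
  have hJn : ∀ w : R × Zs × P, ‖J w‖ ≤ K * ‖w‖ := by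
    intro w
    have hw1 : ‖(w.1 : A)‖ ≤ ‖w‖ := norm_fst_le w
    have hw2 : ‖(w.2.1 : A)‖ ≤ ‖w‖ := (norm_fst_le w.2).trans (norm_snd_le w)
    have hw3 : ‖(w.2.2 : A)‖ ≤ ‖w‖ := (norm_snd_le w.2).trans (norm_snd_le w)
    have hb : ‖(B n w.1 : A)‖ ≤ |C| * ‖w‖ := by
      refine ((hBn w.1).2).trans ?_
      calc C * ‖(w.1 : A)‖ ≤ |C| * ‖(w.1 : A)‖ := by gcongr; exact le_abs_self C
        _ ≤ |C| * ‖w‖ := by gcongr
    have hwn : 0 ≤ ‖w‖ := norm_nonneg w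
    have hCw : 0 ≤ |C| * ‖w‖ := by positivity
    rw [hJ]
    refine max_le ?_ (max_le ?_ (max_le ?_ ?_))
    · rw [hKd, add_mul, one_mul]
      linarith
    · rw [hKd, add_mul, one_mul]
      exact (norm_sub_le _ _).trans (by linarith)
    · rw [hKd, add_mul, one_mul]
      linarith
    · rw [hKd, add_mul, one_mul]
      linarith
  have hDJ : ∀ w, dPsi (J w) = L w := by
    intro w
    rw [dPsi_apply, hJ, hL]
    simp only
    abel
  have happ : ApproximatesLinearOn (fun w => Psi (J w)) L (Metric.closedBall (0 : R × Zs × P) η)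
      (c0 * Kn) := by
    intro x hx y hy
    have hx' : J x ∈ s := by
      apply hδs
      rw [mem_ball_zero_iff]
      rw [mem_closedBall_zero_iff] at hx
      calc ‖J x‖ ≤ K * ‖x‖ := hJn x
        _ ≤ K * η := by gcongr
        _ < δ := hη1
    have hy' : J y ∈ s := by
      apply hδs
      rw [mem_ball_zero_iff]
      rw [mem_closedBall_zero_iff] at hy
      calc ‖J y‖ ≤ K * ‖y‖ := hJn y
        _ ≤ K * η := by gcongr
        _ < δ := hη1
    have h1 := hsa _ hx' _ hy'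
    rw [← map_sub, hDJ] at h1
    refine h1.trans ?_
    rw [NNReal.coe_mul, mul_assoc, hKn]
    gcongr
    exact hJn (x - y)
  have hsurj := happ.surjOn_closedBall_of_nonlinearRightInverse fs (ε := η) (b := 0) hη0.le
    subset_rfl
  have hval : Psi (J 0) = 1 := by rw [map_zero, Psi_zero]
  have hrad : (((fs.nnnorm : ℝ)⁻¹ - ((c0 * Kn : ℝ≥0) : ℝ)) * η) = η / (2 * κ) := by
    rw [NNReal.coe_mul, hc0d, ← hκd, hKn]
    field_simp
    ring
  simp only [hval, hrad] at hsurj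
  obtain ⟨w, hw, hwu⟩ := hsurj hu
  rw [mem_closedBall_zero_iff] at hw
  have hJw : ‖J w‖ ≤ K * η := (hJn w).trans (by gcongr)
  obtain ⟨X, hXd⟩ : ∃ X : A, X = (B n w.1 : A) := ⟨_, rfl⟩
  obtain ⟨Z, hZd⟩ : ∃ Z : A, Z = (w.2.1 : A) := ⟨_, rfl⟩
  obtain ⟨M, hMd⟩ : ∃ M : A, M = (w.2.2 : A) := ⟨_, rfl⟩
  have hJw' : J w = (X, ((B n w.1 : A) - (w.1 : A), (Z, M))) := by
    rw [hJ, hXd, hZd, hMd]
  have hXn : ‖X‖ ≤ K * η := by
    have h1 := (norm_fst_le (J w)).trans hJw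
    rwa [hJw'] at h1
  have hZn : ‖Z‖ ≤ K * η := by
    have h1 := (norm_fst_le (J w).2.2).trans
      ((norm_snd_le (J w).2).trans ((norm_snd_le (J w)).trans hJw))
    rwa [hJw'] at h1
  have hMn : ‖M‖ ≤ K * η := by
    have h1 := (norm_snd_le (J w).2.2).trans
      ((norm_snd_le (J w).2).trans ((norm_snd_le (J w)).trans hJw))
    rwa [hJw'] at h1
  have hXG : X ∈ lieSet G := by
    rw [hXd]
    exact (hgm _).1 (hRg (B n w.1).2)
  have hZG : Z ∈ lieSet G := by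
    rw [hZd]
    exact (hgm _).1 w.2.1.2.1
  have hZf : Ad h Z = Z := by
    rw [hZd]
    have h1 : T1 (w.2.1 : A) = 0 := w.2.1.2.2
    rw [hT1] at h1
    exact sub_eq_zero.1 h1
  have hQ : (B n w.1 : A) - (w.1 : A) = Ad (h ^ n) X := by
    rw [hXd]
    have h1 := (hBn w.1).1
    rw [← h1]
    abel
  have hequ : u = eu X * eu Z * (h ^ n * (eu X)⁻¹ * (h ^ n)⁻¹) * eu M := by
    apply Units.ext
    have h1 : h ^ n * (eu X)⁻¹ * (h ^ n)⁻¹ = eu (-(Ad (h ^ n) X)) := by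
      rw [← eu_neg, eu_conj', map_neg]
    rw [h1]
    simp only [Units.val_mul, eu_val]
    have h2 : Psi (J w) = (u : A) := hwu
    rw [← h2, hJw', hQ]
    rfl
  have hMG : eu M ∈ G := by
    have h1 : eu M = (eu X * eu Z * (h ^ n * (eu X)⁻¹ * (h ^ n)⁻¹))⁻¹ * u := by
      rw [hequ]
      group
    rw [h1]
    have a1 := lie_eu hXG
    have a2 := lie_eu hZG
    have a3 := G.pow_mem hh n
    exact G.mul_mem (G.inv_mem (G.mul_mem (G.mul_mem a1 a2)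
      (G.mul_mem (G.mul_mem a3 (G.inv_mem a1)) (G.inv_mem a3)))) huG
  have hM0 : M = 0 := by
    refine hsmall M ?_ (lt_of_le_of_lt hMn hη3) hMG
    rw [hMd]
    exact w.2.2.2
  rw [hM0, eu_zero, mul_one] at hequ
  refine ⟨X, Z, hXG, hZG, hZf, lt_of_le_of_lt hXn hη2, lt_of_le_of_lt hZn hη2, ?_⟩
  rw [hequ]
  group

end Pool.Agent.T6.H27.CL
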