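import Mathlib

/-!
# Coordinates for a semisimple endomorphism of a real vector space
-/

set_option autoImplicit false
set_option linter.unusedSectionVars false

open Module Polynomial
open scoped TensorProduct

namespace Pool.Agent.T6.H27.CL

variable {V : Type*} [AddCommGroup V] [Module ℝ V]

/-- the real part -/
noncomputable def rePart (V : Type*) [AddCommGroup V] [Module ℝ V] : (ℂ ⊗[ℝ] V) →ₗ[ℝ] V :=
  (TensorProduct.lid ℝ V).toLinearMap ∘ₗ Complex.reLm.rTensor V

theorem rePart_tmul (z : ℂ) (v : V) : rePart V (z ⊗ₜ v) = z.re • v := by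
  simp [rePart]

theorem rePart_comm (T : End ℝ V) (w : ℂ ⊗[ℝ] V) :
    rePart V (T.baseChange ℂ w) = T (rePart V w) := by
  induction w with
  | zero => simp
  | tmul z v => rw [LinearMap.baseChange_tmul, rePart_tmul, rePart_tmul, map_smul]
  | add x y hx hy => rw [map_add, map_add, map_add, map_add, hx, hy]

theorem rePart_zero {w : ℂ ⊗[ℝ] V} (h : ∀ c : ℂ, rePart V (c • w) = 0) : w = 0 := by
  have h1 : ∀ w : ℂ ⊗[ℝ] V, w = (1 : ℂ) ⊗ₜ[ℝ] rePart V w - Complex.I ⊗ₜ[ℝ] rePart V (Complex.I • w) := by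
    intro w
    induction w with
    | zero => simp
    | tmul z v =>
      rw [TensorProduct.smul_tmul', rePart_tmul, rePart_tmul, TensorProduct.tmul_smul,
        TensorProduct.tmul_smul, TensorProduct.smul_tmul', TensorProduct.smul_tmul',
        ← TensorProduct.sub_tmul]
      congr 1
      apply Complex.ext <;> simp
    | add x y hx hy =>
      rw [smul_add, map_add, map_add, TensorProduct.tmul_add, TensorProduct.tmul_add]
      nth_rewrite 1 [hx, hy]
      abel
  rw [h1 w]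
  have h2 := h 1
  rw [one_smul] at h2
  rw [h2, h Complex.I]
  simp

/-- The base change of a semisimple endomorphism. -/
theorem ss_baseChange [FiniteDimensional ℝ V] {T : End ℝ V} (hT : T.IsSemisimple) :
    Module.End.IsSemisimple (T.baseChange ℂ : End ℂ (ℂ ⊗[ℝ] V)) := by
  have h1 : (minpoly ℝ T).Separable := PerfectField.separable_iff_squarefree.2 hT.minpoly_squarefree
  have h2 : ((minpoly ℝ T).map (algebraMap ℝ ℂ)).Separable := h1.map
  refine Module.End.isSemisimple_of_squarefree_aeval_eq_zero h2.squarefree ?_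
  rw [aeval_map_algebraMap]
  have h3 : (T.baseChange ℂ : End ℂ (ℂ ⊗[ℝ] V)) = Module.End.baseChangeHom ℝ ℂ V T := rfl
  rw [h3, Polynomial.aeval_algHom_apply, minpoly.aeval, map_zero]

/-- **Coordinates.** -/
theorem exists_diag [FiniteDimensional ℝ V] {T : End ℝ V} (hT : T.IsSemisimple) :
    ∃ (n : ℕ) (lam : Fin n → ℂ) (Φ : Fin n → V →ₗ[ℝ] ℂ) (Ψ : Fin n → ℂ →ₗ[ℝ] V),
      (∀ i x, Φ i (T x) = lam i * Φ i x) ∧ (∀ i c, T (Ψ i c) = Ψ i (lam i * c)) ∧
      (∀ x, ∑ i, Ψ i (Φ i x) = x) ∧ ∀ i, ∃ c, Ψ i c ≠ 0 := by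
  classical
  obtain ⟨TC, hTC⟩ : ∃ TC : End ℂ (ℂ ⊗[ℝ] V), TC = T.baseChange ℂ := ⟨_, rfl⟩
  have hTCs : TC.IsSemisimple := by rw [hTC]; exact ss_baseChange hT
  obtain ⟨s, hs⟩ : ∃ s : Set (ℂ ⊗[ℝ] V), s = {w | ∃ μ : ℂ, TC w = μ • w} := ⟨_, rfl⟩
  have hspan : ⊤ ≤ Submodule.span ℂ s := by
    rw [← Module.End.iSup_maxGenEigenspace_eq_top TC]
    refine iSup_le fun μ => ?_
    rw [hTCs.isFinitelySemisimple.maxGenEigenspace_eq_eigenspace]
    intro w hw
    apply Submodule.subset_span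
    rw [hs]
    exact ⟨μ, Module.End.mem_eigenspace_iff.1 hw⟩
  obtain ⟨b, hb⟩ : ∃ b : Basis (Fin (finrank ℂ (ℂ ⊗[ℝ] V))) ℂ (ℂ ⊗[ℝ] V), ∀ i, b i ∈ s := by
    let b₁ := Basis.ofSpan hspan
    haveI : Fintype ((linearIndepOn_empty ℂ id).extend (Set.empty_subset s)) :=
      FiniteDimensional.fintypeBasisIndex b₁
    refine ⟨b₁.reindex (Fintype.equivFinOfCardEq (Module.finrank_eq_card_basis b₁).symm), ?_⟩
    intro i
    rw [Basis.reindex_apply]
    exact Basis.ofSpan_subset hspan ⟨_, rfl⟩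
  rw [hs] at hb
  choose lam hlam using hb
  have hrep : ∀ (w : ℂ ⊗[ℝ] V) i, b.repr (TC w) i = lam i * b.repr w i := by
    intro w i
    have h1 : TC w = ∑ j, (lam j * b.repr w j) • b j := by
      conv_lhs => rw [← b.sum_repr w]
      rw [map_sum]
      refine Finset.sum_congr rfl fun j _ => ?_
      rw [map_smul, hlam, smul_smul, mul_comm]
    rw [h1, b.repr_sum_self]
  refine ⟨_, lam, fun i => (b.coord i).restrictScalars ℝ ∘ₗ (TensorProduct.mk ℝ ℂ V 1),
    fun i => rePart V ∘ₗ ((LinearMap.toSpanSingleton ℂ _ (b i)).restrictScalars ℝ), ?_, ?_, ?_, ?_⟩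
  · intro i x
    have h1 := hrep ((1 : ℂ) ⊗ₜ[ℝ] x) i
    rw [hTC, LinearMap.baseChange_tmul] at h1
    exact h1
  · intro i c
    show T (rePart V (c • b i)) = rePart V ((lam i * c) • b i)
    rw [← rePart_comm, map_smul, ← hTC, hlam, smul_smul, mul_comm c]
  · intro x
    show ∑ i, rePart V (b.repr ((1 : ℂ) ⊗ₜ[ℝ] x) i • b i) = x
    rw [← map_sum, b.sum_repr, rePart_tmul, Complex.one_re, one_smul]
  · intro i
    by_contra hcon
    push Not at hcon
    exact b.ne_zero i (rePart_zero hcon)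

end Pool.Agent.T6.H27.CL
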