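import Pool.Agent.T6.H27.CL.LAlg

/-!
# Elements with semisimple adjoint action are dense
-/

set_option autoImplicit false
set_option linter.unusedSectionVars false

open Filter Set Topology NormedSpace LieAlgebra

namespace Pool.Agent.T6.H27.CL

attribute [local instance 100] LieRing.ofAssociativeRing
attribute [local instance] qmod

section

variable {L : Type*} [LieRing L] [LieAlgebra ℝ L] [FiniteDimensional ℝ L] [IsKilling ℝ L]

/-- Derivations are inner. -/
theorem der_inner (N : Module.End ℝ L) (hN : ∀ x y, N ⁅x, y⁆ = ⁅N x, y⁆ + ⁅x, N y⁆) :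
    ∃ E : L, ad ℝ L E = N := by
  let D : LieDerivation ℝ L L :=
    { toLinearMap := N
      leibniz' := fun a b => by
        show N ⁅a, b⁆ = ⁅a, N b⁆ - ⁅b, N a⁆
        rw [hN, ← lie_skew (N a) b]
        abel }
  obtain ⟨E, hE⟩ := LieDerivation.IsKilling.exists_eq_ad D
  refine ⟨E, ?_⟩
  ext x
  have h1 : (LieDerivation.ad ℝ L E) x = D x := by rw [hE]
  rw [LieDerivation.ad_apply_apply] at h1
  exact h1

theorem eq_zero_of_ad {E : L} (hE : ∀ x : L, ⁅E, x⁆ = 0) : E = 0 := by
  have h1 : ad ℝ L E = 0 := by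
    ext x
    exact hE x
  have h2 : LieModule.toEnd ℝ L L E = 0 := h1
  have h3 : E ∈ LieAlgebra.center ℝ L := by
    rw [← LieAlgebra.self_module_ker_eq_center, LieModule.mem_ker]
    exact hE
  rw [LieAlgebra.center_eq_bot, LieSubmodule.mem_bot] at h3
  exact h3

theorem fix_of_comm {s N : Module.End ℝ L} (hs : ∀ x y, s ⁅x, y⁆ = ⁅s x, s y⁆) (hsu : IsUnit s)
    (hc : Commute s N) {E : L} (hE : ad ℝ L E = N) : s E = E := by
  rw [← sub_eq_zero]
  apply eq_zero_of_ad
  intro x
  have h1 := (Module.End.isUnit_iff s).1 hsu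
  obtain ⟨y, rfl⟩ := h1.2 x
  rw [sub_lie, ← hs, sub_eq_zero]
  have h2 : ∀ z, ⁅E, z⁆ = N z := fun z => by rw [← hE]; rfl
  rw [h2, h2]
  exact LinearMap.congr_fun hc.eq y

end

variable {A : Type*} [NormedRing A] [NormedAlgebra ℝ A] [CompleteSpace A] [FiniteDimensional ℝ A]
variable {G : Subgroup Aˣ} (hG : IsClosed (G : Set Aˣ))

/-- the generalized eigenspace of `Ad u` for the eigenvalue `1` -/
noncomputable def gen1 (u : G) : Submodule ℝ (lieA G hG) := (adL hG u).maxGenEigenspace 1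

theorem mem_gen1 {u : G} {X : lieA G hG} :
    X ∈ gen1 hG u ↔ ∃ k : ℕ, ((adL hG u - 1) ^ k) X = 0 := by
  rw [gen1, Module.End.mem_maxGenEigenspace]
  simp only [one_smul]

theorem restr_comm {V : Type*} [AddCommGroup V] [Module ℝ V] {s f : Module.End ℝ V}
    (h : Commute f s) {x : V} (hx : x ∈ LinearMap.ker (s - 1)) : f x ∈ LinearMap.ker (s - 1) := by
  rw [LinearMap.mem_ker] at hx ⊢
  have h1 : Commute f (s - 1) := h.sub_right (Commute.one_right f)
  have h2 := LinearMap.congr_fun h1.eq x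
  rw [Module.End.mul_apply, Module.End.mul_apply, hx, map_zero] at h2
  exact h2.symm

theorem restr_comm' {V : Type*} [AddCommGroup V] [Module ℝ V] {s f : Module.End ℝ V}
    (h : Commute f s) {x : V} (hx : x ∈ LinearMap.range (s - 1)) :
    f x ∈ LinearMap.range (s - 1) := by
  obtain ⟨y, rfl⟩ := hx
  have h1 : Commute f (s - 1) := h.sub_right (Commute.one_right f)
  have h2 := LinearMap.congr_fun h1.eq y
  rw [Module.End.mul_apply, Module.End.mul_apply] at h2
  exact ⟨f y, h2.symm⟩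

/-- Every element of `G` is a limit of elements whose adjoint action is semisimple. -/
theorem ss_dense [IsKilling ℝ (lieA G hG)] (h : G) {U : Set G} (hU : U ∈ 𝓝 h) :
    ∃ h' ∈ U, (adL hG h').IsSemisimple := by
  obtain ⟨U', hU'U, hU'o, hhU'⟩ := mem_nhds_iff.1 hU
  -- minimise
  obtain ⟨h', hh', hmin⟩ : ∃ h' ∈ U', ∀ g ∈ U', Module.finrank ℝ (gen1 hG h') ≤
      Module.finrank ℝ (gen1 hG g) := by
    let S : Set ℕ := (fun g : G => Module.finrank ℝ (gen1 hG g)) '' U'
    have hS : S.Nonempty := ⟨_, h, hhU', rfl⟩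
    obtain ⟨g, hg, hgm⟩ := Nat.sInf_mem hS
    refine ⟨g, hg, fun g' hg' => ?_⟩
    have h1 : Module.finrank ℝ (gen1 hG g) = sInf S := hgm
    rw [h1]
    exact Nat.sInf_le ⟨g', hg', rfl⟩
  refine ⟨h', hU'U hh', ?_⟩
  obtain ⟨T, hT⟩ : ∃ T, T = adL hG h' := ⟨_, rfl⟩
  rw [← hT]
  obtain ⟨s, N, hss, hsu, hNn, hsN, hTs, hTsn, hsaut, hNder, hN0⟩ :=
    jordan_aut (T := T) (β := (ad ℝ (lieA G hG)).toLinearMap) (by rw [hT]; exact adL_unit hG h')
      (fun x y => by rw [hT]; exact adL_lie hG h' x y)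
  have hsaut' : ∀ x y : lieA G hG, s ⁅x, y⁆ = ⁅s x, s y⁆ := hsaut
  obtain ⟨E, hE⟩ := der_inner N hNder
  have hsE := fix_of_comm hsaut' hsu hsN hE
  have hEn : IsNilpotent (ad ℝ (lieA G hG) E) := by rw [hE]; exact hNn
  by_cases hE0 : E = 0
  · apply hN0
    rw [← hE, hE0, map_zero]
  exfalso
  obtain ⟨H, hHE, hsH⟩ := exists_scale s hss hsaut' hsE hEn
  obtain ⟨s₀, hs₀⟩ : ∃ s₀ : G, s₀ = h' * (eL E)⁻¹ := ⟨_, rfl⟩
  have hads : adL hG s₀ = s := by
    have h1 : adL hG h' = adL hG s₀ * adL hG (eL E) := by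
      rw [← adL_mul, hs₀, inv_mul_cancel_right]
    rw [← hT, hTs, adL_eL_nil hG hEn, hE] at h1
    exact ((IsNilpotent.isUnit_exp hNn).mul_left_inj.1 h1).symm
  have hTsc : Commute T s := by
    rw [hTs]
    refine (Commute.refl s).mul_left ?_
    have h1 : Commute (IsNilpotent.exp N) s := by
      obtain ⟨k, hk⟩ := hNn
      rw [IsNilpotent.exp_eq_sum hk]
      refine Commute.sum_left _ _ _ fun i _ => ?_
      rw [qsmul]
      exact (hsN.symm.pow_left i).smul_left _
    exact h1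
  -- the fixed space of `s`
  obtain ⟨C, hC⟩ : ∃ C : Submodule ℝ (lieA G hG), C = LinearMap.ker (s - 1) := ⟨_, rfl⟩
  obtain ⟨R, hR⟩ : ∃ R : Submodule ℝ (lieA G hG), R = LinearMap.range (s - 1) := ⟨_, rfl⟩
  have hs1 := ss_sub_one hss
  have hCR : Disjoint C R := by rw [hC, hR]; exact ss_disj hs1
  have hCRt : C ⊔ R = ⊤ := by rw [hC, hR]; exact ss_top hs1
  have hCgen : C ≤ gen1 hG h' := by
    intro x hx
    rw [mem_gen1, ← hT]
    obtain ⟨k, hk⟩ := hTsn
    refine ⟨k, ?_⟩
    have h1 : ∀ (j : ℕ), ((T - 1) ^ j) x = ((T - s) ^ j) x ∧ ((T - s) ^ j) x ∈ C := by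
      intro j
      induction j with
      | zero => exact ⟨rfl, hx⟩
      | succ j ih =>
        have h2 : Commute (T - s) s := hTsc.sub_left (Commute.refl s)
        constructor
        · rw [pow_succ', pow_succ', Module.End.mul_apply, Module.End.mul_apply, ih.1]
          have h3 := ih.2
          rw [hC, LinearMap.mem_ker, LinearMap.sub_apply, sub_eq_zero] at h3
          rw [LinearMap.sub_apply, LinearMap.sub_apply, h3]
        · rw [pow_succ', Module.End.mul_apply, hC]
          apply restr_comm h2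
          rw [← hC]
          exact ih.2
    rw [(h1 k).1, hk]
    rfl
  -- `T - 1` is injective on `R`
  have hinj : ∀ x ∈ R, (T - 1) x = 0 → x = 0 := by
    intro x hx hx0
    have h1 : (s - 1) x = 0 := by
      refine ker_jc (f := T - 1) (s := s - 1) (n := T - s) hs1 hTsn ?_ (by abel) hx0
      exact (hTsc.symm.sub_right (Commute.refl s)).sub_left (Commute.one_left _)
    exact (Submodule.disjoint_def.1 hCR) x (by rw [hC]; exact h1) hx
  obtain ⟨c, hc, hcR⟩ : ∃ c : ℝ, 0 < c ∧ ∀ x ∈ R, c * ‖x‖ ≤ ‖(T - 1) x‖ := by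
    let f : R →ₗ[ℝ] lieA G hG := (T - 1).domRestrict R
    have hf : LinearMap.ker f = ⊥ := by
      rw [LinearMap.ker_eq_bot']
      intro x hx
      exact Subtype.ext (hinj x x.2 hx)
    obtain ⟨K, hK, hKf⟩ := f.exists_antilipschitzWith hf
    refine ⟨(K : ℝ)⁻¹, by positivity, fun x hx => ?_⟩
    have h1 := hKf.le_mul_dist ⟨x, hx⟩ 0
    rw [dist_zero_right, map_zero, dist_zero_right] at h1
    have h2 : ‖x‖ ≤ K * ‖(T - 1) x‖ := h1
    have h3 : (0 : ℝ) < K := by exact_mod_cast hK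
    rw [inv_mul_le_iff₀ h3]
    exact h2
  -- the perturbation
  let he : ℝ → G := fun ε => s₀ * eL (E + ε • H)
  have hec : Continuous he := by
    have h1 : Continuous (fun ε : ℝ => (E + ε • H : lieA G hG)) := by fun_prop
    exact continuous_const.mul ((eL_cont (hG := hG)).comp h1)
  have he0 : he 0 = h' := by
    show s₀ * eL (E + (0 : ℝ) • H) = h'
    rw [zero_smul, add_zero, hs₀, inv_mul_cancel_right]
  have hlim : Tendsto he (𝓝[≠] 0) (𝓝 h') := by
    have h1 := hec.tendsto 0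
    rw [he0] at h1
    exact h1.mono_left nhdsWithin_le_nhds
  have hev : ∀ᶠ ε in 𝓝[≠] (0 : ℝ), he ε ∈ U' ∧
      (∀ X : lieA G hG, ‖adL hG (he ε) X - adL hG h' X‖ ≤ (c / 2) * ‖X‖) ∧ ε ≠ 0 := by
    filter_upwards [hlim.eventually (hU'o.mem_nhds hh'), hlim.eventually (adL_near hG h' (half_pos hc)),
      self_mem_nhdsWithin] with ε h1 h2 h3
    exact ⟨h1, h2, h3⟩
  obtain ⟨ε, hεU, hεn, hε0⟩ := hev.exists
  obtain ⟨Te, hTe⟩ : ∃ Te, Te = adL hG (he ε) := ⟨_, rfl⟩
  have hsV : s (E + ε • H) = E + ε • H := by rw [map_add, map_smul, hsE, hsH]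
  have hTes : Commute Te s := by
    have h1 : Commute s₀ (eL (E + ε • H)) := eL_comm hG (by rw [hads]; exact hsV)
    have h2 : Commute (he ε) s₀ := (Commute.refl s₀).mul_left h1.symm
    rw [hTe, ← hads]
    show _ * _ = _ * _
    rw [← adL_mul, ← adL_mul, h2.eq]
  have hTeE : Te E = Real.exp ε • E := by
    rw [hTe]
    show adL hG (s₀ * eL (E + ε • H)) E = _
    rw [adL_mul, Module.End.mul_apply, adL_eL_scale hG (ε := ε), map_smul, hads, hsE]
    rw [add_lie, lie_self, zero_add, smul_lie, hHE]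
  have hTe1 : Commute (Te - 1) s := hTes.sub_left (Commute.one_left s)
  have hinj2 : ∀ x ∈ R, (Te - 1) x = 0 → x = 0 := by
    intro x hx hx0
    have h1 := hcR x hx
    have h2 := hεn x
    rw [← hTe, ← hT] at h2
    have h3 : (T - 1) x = -(Te x - T x) := by
      have h4 : Te x = x := by
        rw [LinearMap.sub_apply, sub_eq_zero] at hx0
        exact hx0
      rw [h4, LinearMap.sub_apply]
      show T x - x = _
      abel
    rw [h3, norm_neg] at h1
    have h4 : ‖x‖ ≤ 0 := by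
      by_contra h5
      push Not at h5
      nlinarith
    exact norm_le_zero_iff.1 h4
  have hinj3 : ∀ (k : ℕ) (x : lieA G hG), x ∈ R → ((Te - 1) ^ k) x = 0 → x = 0 := by
    intro k
    induction k with
    | zero => intro x _ hx; exact hx
    | succ k ih =>
      intro x hx hx0
      rw [pow_succ, Module.End.mul_apply] at hx0
      have h1 : (Te - 1) x ∈ R := by
        rw [hR] at hx ⊢
        exact restr_comm' hTe1 hx
      exact hinj2 x hx (ih _ h1 hx0)
  have hgenC : gen1 hG (he ε) ≤ C := by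
    intro x hx
    rw [mem_gen1, ← hTe] at hx
    obtain ⟨k, hk⟩ := hx
    obtain ⟨y, hy, z, hz, rfl⟩ := Submodule.mem_sup.1 (hCRt ▸ Submodule.mem_top : x ∈ _)
    have hck : Commute ((Te - 1) ^ k) s := hTe1.pow_left k
    have h1 : ((Te - 1) ^ k) y ∈ C := by
      rw [hC] at hy ⊢
      exact restr_comm hck hy
    have h2 : ((Te - 1) ^ k) z ∈ R := by
      rw [hR] at hz ⊢
      exact restr_comm' hck hz
    have h3 : ((Te - 1) ^ k) z ∈ C := by
      rw [map_add] at hk
      rw [(neg_eq_of_add_eq_zero_right hk).symm]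
      exact C.neg_mem h1
    have h4 := (Submodule.disjoint_def.1 hCR) _ h3 h2
    have h5 := hinj3 k z hz h4
    rw [h5, add_zero]
    exact hy
  have hlt : gen1 hG (he ε) < C := by
    refine lt_of_le_of_ne hgenC fun heq => hE0 ?_
    have h1 : E ∈ gen1 hG (he ε) := by
      rw [heq, hC, LinearMap.mem_ker, LinearMap.sub_apply, hsE]
      exact sub_self E
    rw [mem_gen1, ← hTe] at h1
    obtain ⟨k, hk⟩ := h1
    have h2 : ∀ j : ℕ, ((Te - 1) ^ j) E = ((Real.exp ε - 1) ^ j) • E := by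
      intro j
      induction j with
      | zero => simp
      | succ j ih =>
        rw [pow_succ', Module.End.mul_apply, ih, map_smul, LinearMap.sub_apply, hTeE]
        show (Real.exp ε - 1) ^ j • (Real.exp ε • E - E) = _
        rw [pow_succ, mul_smul, sub_smul, one_smul]
    rw [h2] at hk
    rcases smul_eq_zero.1 hk with h3 | h3
    · exfalso
      have h4 : Real.exp ε - 1 ≠ 0 := by
        rw [Ne, sub_eq_zero, Real.exp_eq_one_iff]
        exact hε0
      exact pow_ne_zero k h4 h3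
    · exact h3
  have h1 := Submodule.finrank_lt_finrank_of_lt hlt
  have h2 := Submodule.finrank_mono hCgen
  have h3 := hmin (he ε) hεU
  omega

end Pool.Agent.T6.H27.CL
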