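import Pool.Agent.T6.H27.CL.Hyp
import Pool.Agent.T6.H27.CL.SSDense

/-!
# Closing for elliptic elements, and for all elements
-/

set_option autoImplicit false
set_option linter.unusedSectionVars false

open Filter Set Topology NormedSpace LieAlgebra

namespace Pool.Agent.T6.H27.CL

attribute [local instance 100] LieRing.ofAssociativeRing

theorem eu_inj {B : Type*} [NormedRing B] [NormedAlgebra ℝ B] [CompleteSpace B] :
    ∃ ε : ℝ, 0 < ε ∧ ∀ X Y : B, ‖X‖ < ε → ‖Y‖ < ε → eu X = eu Y → X = Y := by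
  have h0 : HasStrictFDerivAt (exp : B → B)
      ((ContinuousLinearEquiv.refl ℝ B : B ≃L[ℝ] B) : B →L[ℝ] B) 0 := hasStrictFDerivAt_exp_zero
  have h3 := h0.eventually_left_inverse
  obtain ⟨ε, hε, hball⟩ := Metric.eventually_nhds_iff_ball.1 h3
  refine ⟨ε, hε, fun X Y hX hY hXY => ?_⟩
  have h1 : exp X = exp Y := congrArg Units.val hXY
  rw [← hball X (by rwa [mem_ball_zero_iff]), ← hball Y (by rwa [mem_ball_zero_iff]), h1]

variable {A : Type*} [NormedRing A] [NormedAlgebra ℝ A] [CompleteSpace A] [FiniteDimensional ℝ A]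
variable {G : Subgroup Aˣ} (hG : IsClosed (G : Set Aˣ))

theorem central [ConnectedSpace G] {z : G} (hz : adL hG z = 1) (g : G) : Commute z g := by
  have h1 : g ∈ Subgroup.centralizer {z} := by
    refine gen_top hG _ (fun X hX => ?_) g
    rw [Subgroup.mem_centralizer_singleton_iff]
    have h2 : Commute z (eL (⟨X, hX⟩ : lieA G hG)) := eL_comm hG (by rw [hz]; rfl)
    exact h2.symm.eq
  rw [Subgroup.mem_centralizer_singleton_iff] at h1
  exact h1.symm

/-- If no power of a central element lies in `Γ`, then `Γ` fixes an element with a bounded orbit. -/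
theorem fixed_dir [ConnectedSpace G] {Γ : Subgroup G} (hΓ : IsLat Γ) {z : G}
    (hz : adL hG z = 1) (hcon : ∀ l : ℕ, 1 ≤ l → z ^ l ∉ Γ) : ∃ Y : lieA G hG, Y ≠ 0 ∧
      (∀ γ ∈ Γ, adL hG γ Y = Y) ∧ Bdd G (Y : A) := by
  have : LocallyCompactSpace G := hG.isClosedEmbedding_subtypeVal.locallyCompactSpace
  have : SecondCountableTopology G :=
    (Topology.IsInducing.subtypeVal (t := (G : Set Aˣ))).secondCountableTopology
  have hzc := central hG hz
  -- small elements
  have h1 : ∀ U ∈ 𝓝 (1 : G), ∃ n : ℕ, ∃ w ∈ U, w ≠ 1 ∧ z ^ n * w ∈ Γ := by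
    intro U hU
    have hc : Continuous (fun p : G × G => p.1⁻¹ * p.2) := by fun_prop
    have h1 : (fun p : G × G => p.1⁻¹ * p.2) ⁻¹' U ∈ 𝓝 ((1 : G), (1 : G)) := by
      apply hc.continuousAt.preimage_mem_nhds
      simpa using hU
    rw [nhds_prod_eq] at h1
    obtain ⟨B, hB, hB2⟩ := Filter.mem_prod_same_iff.1 h1
    obtain ⟨n, hn, b, hb, b', hb', γ, hγ, he⟩ := recur Γ hΓ z B hB
    have h2 : z ^ n * (b'⁻¹ * b) = γ := by
      have h3 : Commute (z ^ n) b'⁻¹ := (hzc _).pow_left n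
      rw [← mul_assoc, h3.eq, mul_assoc, he, inv_mul_cancel_left]
    refine ⟨n, b'⁻¹ * b, hB2 (mk_mem_prod hb' hb), ?_, by rw [h2]; exact hγ⟩
    intro h4
    rw [h4, mul_one] at h2
    exact hcon n hn (by rw [h2]; exact hγ)
  have h2 : ∀ ε : ℝ, 0 < ε → ∃ n : ℕ, ∃ W : lieA G hG, ‖W‖ < ε ∧ W ≠ 0 ∧ z ^ n * eL W ∈ Γ := by
    intro ε hε
    obtain ⟨U, hU, hU2⟩ := exp_cover hG hε
    have hN : (Subtype.val : G → Aˣ) ⁻¹' U ∈ 𝓝 (1 : G) :=
      continuous_subtype_val.continuousAt.preimage_mem_nhds hU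
    obtain ⟨n, w, hw, hw1, hwΓ⟩ := h1 _ hN
    obtain ⟨X, hX, hXε, hXw⟩ := hU2 w hw w.2
    have h3 : w = eL (⟨X, hX⟩ : lieA G hG) := Subtype.ext hXw
    refine ⟨n, ⟨X, hX⟩, hXε, ?_, by rw [← h3]; exact hwΓ⟩
    intro h4
    rw [h4, eL_zero] at h3
    exact hw1 h3
  have h3 := fun i : ℕ => h2 (1 / ((i : ℝ) + 1)) (by positivity)
  choose n W hWn hW0 hWΓ using h3
  have hlim : Tendsto W atTop (𝓝 0) := by
    rw [tendsto_zero_iff_norm_tendsto_zero]
    exact squeeze_zero (fun i => norm_nonneg _) (fun i => (hWn i).le)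
      tendsto_one_div_add_atTop_nhds_zero_nat
  obtain ⟨D, hD⟩ : ∃ D : ℕ → lieA G hG, ∀ i, D i = ‖W i‖⁻¹ • W i := ⟨_, fun _ => rfl⟩
  have hDn : ∀ i, ‖D i‖ = 1 := by
    intro i
    rw [hD, norm_smul, norm_inv, norm_norm, inv_mul_cancel₀ (norm_pos_iff.2 (hW0 i)).ne']
  have : ProperSpace (lieA G hG) := FiniteDimensional.proper ℝ _
  obtain ⟨Y, hY, φ, hφ, hlimD⟩ := (isCompact_sphere (0 : lieA G hG) 1).tendsto_subseq
    (x := D) (fun n => by rw [mem_sphere_zero_iff_norm]; exact hDn n)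
  have hYn : ‖Y‖ = 1 := by rwa [mem_sphere_zero_iff_norm] at hY
  obtain ⟨ε, hε, hinj⟩ := eu_inj (B := A)
  have hfix : ∀ γ ∈ Γ, adL hG γ Y = Y := by
    intro γ hγ
    obtain ⟨N, hN, hNΓ⟩ := hΓ.disc
    have hAd : Continuous (adL hG γ) := (adL hG γ).continuous_of_finiteDimensional
    have hAdW : Tendsto (fun i => adL hG γ (W i)) atTop (𝓝 0) := by
      have := (hAd.tendsto 0).comp hlim
      rwa [map_zero] at this
    have ht : Tendsto (fun i => (eL (W i))⁻¹ * eL (adL hG γ (W i))) atTop (𝓝 1) := by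
      have h3 := ((eL_cont (hG := hG)).tendsto 0).comp hlim
      have h4 := ((eL_cont (hG := hG)).tendsto 0).comp hAdW
      rw [eL_zero] at h3 h4
      have h5 := h3.inv.mul h4
      rw [inv_one, one_mul] at h5
      exact h5
    have hev : ∀ᶠ i in atTop, adL hG γ (W i) = W i := by
      have e1 : ∀ᶠ i in atTop, ‖W i‖ < ε := by
        have h1 := hlim.norm
        rw [norm_zero] at h1
        exact h1.eventually (gt_mem_nhds hε)
      have e2 : ∀ᶠ i in atTop, ‖adL hG γ (W i)‖ < ε := by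
        have h1 := hAdW.norm
        rw [norm_zero] at h1
        exact h1.eventually (gt_mem_nhds hε)
      filter_upwards [ht.eventually hN, e1, e2] with i hi h5 h6
      have h3 : (eL (W i))⁻¹ * eL (adL hG γ (W i)) ∈ Γ := by
        have h4 : (z ^ n i * eL (W i))⁻¹ * (γ * (z ^ n i * eL (W i)) * γ⁻¹) ∈ Γ :=
          Γ.mul_mem (Γ.inv_mem (hWΓ i)) (Γ.mul_mem (Γ.mul_mem hγ (hWΓ i)) (Γ.inv_mem hγ))
        have h7 : γ * (z ^ n i * eL (W i)) * γ⁻¹ = z ^ n i * eL (adL hG γ (W i)) := by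
          rw [← eL_conj]
          have h8 : Commute (z ^ n i) γ := (hzc γ).pow_left _
          calc γ * (z ^ n i * eL (W i)) * γ⁻¹ = (γ * z ^ n i) * (eL (W i) * γ⁻¹) := by group
            _ = (z ^ n i * γ) * (eL (W i) * γ⁻¹) := by rw [h8.eq]
            _ = _ := by group
        rw [h7, mul_inv_rev, mul_assoc, inv_mul_cancel_left] at h4
        exact h4
      have h9 := hNΓ _ hi h3
      have h10 : eL (W i) = eL (adL hG γ (W i)) := by
        rw [inv_mul_eq_one] at h9
        exact h9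
      have h11 := congrArg Subtype.val h10
      exact (Subtype.ext (hinj _ _ h5 h6 h11)).symm
    have hev2 : ∀ᶠ i in atTop, adL hG γ (D (φ i)) = D (φ i) := by
      filter_upwards [hφ.tendsto_atTop.eventually hev] with i hi
      rw [hD, map_smul, hi]
    have h3 := (hAd.tendsto Y).comp hlimD
    have h4 : Tendsto (fun i => D (φ i)) atTop (𝓝 (adL hG γ Y)) := h3.congr' hev2
    exact tendsto_nhds_unique h4 hlimD
  -- the orbit of `Y` is bounded
  obtain ⟨K, hK, hKΓ⟩ := hΓ.coc
  have hc : Continuous (fun v : G => ‖Ad (v : Aˣ) (Y : A)‖) := by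
    have h1 : Continuous (fun v : G => ((v : Aˣ) : A)) :=
      Units.continuous_val.comp continuous_subtype_val
    have h2 : Continuous (fun v : G => (((v : Aˣ)⁻¹ : Aˣ) : A)) :=
      Units.continuous_val.comp (continuous_inv.comp continuous_subtype_val)
    have h3 : Continuous (fun v : G => Ad (v : Aˣ) (Y : A)) := by
      simp only [Ad_apply]
      exact (h1.mul continuous_const).mul h2
    exact h3.norm
  obtain ⟨C, hC⟩ := (hK.image hc).bddAbove
  refine ⟨Y, ?_, hfix, C, fun g hg => ?_⟩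
  · rintro rfl
    rw [norm_zero] at hYn
    exact zero_ne_one hYn
  obtain ⟨k, hk, hkg⟩ := hKΓ ⟨g, hg⟩
  have h4 := hfix _ hkg
  have h5 : adL hG ⟨g, hg⟩ Y = adL hG k Y := by
    have h6 : (⟨g, hg⟩ : G) = k * (k⁻¹ * ⟨g, hg⟩) := by group
    rw [h6, adL_mul, Module.End.mul_apply, h4]
  have h6 : ‖Ad g (Y : A)‖ = ‖Ad (k : Aˣ) (Y : A)‖ := by
    have h7 := congrArg (fun X : lieA G hG => ‖(X : A)‖) h5
    exact h7
  rw [h6]
  exact hC ⟨k, hk, rfl⟩

theorem adL_cont_left (Y : lieA G hG) : Continuous (fun g : G => adL hG g Y) := by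
  have h1 : Continuous (fun v : G => ((v : Aˣ) : A)) :=
    Units.continuous_val.comp continuous_subtype_val
  have h2 : Continuous (fun v : G => (((v : Aˣ)⁻¹ : Aˣ) : A)) :=
    Units.continuous_val.comp (continuous_inv.comp continuous_subtype_val)
  have h3 : Continuous (fun v : G => Ad (v : Aˣ) (Y : A)) := by
    simp only [Ad_apply]
    exact (h1.mul continuous_const).mul h2
  exact Continuous.subtype_mk h3 _

theorem eq_zero_of_fix [IsKilling ℝ (lieA G hG)] {Y : lieA G hG}
    (h : ∀ X : lieA G hG, ∀ᶠ t : ℝ in 𝓝 0, adL hG (eL (t • X)) Y = Y) : Y = 0 := by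
  have h1 : ∀ X : lieA G hG, ⁅X, Y⁆ = 0 := by
    intro X
    have h2 := lie_slope hG X Y
    have h3 : Tendsto (fun t : ℝ => t⁻¹ • (adL hG (eL (t • X)) Y - Y)) (𝓝[≠] 0) (𝓝 0) := by
      refine tendsto_const_nhds.congr' ?_
      filter_upwards [nhdsWithin_le_nhds (h X)] with t ht
      rw [ht, sub_self, smul_zero]
    exact tendsto_nhds_unique h2 h3
  apply eq_zero_of_ad
  intro X
  rw [← lie_skew, h1, neg_zero]

/-- **A power of a central element lies in `Γ`.** -/
theorem cent_pow [ConnectedSpace G] [IsKilling ℝ (lieA G hG)]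
    (hc : CompactSpace G ∨ ∃ X ∈ lieSet G, ¬ Bdd G X) {Γ : Subgroup G} (hΓ : IsLat Γ)
    (hirr : Irr Γ) {z : G} (hz : adL hG z = 1) : ∃ l : ℕ, 1 ≤ l ∧ z ^ l ∈ Γ := by
  have : LocallyCompactSpace G := hG.isClosedEmbedding_subtypeVal.locallyCompactSpace
  have : SecondCountableTopology G :=
    (Topology.IsInducing.subtypeVal (t := (G : Set Aˣ))).secondCountableTopology
  have hzc := central hG hz
  rcases hc with hc | hub
  · -- the compact case
    obtain ⟨ε, hε, hinj⟩ := eu_inj (B := A)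
    obtain ⟨U, hU, hU2⟩ := exp_cover hG hε
    have hN : (Subtype.val : G → Aˣ) ⁻¹' U ∈ 𝓝 (1 : G) :=
      continuous_subtype_val.continuousAt.preimage_mem_nhds hU
    obtain ⟨n, hn, hnU⟩ := pow_recur z hN
    obtain ⟨W, hW, hWε, hWz⟩ := hU2 _ hnU (z ^ n).2
    have h3 : z ^ n = eL (⟨W, hW⟩ : lieA G hG) := Subtype.ext hWz
    have hW0 : (⟨W, hW⟩ : lieA G hG) = 0 := by
      apply eq_zero_of_fix
      intro X
      have hcont : Continuous (fun t : ℝ => ‖adL hG (eL (t • X)) ⟨W, hW⟩‖) := by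
        have h4 : Continuous (fun t : ℝ => (t • X : lieA G hG)) := by fun_prop
        exact ((adL_cont_left hG ⟨W, hW⟩).comp ((eL_cont (hG := hG)).comp h4)).norm
      have h5 := hcont.tendsto 0
      have h6 : adL hG (eL ((0 : ℝ) • X)) ⟨W, hW⟩ = ⟨W, hW⟩ := by
        rw [zero_smul, eL_zero, adL_one]
        rfl
      rw [h6] at h5
      filter_upwards [h5.eventually (gt_mem_nhds (show ‖(⟨W, hW⟩ : lieA G hG)‖ < ε from hWε))]
        with t ht
      have h7 : eL (adL hG (eL (t • X)) ⟨W, hW⟩) = eL (⟨W, hW⟩ : lieA G hG) := by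
        rw [← eL_conj, ← h3]
        have h8 : Commute (z ^ n) (eL (t • X)) := (hzc _).pow_left n
        rw [← h8.eq, mul_inv_cancel_right]
      exact Subtype.ext (hinj _ _ ht hWε (congrArg Subtype.val h7))
    refine ⟨n, hn, ?_⟩
    rw [h3, hW0, eL_zero]
    exact Γ.one_mem
  · -- the noncompact case
    by_contra hcon
    push Not at hcon
    obtain ⟨Y, hY0, hYΓ, hYb⟩ := fixed_dir hG hΓ hz hcon
    apply hY0
    obtain ⟨X, hXb, hX⟩ := exists_unbdd hG hub
    -- the kernel of the action on the elements with bounded orbits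
    let N : Subgroup G :=
      { carrier := {g | ∀ Z ∈ bddS hG, adL hG g Z = Z}
        mul_mem' := by
          intro a b ha hb Z hZ
          rw [adL_mul, Module.End.mul_apply, hb Z hZ, ha Z hZ]
        one_mem' := by
          intro Z _
          rw [adL_one]
          rfl
        inv_mem' := by
          intro a ha Z hZ
          have h1 : adL hG a⁻¹ (adL hG a Z) = Z := by
            rw [← Module.End.mul_apply, ← adL_mul, inv_mul_cancel, adL_one]
            rfl
          rwa [ha Z hZ] at h1 }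
    have hNn : N.Normal := by
      refine ⟨fun x hx g Z hZ => ?_⟩
      rw [mul_assoc, adL_mul, adL_mul, Module.End.mul_apply, Module.End.mul_apply,
        hx _ (bddS_adL hG hZ _), ← Module.End.mul_apply, ← adL_mul, mul_inv_cancel, adL_one]
      rfl
    have hNc : IsClosed (N : Set G) := by
      have e : (N : Set G) = ⋂ Z ∈ bddS hG, {g | adL hG g Z = Z} := by
        ext g
        simp only [mem_iInter]
        exact Iff.rfl
      rw [e]
      exact isClosed_biInter fun Z _ => isClosed_eq (adL_cont_left hG Z) continuous_const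
    have hd := hirr N hNn hNc ⟨X, fun t => ⟨eL (t • X), fun Z hZ => ?_, rfl⟩, hXb⟩
    · have hall : ∀ g : G, adL hG g Y = Y := by
        have h1 : IsClosed {g : G | adL hG g Y = Y} :=
          isClosed_eq (adL_cont_left hG Y) continuous_const
        have h2 : {x : G | ∃ g ∈ N, ∃ γ ∈ Γ, x = g * γ} ⊆ {g : G | adL hG g Y = Y} := by
          rintro x ⟨g, hg, γ, hγ, rfl⟩
          show adL hG (g * γ) Y = Y
          rw [adL_mul, Module.End.mul_apply, hYΓ γ hγ]
          exact hg Y hYb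
        intro g
        have h3 := h1.closure_subset_iff.2 h2
        rw [hd.closure_eq] at h3
        exact h3 (mem_univ g)
      exact eq_zero_of_fix hG fun X => Eventually.of_forall fun t => hall _
    · have h1 := adL_eL_scale hG (V := t • X) (E := Z) (ε := 0) (by
        rw [smul_lie, hX Z hZ, smul_zero, zero_smul])
      rw [Real.exp_zero, one_smul] at h1
      exact h1

end Pool.Agent.T6.H27.CL
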