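import Pool.Agent.T6.H27.CL.Ell

/-!
# Approximation of elliptic elements by elements of finite order modulo the centre
-/

set_option autoImplicit false
set_option linter.unusedSectionVars false

open Filter Set Topology NormedSpace LieAlgebra

namespace Pool.Agent.T6.H27.CL

attribute [local instance 100] LieRing.ofAssociativeRing

section Aut

/-- endomorphisms -/
abbrev EndC (L : Type*) [NormedAddCommGroup L] [NormedSpace ℝ L] := L →L[ℝ] L

/-- bilinear maps -/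
abbrev BilC (L : Type*) [NormedAddCommGroup L] [NormedSpace ℝ L] := L →L[ℝ] L →L[ℝ] L

variable {L : Type*} [NormedAddCommGroup L] [NormedSpace ℝ L] [FiniteDimensional ℝ L]

/-- linear maps are continuous -/
noncomputable def toEnd (f : L →ₗ[ℝ] L) : EndC L := LinearMap.toContinuousLinearMap f

theorem toEnd_apply (f : L →ₗ[ℝ] L) (x : L) : toEnd f x = f x := rfl

/-- bilinear maps are continuous -/
noncomputable def toBil (β : L →ₗ[ℝ] L →ₗ[ℝ] L) : BilC L :=
  LinearMap.toContinuousLinearMap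
    ((LinearMap.toContinuousLinearMap : (L →ₗ[ℝ] L) ≃ₗ[ℝ] _).toLinearMap ∘ₗ β)

theorem toBil_apply (β : L →ₗ[ℝ] L →ₗ[ℝ] L) (x y : L) : toBil β x y = β x y := rfl

/-- The automorphisms of a bilinear map. -/
def autG (β : BilC L) : Subgroup (EndC L)ˣ where
  carrier := {u | ∀ x y, (u : EndC L) (β x y) = β ((u : EndC L) x) ((u : EndC L) y)}
  mul_mem' := by
    intro a b ha hb x y
    show (a : EndC L) ((b : EndC L) (β x y)) =
      β ((a : EndC L) ((b : EndC L) x)) ((a : EndC L) ((b : EndC L) y))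
    rw [hb, ha]
  one_mem' := fun x y => rfl
  inv_mem' := by
    intro a ha x y
    have h1 : ∀ x, ((a⁻¹ : (EndC L)ˣ) : EndC L) ((a : EndC L) x) = x := by
      intro x
      have := congrArg (fun f : EndC L => f x) (Units.inv_mul a)
      exact this
    have h2 : ∀ x, (a : EndC L) (((a⁻¹ : (EndC L)ˣ) : EndC L) x) = x := by
      intro x
      have := congrArg (fun f : EndC L => f x) (Units.mul_inv a)
      exact this
    have h3 := ha (((a⁻¹ : (EndC L)ˣ) : EndC L) x) (((a⁻¹ : (EndC L)ˣ) : EndC L) y)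
    rw [h2, h2] at h3
    rw [← h3, h1]

theorem autG_closed (β : BilC L) : IsClosed (autG β : Set (EndC L)ˣ) := by
  have e : (autG β : Set (EndC L)ˣ) = ⋂ (x : L) (y : L),
      {u : (EndC L)ˣ | (u : EndC L) (β x y) = β ((u : EndC L) x) ((u : EndC L) y)} := by
    ext u
    simp only [mem_iInter]
    exact Iff.rfl
  rw [e]
  refine isClosed_iInter fun x => isClosed_iInter fun y => ?_
  have hv : Continuous (fun u : (EndC L)ˣ => (u : EndC L)) := Units.continuous_val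
  refine isClosed_eq (hv.clm_apply continuous_const) ?_
  exact (β.continuous.comp (hv.clm_apply continuous_const)).clm_apply
    (hv.clm_apply continuous_const)

theorem autG_der {β : BilC L} {D : EndC L} (hD : D ∈ lieSet (autG β)) (x y : L) :
    D (β x y) = β (D x) y + β x (D y) := by
  have h1 : HasDerivAt (fun t : ℝ => exp (t • D)) D 0 := by
    have h2 := hasDerivAt_exp_smul_const (𝕂 := ℝ) D 0
    rwa [zero_smul, exp_zero, one_mul] at h2
  have h2 : ∀ z : L, HasDerivAt (fun t : ℝ => exp (t • D) z) (D z) 0 := by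
    intro z
    have h3 := h1.clm_apply (hasDerivAt_const (0 : ℝ) z)
    simpa using h3
  have h3 : HasDerivAt (fun t : ℝ => β (exp (t • D) x) (exp (t • D) y))
      (β (D x) y + β x (D y)) 0 := by
    have h4 : HasDerivAt (fun t : ℝ => β (exp (t • D) x)) (β (D x)) 0 :=
      β.hasFDerivAt.comp_hasDerivAt (0 : ℝ) (h2 x)
    have h5 := h4.clm_apply (h2 y)
    simpa using h5
  have h4 : (fun t : ℝ => β (exp (t • D) x) (exp (t • D) y)) = fun t : ℝ => exp (t • D) (β x y) := by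
    funext t
    exact (hD t x y).symm
  rw [h4] at h3
  exact (h2 (β x y)).unique h3

theorem autG_log (β : BilC L) {ε : ℝ} (hε : 0 < ε) : ∃ δ : ℝ, 0 < δ ∧
    ∀ u ∈ autG β, ‖(u : EndC L) - 1‖ < δ → ∃ D : EndC L, ‖D‖ < ε ∧
      (∀ x y, D (β x y) = β (D x) y + β x (D y)) ∧ u = eu D := by
  obtain ⟨U, hU, hU2⟩ := exp_cover (autG_closed β) hε
  have h1 : 𝓝 (1 : (EndC L)ˣ) = comap Units.val (𝓝 ((1 : (EndC L)ˣ) : EndC L)) :=
    Units.isOpenEmbedding_val.isInducing.nhds_eq_comap 1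
  rw [h1] at hU
  obtain ⟨V, hV, hVU⟩ := hU
  rw [Units.val_one] at hV
  obtain ⟨δ, hδ, hδV⟩ := Metric.mem_nhds_iff.1 hV
  refine ⟨δ, hδ, fun u hu hu1 => ?_⟩
  obtain ⟨D, hD, hDε, hDu⟩ := hU2 u (hVU (hδV (by rwa [Metric.mem_ball, dist_eq_norm]))) hu
  exact ⟨D, hDε, autG_der hD, hDu⟩

theorem exp_curve (D : EndC L) (x : L) (t : ℝ) :
    HasDerivAt (fun t : ℝ => exp (t • D) x) (D (exp (t • D) x)) t := by
  have h2 := (hasDerivAt_exp_smul_const' (𝕂 := ℝ) D t).clm_apply (hasDerivAt_const t x)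
  simpa using h2

/-- Powers of an automorphism which are close to the identity are exponentials of inner derivations
fixed by the automorphism. -/
theorem ell_abs (β : BilC L) (hder : ∀ D : EndC L, (∀ x y, D (β x y) = β (D x) y + β x (D y)) →
      ∃ V, β V = D) (hin : ∀ V, β V = 0 → V = 0) (T : (EndC L)ˣ) (hT : T ∈ autG β)
    (hrec : ∀ δ : ℝ, 0 < δ → ∃ k : ℕ, 1 ≤ k ∧ ‖((T ^ k : (EndC L)ˣ) : EndC L) - 1‖ < δ)
    {ε₂ : ℝ} (hε₂ : 0 < ε₂) : ∃ k : ℕ, 1 ≤ k ∧ ∃ V : L, ‖V‖ < ε₂ ∧ (T : EndC L) V = V ∧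
      ((T ^ k : (EndC L)ˣ) : EndC L) = exp (β V) := by
  obtain ⟨ε₁, hε₁, hinj⟩ := eu_inj (B := EndC L)
  obtain ⟨K, hK, hKb⟩ : ∃ K : ℝ, 0 < K ∧ ∀ X : L, ‖X‖ ≤ K * ‖β X‖ := by
    have hker : LinearMap.ker β.toLinearMap = ⊥ := by
      rw [LinearMap.ker_eq_bot']
      intro X hX
      exact hin X hX
    obtain ⟨K, hK, hKa⟩ := β.toLinearMap.exists_antilipschitzWith hker
    refine ⟨K, by exact_mod_cast hK, fun X => ?_⟩
    have h1 := hKa.le_mul_dist X 0
    rw [dist_zero_right, map_zero, dist_zero_right] at h1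
    exact h1
  obtain ⟨M, hM, hMb⟩ : ∃ M : ℝ, 1 ≤ M ∧ ∀ D : EndC L, ‖Ad T D‖ ≤ M * ‖D‖ := by
    refine ⟨max 1 ‖Ad T‖, le_max_left _ _, fun D => ?_⟩
    refine (ContinuousLinearMap.le_opNorm _ _).trans ?_
    gcongr
    exact le_max_right _ _
  obtain ⟨ε, hε, hε1, hε2⟩ : ∃ ε : ℝ, 0 < ε ∧ M * ε ≤ ε₁ ∧ K * ε ≤ ε₂ := by
    have hM0 : 0 < M := by linarith
    refine ⟨min (ε₁ / M) (ε₂ / K), by positivity, ?_, ?_⟩
    · calc M * min (ε₁ / M) (ε₂ / K) ≤ M * (ε₁ / M) := by gcongr; exact min_le_left _ _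
        _ = ε₁ := by field_simp
    · calc K * min (ε₁ / M) (ε₂ / K) ≤ K * (ε₂ / K) := by gcongr; exact min_le_right _ _
        _ = ε₂ := by field_simp
  obtain ⟨δ, hδ, hlog⟩ := autG_log β hε
  obtain ⟨k, hk, hkδ⟩ := hrec δ hδ
  obtain ⟨D, hDε, hDder, hDu⟩ := hlog (T ^ k) ((autG β).pow_mem hT k) hkδ
  obtain ⟨V, hVD⟩ := hder D hDder
  refine ⟨k, hk, V, ?_, ?_, ?_⟩
  · refine (hKb V).trans_lt ?_
    rw [hVD]
    calc K * ‖D‖ < K * ε := by gcongr
      _ ≤ ε₂ := hε2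
  · have h1 : Ad T D = D := by
      apply hinj
      · refine (hMb D).trans_lt ?_
        calc M * ‖D‖ < M * ε := by
              have : 0 < M := by linarith
              gcongr
          _ ≤ ε₁ := hε1
      · refine hDε.trans_le ?_
        calc ε = 1 * ε := (one_mul _).symm
          _ ≤ M * ε := by gcongr
          _ ≤ ε₁ := hε1
      · rw [← eu_conj', ← hDu, ← pow_succ', pow_succ, mul_inv_cancel_right]
    have h2 : (T : EndC L) * D = D * (T : EndC L) := by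
      have h3 : (T : EndC L) * D * ((T⁻¹ : (EndC L)ˣ) : EndC L) = D := h1
      conv_rhs => rw [← h3]
      rw [mul_assoc, mul_assoc, Units.inv_mul, mul_one]
    have h4 : ∀ X : L, (T : EndC L) (D X) = D ((T : EndC L) X) := fun X =>
      congrArg (fun f : EndC L => f X) h2
    rw [← sub_eq_zero]
    apply hin
    ext X
    obtain ⟨Y, rfl⟩ : ∃ Y, (T : EndC L) Y = X := by
      refine ⟨((T⁻¹ : (EndC L)ˣ) : EndC L) X, ?_⟩
      have := congrArg (fun f : EndC L => f X) (Units.mul_inv T)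
      exact this
    rw [map_sub, ContinuousLinearMap.sub_apply, ← hT, hVD, h4, sub_self]
    rfl
  · rw [hVD]
    exact congrArg Units.val hDu

end Aut

variable {A : Type*} [NormedRing A] [NormedAlgebra ℝ A] [CompleteSpace A] [FiniteDimensional ℝ A]
variable {G : Subgroup Aˣ} {hG : IsClosed (G : Set Aˣ)}

/-- the bracket, as a continuous bilinear map -/
noncomputable def brk (hG : IsClosed (G : Set Aˣ)) : BilC (lieA G hG) :=
  toBil (ad ℝ (lieA G hG)).toLinearMap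

theorem brk_apply (X Y : lieA G hG) : brk hG X Y = ⁅X, Y⁆ := rfl

/-- `Ad h`, as a unit -/
noncomputable def adU (hG : IsClosed (G : Set Aˣ)) (h : G) : (EndC (lieA G hG))ˣ where
  val := toEnd (adL hG h)
  inv := toEnd (adL hG h⁻¹)
  val_inv := by
    ext X
    have h1 : adL hG h (adL hG h⁻¹ X) = X := by
      rw [← Module.End.mul_apply, ← adL_mul, mul_inv_cancel, adL_one]
      rfl
    exact congrArg _ h1
  inv_val := by
    ext X
    have h1 : adL hG h⁻¹ (adL hG h X) = X := by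
      rw [← Module.End.mul_apply, ← adL_mul, inv_mul_cancel, adL_one]
      rfl
    exact congrArg _ h1

theorem adU_apply (h : G) (X : lieA G hG) :
    ((adU hG h : (EndC (lieA G hG))ˣ) : EndC (lieA G hG)) X = adL hG h X := rfl

theorem adU_mem (h : G) : adU hG h ∈ autG (brk hG) := fun X Y => adL_lie hG h X Y

theorem adU_mul (g h : G) : adU hG (g * h) = adU hG g * adU hG h := by
  apply Units.ext
  ext X
  have h1 : adL hG (g * h) X = adL hG g (adL hG h X) := by rw [adL_mul]; rfl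
  exact congrArg _ h1

theorem adU_one : adU hG (1 : G) = 1 := by
  apply Units.ext
  ext X
  have h1 : adL hG (1 : G) X = X := by rw [adL_one]; rfl
  exact congrArg _ h1

theorem adU_pow (h : G) (k : ℕ) : adU hG (h ^ k) = adU hG h ^ k := by
  induction k with
  | zero => rw [pow_zero, pow_zero, adU_one]
  | succ k ih => rw [pow_succ, adU_mul, ih, pow_succ]

theorem adL_eL_exp (V X : lieA G hG) : adL hG (eL V) X = (exp (brk hG V) : EndC (lieA G hG)) X := by
  have h1 := adL_eL_curve hG (V := V) (fun t => (exp (t • brk hG V) : EndC (lieA G hG)) X)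
    (fun t => exp_curve (brk hG V) X t)
  simpa using h1

namespace Coord

variable {h : G} {n : ℕ} {lam : Fin n → ℂ} {Φ : Fin n → lieA G hG →ₗ[ℝ] ℂ}
  {Ψ : Fin n → ℂ →ₗ[ℝ] lieA G hG} (C : Coord hG h n lam Φ Ψ)
include C

theorem pow_small : ∃ D : ℝ, ∀ (k : ℕ) (δ : ℝ), 0 ≤ δ → (∀ i, ‖lam i ^ k - 1‖ ≤ δ) →
    ‖((adU hG (h ^ k) : (EndC (lieA G hG))ˣ) : EndC (lieA G hG)) - 1‖ ≤ D * δ := by
  have h1 : ∀ i, ∃ a : ℝ, 0 ≤ a ∧ ∀ X, ‖Φ i X‖ ≤ a * ‖X‖ := by
    intro i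
    obtain ⟨a, ha, hb⟩ := (LinearMap.toContinuousLinearMap (Φ i)).bound
    exact ⟨a, ha.le, hb⟩
  have h2 : ∀ i, ∃ a : ℝ, 0 ≤ a ∧ ∀ c, ‖Ψ i c‖ ≤ a * ‖c‖ := by
    intro i
    obtain ⟨a, ha, hb⟩ := (LinearMap.toContinuousLinearMap (Ψ i)).bound
    exact ⟨a, ha.le, hb⟩
  choose a ha0 ha using h1
  choose b hb0 hb using h2
  refine ⟨∑ i, b i * a i, fun k δ hδ hk => ?_⟩
  refine ContinuousLinearMap.opNorm_le_bound _
    (mul_nonneg (Finset.sum_nonneg fun i _ => mul_nonneg (hb0 i) (ha0 i)) hδ) fun X => ?_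
  have h3 : (((adU hG (h ^ k) : (EndC (lieA G hG))ˣ) : EndC (lieA G hG)) - 1) X =
      ∑ i, Ψ i ((lam i ^ k - 1) * Φ i X) := by
    have h4 : (((adU hG (h ^ k) : (EndC (lieA G hG))ˣ) : EndC (lieA G hG)) - 1) X =
        (adL hG h ^ k) X - X := by
      rw [← adL_pow]
      rfl
    rw [h4, ← C.sum ((adL hG h ^ k) X - X)]
    refine Finset.sum_congr rfl fun i _ => ?_
    rw [map_sub, C.phi_pow, sub_mul, one_mul]
  rw [h3]
  calc ‖∑ i, Ψ i ((lam i ^ k - 1) * Φ i X)‖ ≤ ∑ i, ‖Ψ i ((lam i ^ k - 1) * Φ i X)‖ :=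
        norm_sum_le _ _
    _ ≤ ∑ i, b i * a i * δ * ‖X‖ := by
        refine Finset.sum_le_sum fun i _ => ?_
        calc ‖Ψ i ((lam i ^ k - 1) * Φ i X)‖ ≤ b i * ‖(lam i ^ k - 1) * Φ i X‖ := hb i _
          _ = b i * (‖lam i ^ k - 1‖ * ‖Φ i X‖) := by rw [norm_mul]
          _ ≤ b i * (δ * (a i * ‖X‖)) := by
              have := hb0 i
              have := hk i
              have := ha i X
              gcongr
          _ = b i * a i * δ * ‖X‖ := by ring
    _ = _ := by rw [← Finset.sum_mul, ← Finset.sum_mul]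

/-- The powers of an elliptic element come close to the identity. -/
theorem ell_rec (hlam : ∀ i, ‖lam i‖ = 1) {δ : ℝ} (hδ : 0 < δ) : ∃ k : ℕ, 1 ≤ k ∧
    ‖((adU hG h ^ k : (EndC (lieA G hG))ˣ) : EndC (lieA G hG)) - 1‖ < δ := by
  obtain ⟨Db, hDb⟩ := C.pow_small
  obtain ⟨δ', hδ', hδδ'⟩ : ∃ δ' : ℝ, 0 < δ' ∧ Db * δ' < δ := by
    refine ⟨δ / (2 * (|Db| + 1)), by positivity, ?_⟩
    have h1 : Db * (δ / (2 * (|Db| + 1))) ≤ (|Db| + 1) * (δ / (2 * (|Db| + 1))) := by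
      gcongr
      linarith [le_abs_self Db]
    have h2 : (|Db| + 1) * (δ / (2 * (|Db| + 1))) = δ / 2 := by field_simp
    linarith
  -- a recurrence in the torus
  have hκ : ∀ i, ∃ z : Circle, (z : ℂ) = lam i := fun i =>
    ⟨⟨lam i, mem_sphere_zero_iff_norm.2 (hlam i)⟩, rfl⟩
  choose κ hκ using hκ
  have hV : {z : Fin n → Circle | ∀ i, ‖((z i : Circle) : ℂ) - 1‖ < δ'} ∈ 𝓝 (1 : Fin n → Circle) := by
    have h1 : ∀ i, ∀ᶠ z : Fin n → Circle in 𝓝 1, ‖((z i : Circle) : ℂ) - 1‖ < δ' := by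
      intro i
      have hc : Continuous (fun z : Fin n → Circle => ‖((z i : Circle) : ℂ) - 1‖) :=
        ((circle_cont.comp (continuous_apply i)).sub continuous_const).norm
      have h2 := hc.tendsto 1
      have h3 : ‖(((1 : Fin n → Circle) i : Circle) : ℂ) - 1‖ = 0 := by simp
      rw [h3] at h2
      exact h2.eventually (gt_mem_nhds hδ')
    exact Filter.eventually_all.2 h1
  obtain ⟨k, hk, hkV⟩ := pow_recur κ hV
  have hk1 : ∀ i, ‖lam i ^ k - 1‖ ≤ δ' := by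
    intro i
    have h1 := hkV i
    have h2 : (((κ ^ k) i : Circle) : ℂ) = lam i ^ k := by simp [hκ]
    rw [h2] at h1
    exact h1.le
  refine ⟨k, hk, ?_⟩
  rw [← adU_pow]
  exact (hDb k δ' hδ'.le hk1).trans_lt hδδ'

/-- **Elliptic elements.** -/
theorem ell_near [IsKilling ℝ (lieA G hG)] (hlam : ∀ i, ‖lam i‖ = 1) {U : Set G} (hU : U ∈ 𝓝 h) :
    ∃ h' ∈ U, ∃ k : ℕ, 1 ≤ k ∧ adL hG (h' ^ k) = 1 := by
  obtain ⟨ε₂, hε₂, hε₂U⟩ : ∃ ε : ℝ, 0 < ε ∧ ∀ X : lieA G hG, ‖X‖ < ε → h * eL X ∈ U := by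
    have hc : Continuous (fun X : lieA G hG => h * eL X) := continuous_const.mul (eL_cont (hG := hG))
    have h1 : (fun X : lieA G hG => h * eL X) ⁻¹' U ∈ 𝓝 (0 : lieA G hG) := by
      apply hc.continuousAt.preimage_mem_nhds
      rw [eL_zero, mul_one]
      exact hU
    obtain ⟨ε, hε, hεU⟩ := Metric.mem_nhds_iff.1 h1
    exact ⟨ε, hε, fun X hX => hεU (by rwa [mem_ball_zero_iff])⟩
  obtain ⟨k, hk, V, hVn, hfix, hV⟩ := ell_abs (brk hG) (fun D hD => by
      obtain ⟨V, hV⟩ := der_inner (L := lieA G hG) (D : lieA G hG →ₗ[ℝ] lieA G hG) hD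
      refine ⟨V, ?_⟩
      ext X
      have h1 : ⁅V, X⁆ = D X := LinearMap.congr_fun hV X
      exact congrArg _ h1) (fun V hV => by
      apply eq_zero_of_ad
      intro Y
      rw [← brk_apply, hV]
      rfl) (adU hG h) (adU_mem h) (fun δ hδ => C.ell_rec hlam hδ) hε₂
  have hfix' : adL hG h V = V := hfix
  have hk0 : (0 : ℝ) < k := by exact_mod_cast hk
  obtain ⟨W, hW⟩ : ∃ W : lieA G hG, W = -((k : ℝ)⁻¹ • V) := ⟨_, rfl⟩
  have hWn : ‖W‖ < ε₂ := by
    rw [hW, norm_neg, norm_smul, norm_inv, Real.norm_of_nonneg hk0.le]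
    refine lt_of_le_of_lt ?_ hVn
    calc (k : ℝ)⁻¹ * ‖V‖ ≤ 1 * ‖V‖ := by
          gcongr
          exact inv_le_one_of_one_le₀ (by exact_mod_cast hk)
      _ = ‖V‖ := one_mul _
  refine ⟨h * eL W, hε₂U W hWn, k, hk, ?_⟩
  have hcomm : Commute h (eL W) := eL_comm hG (by rw [hW, map_neg, map_smul, hfix'])
  have hWk : eL W ^ k = eL (-V) := by
    apply Subtype.ext
    have h1 : ((eL W ^ k : G) : Aˣ) = eu (W : A) ^ k := rfl
    rw [h1, ← eu_nsmul, eL_val]
    congr 1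
    have h2 : k • W = -V := by
      rw [hW, ← Nat.cast_smul_eq_nsmul ℝ, smul_neg, smul_smul, mul_inv_cancel₀ hk0.ne', one_smul]
    have h3 := congrArg (fun X : lieA G hG => (X : A)) h2
    exact h3
  rw [hcomm.mul_pow, hWk]
  apply LinearMap.ext
  intro X
  rw [adL_mul, Module.End.mul_apply, adL_eL_exp]
  have h1 : ∀ Y : lieA G hG, adL hG (h ^ k) Y = (exp (brk hG V) : EndC (lieA G hG)) Y := by
    intro Y
    rw [← hV, ← adU_pow]
    rfl
  rw [h1, map_neg]
  have h2 : ((exp (brk hG V) : EndC (lieA G hG)) * exp (-(brk hG V))) X = X := by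
    rw [exp_mul_exp_neg]
    rfl
  exact h2

end Coord

/-- **Closing of all elements.** -/
theorem gcl_all [ConnectedSpace G] [IsKilling ℝ (lieA G hG)]
    (hc : CompactSpace G ∨ ∃ X ∈ lieSet G, ¬ Bdd G X) {Γ : Subgroup G}
    (hΓ : IsLat Γ) (hirr : Irr Γ) (h : G) : GCl Γ h := by
  -- elements with a power in the centre
  have key1 : ∀ h : G, (∃ k : ℕ, 1 ≤ k ∧ adL hG (h ^ k) = 1) → GCl Γ h := by
    rintro h ⟨k, hk, hk1⟩ U hU
    obtain ⟨l, hl, hlΓ⟩ := cent_pow hG hc hΓ hirr hk1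
    refine ⟨1, mem_of_mem_nhds hU, 1, mem_of_mem_nhds hU, k * l, Nat.mul_pos hk hl, _, hlΓ, ?_⟩
    rw [mul_one, mul_one, one_mul, pow_mul]
  have key2 : ∀ h : G, (adL hG h).IsSemisimple → GCl Γ h := by
    intro h hss
    obtain ⟨n, lam, Φ, Ψ, h1, h2, h3, h4⟩ := exists_diag hss
    have C : Coord hG h n lam Φ Ψ := ⟨h1, h2, h3, h4⟩
    by_cases hell : ∀ i, ‖lam i‖ = 1
    · apply gcl_closure
      rw [mem_closure_iff_nhds]
      intro U hU
      obtain ⟨h', hh', hk⟩ := C.ell_near hell hU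
      exact ⟨h', hh', key1 h' hk⟩
    · push Not at hell
      obtain ⟨i, hi⟩ := hell
      exact C.gcl_hyp hΓ hirr hi
  apply gcl_closure
  rw [mem_closure_iff_nhds]
  intro U hU
  obtain ⟨h', hh', hss⟩ := ss_dense hG h hU
  exact ⟨h', hh', key2 h' hss⟩

end Pool.Agent.T6.H27.CL
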