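import Mathlib

/-!
# Recurrence and topological transitivity of translations of `G / Γ`

`G` is a second countable locally compact group and `Γ` a discrete cocompact subgroup.
-/

set_option autoImplicit false
set_option linter.unusedSectionVars false

open Filter Set Topology MeasureTheory
open scoped NNReal ENNReal

namespace Pool.Agent.T6.H27.CL

variable {G : Type*} [Group G] [TopologicalSpace G] [IsTopologicalGroup G]

/-- `Γ` is discrete and cocompact -/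
structure IsLat (Γ : Subgroup G) : Prop where
  disc : ∃ W ∈ 𝓝 (1 : G), ∀ g ∈ W, g ∈ Γ → g = 1
  coc : ∃ K : Set G, IsCompact K ∧ ∀ g, ∃ k ∈ K, k⁻¹ * g ∈ Γ

theorem countable_of_discrete [SecondCountableTopology G] (Γ : Subgroup G) (W : Set G)
    (hW : W ∈ 𝓝 (1 : G)) (hWΓ : ∀ g ∈ W, g ∈ Γ → g = 1) : Countable Γ := by
  have hd : DiscreteTopology Γ := by
    apply discreteTopology_of_isOpen_singleton_one
    have e : ({1} : Set Γ) = (fun g : Γ => (g : G)) ⁻¹' (interior W) := by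
      ext g
      rw [mem_singleton_iff, mem_preimage]
      constructor
      · intro h1
        rw [h1]
        exact mem_interior_iff_mem_nhds.2 hW
      · intro h1
        exact Subtype.ext (hWΓ _ (interior_subset h1) g.2)
    rw [e]
    exact isOpen_interior.preimage continuous_subtype_val
  exact TopologicalSpace.separableSpace_iff_countable.1 inferInstance

section Haar

variable [LocallyCompactSpace G] [SecondCountableTopology G] [T2Space G]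

theorem recur_aux [MeasurableSpace G] [BorelSpace G] (μ : Measure G) [μ.IsHaarMeasure]
    (Γ : Subgroup G) (W : Set G) (hW : W ∈ 𝓝 (1 : G))
    (hWΓ : ∀ g ∈ W, g ∈ Γ → g = 1) (K : Set G) (hK : IsCompact K)
    (hKΓ : ∀ g, ∃ k ∈ K, k⁻¹ * g ∈ Γ) (h : G)
    (hsc : ∀ (n : ℕ) (B : Set G), IsOpen B → μ B ≤ μ {x | x * h ^ n ∈ B})
    (B : Set G) (hB : B ∈ 𝓝 (1 : G)) :
    ∃ n : ℕ, 1 ≤ n ∧ ∃ b ∈ B, ∃ b' ∈ B, ∃ γ ∈ Γ, h ^ n * b = b' * γ := by
  have hcount := countable_of_discrete Γ W hW hWΓ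
  obtain ⟨B₁, hB₁o, hB₁1, hB₁B, hB₁W⟩ : ∃ B₁ : Set G, IsOpen B₁ ∧ (1 : G) ∈ B₁ ∧
      (∀ b ∈ B₁, b⁻¹ ∈ B) ∧ ∀ b ∈ B₁, ∀ b' ∈ B₁, b' * b⁻¹ ∈ W := by
    have hc : Continuous (fun p : G × G => p.2 * p.1⁻¹) := by fun_prop
    have h1 : (fun p : G × G => p.2 * p.1⁻¹) ⁻¹' W ∈ 𝓝 ((1 : G), (1 : G)) := by
      apply hc.continuousAt.preimage_mem_nhds
      simpa using hW
    rw [nhds_prod_eq] at h1
    obtain ⟨u, hu, hu2⟩ := Filter.mem_prod_same_iff.1 h1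
    have h2 : (fun b : G => b⁻¹) ⁻¹' B ∈ 𝓝 (1 : G) := by
      apply (continuous_inv (G := G)).continuousAt.preimage_mem_nhds
      simpa using hB
    obtain ⟨V, hV, hVo, hV1⟩ := mem_nhds_iff.1 (inter_mem hu h2)
    refine ⟨V, hVo, hV1, fun x hx => (hV hx).2, fun b hb b' hb' => ?_⟩
    exact hu2 (mk_mem_prod (hV hb).1 (hV hb').1)
  obtain ⟨K', hK'd⟩ : ∃ K' : Set G, K' = (fun k : G => k⁻¹) '' K := ⟨_, rfl⟩
  have hK' : IsCompact K' := by
    rw [hK'd]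
    exact hK.image continuous_inv
  have hK'm : MeasurableSet K' := hK'.isClosed.measurableSet
  let S : ℕ × Γ → Set G := fun p => {k | (p.2 : G) * k * h ^ p.1 ∈ B₁}
  have hSo : ∀ p, IsOpen (S p) := by
    intro p
    have hc : Continuous (fun k : G => (p.2 : G) * k * h ^ p.1) := by fun_prop
    exact hB₁o.preimage hc
  have hrow : ∀ n : ℕ, μ B₁ ≤ ∑' γ : Γ, (μ.restrict K') (S (n, γ)) := by
    intro n
    refine (hsc n B₁ hB₁o).trans ?_
    have hcov : {x | x * h ^ n ∈ B₁} ⊆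
        ⋃ γ : Γ, {x | (γ : G)⁻¹ * x ∈ S (n, γ) ∩ K'} := by
      intro x hx
      obtain ⟨k, hk, hkγ⟩ := hKΓ x⁻¹
      rw [mem_iUnion]
      refine ⟨⟨(k⁻¹ * x⁻¹)⁻¹, Γ.inv_mem hkγ⟩, ?_, ?_⟩
      · show (k⁻¹ * x⁻¹)⁻¹ * (((k⁻¹ * x⁻¹)⁻¹)⁻¹ * x) * h ^ n ∈ B₁
        have e2 : (k⁻¹ * x⁻¹)⁻¹ * (((k⁻¹ * x⁻¹)⁻¹)⁻¹ * x) * h ^ n = x * h ^ n := by group
        rw [e2]
        exact hx
      · show ((k⁻¹ * x⁻¹)⁻¹)⁻¹ * x ∈ K'
        have e2 : ((k⁻¹ * x⁻¹)⁻¹)⁻¹ * x = k⁻¹ := by group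
        rw [e2, hK'd]
        exact ⟨k, hk, rfl⟩
    refine (measure_mono hcov).trans ((measure_iUnion_le _).trans ?_)
    refine ENNReal.tsum_le_tsum fun γ => ?_
    rw [Measure.restrict_apply (hSo _).measurableSet]
    have := measure_preimage_mul μ (γ : G)⁻¹ (S (n, γ) ∩ K')
    exact le_of_eq this
  have hbig : (μ.restrict K') univ < ∑' p : ℕ × Γ, (μ.restrict K') (S p) := by
    have h1 : ∑' p : ℕ × Γ, (μ.restrict K') (S p) = ⊤ := by
      rw [ENNReal.summable.tsum_prod' (fun _ => ENNReal.summable), eq_top_iff]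
      calc (⊤ : ENNReal) = ∑' _ : ℕ, μ B₁ :=
            (ENNReal.tsum_const_eq_top_of_ne_zero (hB₁o.measure_pos μ ⟨1, hB₁1⟩).ne').symm
        _ ≤ _ := ENNReal.tsum_le_tsum hrow
    rw [h1, Measure.restrict_apply_univ]
    exact hK'.measure_lt_top
  obtain ⟨p, p', hne, X, hX, hX'⟩ := exists_nonempty_inter_of_measure_univ_lt_tsum_measure
    (μ.restrict K') (fun p => (hSo p).measurableSet.nullMeasurableSet) hbig
  have b1 : (p.2 : G) * X * h ^ p.1 ∈ B₁ := hX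
  have b2 : (p'.2 : G) * X * h ^ p'.1 ∈ B₁ := hX'
  have key : ∀ q q' : ℕ × Γ, q'.1 < q.1 → (q.2 : G) * X * h ^ q.1 ∈ B₁ →
      (q'.2 : G) * X * h ^ q'.1 ∈ B₁ →
      ∃ n : ℕ, 1 ≤ n ∧ ∃ b ∈ B, ∃ b' ∈ B, ∃ γ ∈ Γ, h ^ n * b = b' * γ := by
    intro q q' hlt c1 c2
    refine ⟨q.1 - q'.1, by omega, _, hB₁B _ c1, _, hB₁B _ c2, (q'.2 : G) * (q.2 : G)⁻¹,
      Γ.mul_mem q'.2.2 (Γ.inv_mem q.2.2), ?_⟩
    have e1 : h ^ q.1 = h ^ (q.1 - q'.1) * h ^ q'.1 := by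
      rw [← pow_add]
      congr 1
      omega
    rw [e1]
    have e2 : h ^ (q.1 - q'.1) * h ^ q'.1 = h ^ q'.1 * h ^ (q.1 - q'.1) := by
      rw [← pow_add, ← pow_add, add_comm]
    rw [e2]
    group
  rcases lt_trichotomy p.1 p'.1 with h1 | h1 | h1
  · exact key p' p h1 b2 b1
  · exfalso
    apply hne
    refine Prod.ext h1 ?_
    have h2 := hB₁W _ b1 _ b2
    rw [← h1] at h2
    have e2 : ((p'.2 : G) * X * h ^ p.1) * ((p.2 : G) * X * h ^ p.1)⁻¹ =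
        (p'.2 : G) * (p.2 : G)⁻¹ := by group
    rw [e2] at h2
    have h3 := hWΓ _ h2 (Γ.mul_mem p'.2.2 (Γ.inv_mem p.2.2))
    exact Subtype.ext (mul_inv_eq_one.1 h3).symm
  · exact key p p' h1 b1 b2

/-- Recurrence. -/
theorem recur (Γ : Subgroup G) (hΓ : IsLat Γ) (h : G) (B : Set G) (hB : B ∈ 𝓝 (1 : G)) :
    ∃ n : ℕ, 1 ≤ n ∧ ∃ b ∈ B, ∃ b' ∈ B, ∃ γ ∈ Γ, h ^ n * b = b' * γ := by
  letI : MeasurableSpace G := borel G
  haveI : BorelSpace G := ⟨rfl⟩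
  obtain ⟨⟨W, hW, hWΓ⟩, K, hK, hKΓ⟩ := hΓ
  obtain ⟨μ, hμ⟩ : ∃ μ : Measure G, μ = Measure.haar := ⟨_, rfl⟩
  haveI : μ.IsHaarMeasure := by rw [hμ]; infer_instance
  obtain ⟨c, hc⟩ : ∃ c : G → ℝ≥0, c = Measure.modularCharacterFun := ⟨_, rfl⟩
  have hmul : ∀ a b, c (a * b) = c a * c b := by
    intro a b
    rw [hc]
    exact Measure.modularCharacterFun_map_mul a b
  have hone : c 1 = 1 := by
    rw [hc]
    exact Measure.modularCharacterFun_map_one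
  have hpow : ∀ (g : G) (n : ℕ), c (g ^ n) = c g ^ n := by
    intro g n
    induction n with
    | zero => rw [pow_zero, pow_zero, hone]
    | succ n ih => rw [pow_succ, hmul, ih, pow_succ]
  have hmeas : ∀ (g : G) (B : Set G), IsOpen B → μ {x | x * g ∈ B} = (c g : ℝ≥0∞) * μ B := by
    intro g B hB
    have h1 : (μ.map (· * g)) = Measure.haarScalarFactor (μ.map (· * g)) μ • μ :=
      Measure.isMulLeftInvariant_eq_smul _ _
    have h2 : c g = Measure.haarScalarFactor (μ.map (· * g)) μ := by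
      rw [hc]
      exact Measure.modularCharacterFun_eq_haarScalarFactor μ g
    have h3 : (μ.map (· * g)) B = μ {x | x * g ∈ B} :=
      Measure.map_apply (by fun_prop) hB.measurableSet
    rw [← h3, h1, ← h2]
    rfl
  by_cases hh : 1 ≤ c h
  · refine recur_aux μ Γ W hW hWΓ K hK hKΓ h (fun n B hB => ?_) B hB
    rw [hmeas _ _ hB, hpow]
    have : (1 : ℝ≥0∞) ≤ ((c h ^ n : ℝ≥0) : ℝ≥0∞) := by
      exact_mod_cast one_le_pow_of_one_le' hh n
    calc μ B = 1 * μ B := (one_mul _).symm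
      _ ≤ _ := by gcongr
  · have hh' : 1 ≤ c h⁻¹ := by
      have h1 : c h * c h⁻¹ = 1 := by rw [← hmul, mul_inv_cancel, hone]
      push Not at hh
      by_contra h2
      push Not at h2
      have : c h * c h⁻¹ < 1 := mul_lt_one_of_nonneg_of_lt_one_left zero_le' hh h2.le
      rw [h1] at this
      exact lt_irrefl _ this
    obtain ⟨n, hn, b, hb, b', hb', γ, hγ, he⟩ := recur_aux μ Γ W hW hWΓ K hK hKΓ h⁻¹
      (fun n B hB => by
        rw [hmeas _ _ hB, hpow]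
        have : (1 : ℝ≥0∞) ≤ ((c h⁻¹ ^ n : ℝ≥0) : ℝ≥0∞) := by
          exact_mod_cast one_le_pow_of_one_le' hh' n
        calc μ B = 1 * μ B := (one_mul _).symm
          _ ≤ _ := by gcongr) B hB
    refine ⟨n, hn, b', hb', b, hb, γ⁻¹, Γ.inv_mem hγ, ?_⟩
    rw [inv_pow] at he
    have h1 : b = h ^ n * (b' * γ) := by
      rw [← he]
      group
    rw [h1]
    group

/-- Recurrence with large return times, at an arbitrary point. -/
theorem recur_at {Γ : Subgroup G} (hΓ : IsLat Γ) (x h : G) (n₀ : ℕ) (B : Set G)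
    (hB : B ∈ 𝓝 (1 : G)) :
    ∃ n : ℕ, n₀ ≤ n ∧ ∃ b ∈ B, ∃ b' ∈ B, ∃ γ ∈ Γ, h ^ n * (b * x) = b' * x * γ := by
  obtain ⟨⟨W, hW, hWΓ⟩, K, hK, hKΓ⟩ := hΓ
  let Γ' : Subgroup G :=
    { carrier := {g | x⁻¹ * g * x ∈ Γ}
      mul_mem' := by
        intro a b ha hb
        have h1 : x⁻¹ * (a * b) * x = (x⁻¹ * a * x) * (x⁻¹ * b * x) := by group
        show x⁻¹ * (a * b) * x ∈ Γ
        rw [h1]
        exact Γ.mul_mem ha hb
      one_mem' := by
        show x⁻¹ * 1 * x ∈ Γ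
        have h1 : x⁻¹ * 1 * x = 1 := by group
        rw [h1]
        exact Γ.one_mem
      inv_mem' := by
        intro a ha
        show x⁻¹ * a⁻¹ * x ∈ Γ
        have h1 : x⁻¹ * a⁻¹ * x = (x⁻¹ * a * x)⁻¹ := by group
        rw [h1]
        exact Γ.inv_mem ha }
  have hc1 : Continuous (fun g : G => x⁻¹ * g * x) := by fun_prop
  have hW' : (fun g : G => x⁻¹ * g * x) ⁻¹' W ∈ 𝓝 (1 : G) := by
    apply hc1.continuousAt.preimage_mem_nhds
    have : x⁻¹ * 1 * x = 1 := by group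
    rw [this]
    exact hW
  have hc2 : Continuous (fun g : G => g * x⁻¹) := by fun_prop
  have hΓ' : IsLat Γ' := by
    refine ⟨⟨_, hW', fun g hg hgΓ => ?_⟩, (fun g : G => g * x⁻¹) '' K, hK.image hc2, fun g => ?_⟩
    · have h1 : x⁻¹ * g * x = 1 := hWΓ _ hg hgΓ
      have h2 : g = x * (x⁻¹ * g * x) * x⁻¹ := by group
      rw [h2, h1]
      group
    · obtain ⟨k, hk, hkg⟩ := hKΓ (g * x)
      refine ⟨k * x⁻¹, ⟨k, hk, rfl⟩, ?_⟩
      show x⁻¹ * ((k * x⁻¹)⁻¹ * g) * x ∈ Γ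
      have h1 : x⁻¹ * ((k * x⁻¹)⁻¹ * g) * x = k⁻¹ * (g * x) := by group
      rw [h1]
      exact hkg
  obtain ⟨n, hn, b, hb, b', hb', γ, hγ, he⟩ := recur Γ' hΓ' (h ^ (n₀ + 1)) B hB
  refine ⟨(n₀ + 1) * n, ?_, b, hb, b', hb', x⁻¹ * γ * x, hγ, ?_⟩
  · calc n₀ ≤ (n₀ + 1) * 1 := by omega
      _ ≤ (n₀ + 1) * n := Nat.mul_le_mul_left _ hn
  · rw [pow_mul, ← mul_assoc, he]
    group

/-- The Mautner argument. -/
theorem maut {Γ : Subgroup G} (hΓ : IsLat Γ) {U : Set G} (hU : IsOpen U)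
    (hUΓ : ∀ x ∈ U, ∀ γ ∈ Γ, x * γ ∈ U) {S : G}
    (hS' : ∀ x, x ∈ U → S * x ∈ U) {g : G}
    (hg : Tendsto (fun n : ℕ => (S ^ n)⁻¹ * g * S ^ n) atTop (𝓝 1)) :
    ∀ x ∈ closure U, g * x ∈ closure U := by
  have hSn : ∀ (n : ℕ) (x : G), x ∈ U → S ^ n * x ∈ U := by
    intro n
    induction n with
    | zero =>
      intro x hx
      rwa [pow_zero, one_mul]
    | succ n ih =>
      intro x hx
      rw [pow_succ', mul_assoc]
      exact hS' _ (ih x hx)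
  have key : ∀ x ∈ U, g * x ∈ closure U := by
    intro x hx
    rw [mem_closure_iff_nhds]
    intro N hN
    have hc1 : Continuous (fun p : G × G => p.1 * (p.2 * x)) := by fun_prop
    have hc2 : Continuous (fun b : G => g * (b * x)) := by fun_prop
    have h1 : (fun p : G × G => p.1 * (p.2 * x)) ⁻¹' U ∈ 𝓝 ((1 : G), (1 : G)) := by
      apply hc1.continuousAt.preimage_mem_nhds
      simpa using hU.mem_nhds hx
    have h2 : (fun b : G => g * (b * x)) ⁻¹' N ∈ 𝓝 (1 : G) := by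
      apply hc2.continuousAt.preimage_mem_nhds
      simpa using hN
    rw [nhds_prod_eq] at h1
    obtain ⟨u, hu, hu2⟩ := Filter.mem_prod_same_iff.1 h1
    obtain ⟨n₀, hn₀⟩ := eventually_atTop.1 (hg.eventually hu)
    obtain ⟨n, hn, b, hb, b', hb', γ, hγ, he⟩ := recur_at hΓ x S⁻¹ n₀ _ (inter_mem hu h2)
    refine ⟨g * (b * x), hb.2, ?_⟩
    have h3 : ((S ^ n)⁻¹ * g * S ^ n) * (b' * x) ∈ U :=
      hu2 (mk_mem_prod (hn₀ n hn) hb'.1)
    have h4 : (S ^ n)⁻¹ * (g * (b * x)) ∈ U := by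
      have h5 : (S ^ n)⁻¹ * (g * (b * x)) = ((S ^ n)⁻¹ * g * S ^ n) * (b' * x) * γ := by
        have h6 : ((S ^ n)⁻¹ * g * S ^ n) * (b' * x) * γ =
            ((S ^ n)⁻¹ * g * S ^ n) * (b' * x * γ) := by group
        rw [h6, ← he, inv_pow]
        group
      rw [h5]
      exact hUΓ _ h3 _ hγ
    have h7 := hSn n _ h4
    rwa [mul_inv_cancel_left] at h7
  intro x hx
  have h1 := map_mem_closure (continuous_const_mul g) hx (t := closure U) key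
  rwa [closure_closure] at h1

/-- The group generated by the elements which are contracted or expanded by `S`. -/
def horo (S : G) : Subgroup G :=
  Subgroup.closure {g | Tendsto (fun n : ℕ => (S ^ n)⁻¹ * g * S ^ n) atTop (𝓝 1) ∨
    Tendsto (fun n : ℕ => S ^ n * g * (S ^ n)⁻¹) atTop (𝓝 1)}

/-- The closure of an open set which is invariant under `S` and `Γ` and contains `1` contains the
contracted and the expanded elements. -/
theorem trans' {Γ : Subgroup G} (hΓ : IsLat Γ) {U : Set G} (hU : IsOpen U)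
    (hU1 : (1 : G) ∈ U) (hUΓ : ∀ x ∈ U, ∀ γ ∈ Γ, x * γ ∈ U) {S : G}
    (hS : ∀ x, S * x ∈ U ↔ x ∈ U) :
    closure {x : G | ∃ g ∈ horo S, ∃ γ ∈ Γ, x = g * γ} ⊆ closure U := by
  have hSinv : ∀ x, S⁻¹ * x ∈ U ↔ x ∈ U := by
    intro x
    rw [← hS (S⁻¹ * x), mul_inv_cancel_left]
  let H : Subgroup G :=
    { carrier := {g | (∀ x ∈ closure U, g * x ∈ closure U) ∧
        ∀ x ∈ closure U, g⁻¹ * x ∈ closure U}
      mul_mem' := by
        rintro a b ⟨ha1, ha2⟩ ⟨hb1, hb2⟩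
        refine ⟨fun x hx => ?_, fun x hx => ?_⟩
        · rw [mul_assoc]
          exact ha1 _ (hb1 x hx)
        · rw [mul_inv_rev, mul_assoc]
          exact hb2 _ (ha2 x hx)
      one_mem' := by
        refine ⟨fun x hx => ?_, fun x hx => ?_⟩
        · rwa [one_mul]
        · rwa [inv_one, one_mul]
      inv_mem' := by
        rintro a ⟨ha1, ha2⟩
        refine ⟨ha2, fun x hx => ?_⟩
        rw [inv_inv]
        exact ha1 x hx }
  have hinv1 : ∀ g : G, Tendsto (fun n : ℕ => (S ^ n)⁻¹ * g * S ^ n) atTop (𝓝 1) →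
      Tendsto (fun n : ℕ => (S ^ n)⁻¹ * g⁻¹ * S ^ n) atTop (𝓝 1) := by
    intro g hg
    have h1 := hg.inv
    rw [inv_one] at h1
    refine h1.congr fun n => ?_
    group
  have hinv2 : ∀ g : G, Tendsto (fun n : ℕ => S ^ n * g * (S ^ n)⁻¹) atTop (𝓝 1) →
      Tendsto (fun n : ℕ => S ^ n * g⁻¹ * (S ^ n)⁻¹) atTop (𝓝 1) := by
    intro g hg
    have h1 := hg.inv
    rw [inv_one] at h1
    refine h1.congr fun n => ?_
    group
  have m1 : ∀ g : G, Tendsto (fun n : ℕ => (S ^ n)⁻¹ * g * S ^ n) atTop (𝓝 1) →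
      ∀ x ∈ closure U, g * x ∈ closure U := fun g hg =>
    maut hΓ hU hUΓ (S := S) (fun x hx => (hS x).2 hx) hg
  have m2 : ∀ g : G, Tendsto (fun n : ℕ => S ^ n * g * (S ^ n)⁻¹) atTop (𝓝 1) →
      ∀ x ∈ closure U, g * x ∈ closure U := by
    intro g hg
    refine maut hΓ hU hUΓ (S := S⁻¹) (fun x hx => (hSinv x).2 hx) ?_
    refine hg.congr fun n => ?_
    rw [inv_pow, inv_inv]
  have hH : horo S ≤ H := by
    apply (Subgroup.closure_le H).2
    rintro g (hg | hg)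
    · exact ⟨m1 g hg, m1 _ (hinv1 g hg)⟩
    · exact ⟨m2 g hg, m2 _ (hinv2 g hg)⟩
  have hsub : {x : G | ∃ g ∈ horo S, ∃ γ ∈ Γ, x = g * γ} ⊆ closure U := by
    rintro x ⟨g, hg, γ, hγ, rfl⟩
    have h1 : (1 : G) * γ ∈ U := hUΓ 1 hU1 γ hγ
    rw [one_mul] at h1
    exact (hH hg).1 γ (subset_closure h1)
  exact closure_minimal hsub isClosed_closure

/-- An open set which is invariant under `S` and `Γ` and contains `1` is dense if the group generated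
by the contracted and the expanded elements has a dense image in `G / Γ`. -/
theorem trans {Γ : Subgroup G} (hΓ : IsLat Γ) {U : Set G} (hU : IsOpen U)
    (hU1 : (1 : G) ∈ U) (hUΓ : ∀ x ∈ U, ∀ γ ∈ Γ, x * γ ∈ U) {S : G}
    (hS : ∀ x, S * x ∈ U ↔ x ∈ U)
    (hd : Dense {x : G | ∃ g ∈ horo S, ∃ γ ∈ Γ, x = g * γ}) : closure U = univ := by
  rw [← univ_subset_iff, ← hd.closure_eq]
  exact trans' hΓ hU hU1 hUΓ hS

/-- Return times congruent to `±1`. -/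
theorem ret {Γ : Subgroup G} (hΓ : IsLat Γ) {h : G} {q : ℕ} (hq : 1 ≤ q)
    (hd : q = 1 ∨ Dense {x : G | ∃ g ∈ horo (h ^ q), ∃ γ ∈ Γ, x = g * γ})
    (B : Set G) (hB : B ∈ 𝓝 (1 : G)) :
    ∃ k : ℕ, 1 ≤ k ∧ (∃ a : ℕ, k + 1 = q * a ∨ k = q * a + 1) ∧
      ∃ b ∈ B, ∃ b' ∈ B, ∃ γ ∈ Γ, h ^ k * b = b' * γ := by
  rcases hd with rfl | hd
  · obtain ⟨n, hn, hrest⟩ := recur Γ hΓ h B hB
    exact ⟨n, hn, ⟨n + 1, Or.inl (by ring)⟩, hrest⟩
  rcases Nat.eq_or_lt_of_le hq with rfl | hq2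
  · obtain ⟨n, hn, hrest⟩ := recur Γ hΓ h B hB
    exact ⟨n, hn, ⟨n + 1, Or.inl (by ring)⟩, hrest⟩
  obtain ⟨S, hS⟩ : ∃ S, S = h ^ q := ⟨_, rfl⟩
  rw [← hS] at hd
  obtain ⟨B₀, hB₀B, hB₀, h1B₀⟩ := mem_nhds_iff.1 hB
  obtain ⟨U, hUd⟩ : ∃ U : Set G, U = ⋃ (j : ℤ) (γ : Γ), {x | S ^ j * x * (γ : G) ∈ B₀} :=
    ⟨_, rfl⟩
  have hU : IsOpen U := by
    rw [hUd]
    refine isOpen_iUnion fun j => isOpen_iUnion fun γ => ?_
    have hc : Continuous (fun x : G => S ^ j * x * (γ : G)) := by fun_prop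
    exact hB₀.preimage hc
  have hmem : ∀ x, x ∈ U ↔ ∃ (j : ℤ) (γ : Γ), S ^ j * x * (γ : G) ∈ B₀ := by
    intro x
    rw [hUd]
    simp only [mem_iUnion, mem_ofPred_eq]
  have hU1 : (1 : G) ∈ U := (hmem 1).2 ⟨0, 1, by simpa using h1B₀⟩
  have hUΓ : ∀ x ∈ U, ∀ γ ∈ Γ, x * γ ∈ U := by
    intro x hx γ hγ
    obtain ⟨j, γ', hj⟩ := (hmem x).1 hx
    refine (hmem _).2 ⟨j, ⟨γ⁻¹ * γ', Γ.mul_mem (Γ.inv_mem hγ) γ'.2⟩, ?_⟩
    have e : S ^ j * (x * γ) * (γ⁻¹ * (γ' : G)) = S ^ j * x * (γ' : G) := by group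
    show S ^ j * (x * γ) * (γ⁻¹ * (γ' : G)) ∈ B₀
    rw [e]
    exact hj
  have hUS : ∀ x, S * x ∈ U ↔ x ∈ U := by
    intro x
    rw [hmem, hmem]
    constructor
    · rintro ⟨j, γ, hj⟩
      refine ⟨j + 1, γ, ?_⟩
      have e : S ^ (j + 1) * x = S ^ j * (S * x) := by rw [zpow_add_one, mul_assoc]
      rw [e]
      exact hj
    · rintro ⟨j, γ, hj⟩
      refine ⟨j - 1, γ, ?_⟩
      have e : S ^ (j - 1) * (S * x) = S ^ j * x := by
        rw [← mul_assoc, ← zpow_add_one]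
        congr 2
        ring
      rw [e]
      exact hj
  have hcl := trans hΓ hU hU1 hUΓ hUS hd
  have hh : h⁻¹ ∈ closure U := by rw [hcl]; exact mem_univ _
  have hN : {x : G | h * x ∈ B₀} ∈ 𝓝 h⁻¹ := by
    have hc : Continuous (fun x : G => h * x) := by fun_prop
    apply hc.continuousAt.preimage_mem_nhds
    rw [mul_inv_cancel]
    exact hB₀.mem_nhds h1B₀
  obtain ⟨x, hx1, hx2⟩ := mem_closure_iff_nhds.1 hh _ hN
  obtain ⟨j, γ, hj⟩ := (hmem x).1 hx2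
  have hx1' : h * x ∈ B₀ := hx1
  have hSz : S ^ j = h ^ ((q : ℤ) * j) := by
    rw [hS, zpow_mul, zpow_natCast]
  rw [hSz] at hj
  have e1 : h ^ ((q : ℤ) * j) * x * (γ : G) = h ^ ((q : ℤ) * j - 1) * (h * x) * γ := by
    have : h ^ ((q : ℤ) * j) = h ^ ((q : ℤ) * j - 1) * h := by
      rw [← zpow_add_one]
      congr 1
      ring
    rw [this]
    group
  have hq' : (2 : ℤ) ≤ q := by exact_mod_cast hq2
  rcases lt_or_ge 0 j with hj0 | hj0
  · obtain ⟨a, rfl⟩ := Int.eq_ofNat_of_zero_le hj0.le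
    have ha : 1 ≤ a := by exact_mod_cast hj0
    have hqa : 2 ≤ q * a := by nlinarith
    refine ⟨q * a - 1, by omega, ⟨a, Or.inl (by omega)⟩, h * x, hB₀B hx1', _, hB₀B hj,
      (γ : G)⁻¹, Γ.inv_mem γ.2, ?_⟩
    rw [e1]
    have e2 : h ^ ((q : ℤ) * (a : ℤ) - 1) = h ^ (q * a - 1) := by
      rw [← zpow_natCast]
      congr 1
      push_cast [Nat.cast_sub (by omega : 1 ≤ q * a)]
      ring
    rw [e2]
    group
  · obtain ⟨a, ha⟩ := Int.eq_ofNat_of_zero_le (neg_nonneg.2 hj0)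
    refine ⟨q * a + 1, by omega, ⟨a, Or.inr rfl⟩, _, hB₀B hj, h * x, hB₀B hx1', (γ : G), γ.2, ?_⟩
    rw [e1]
    have e2 : h ^ ((q : ℤ) * j - 1) = (h ^ (q * a + 1))⁻¹ := by
      rw [← zpow_natCast, ← zpow_neg]
      congr 1
      push_cast
      have : j = -(a : ℤ) := by rw [← ha, neg_neg]
      rw [this]
      ring
    rw [e2]
    group

end Haar

end Pool.Agent.T6.H27.CL
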