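import Pool.Agent.T6.H27.CL.Conj
import Pool.Agent.T6.H27.CL.Rec

/-!
# Closing inside of the group
-/

set_option autoImplicit false
set_option linter.unusedSectionVars false

open Filter Set Topology NormedSpace
open scoped NNReal

namespace Pool.Agent.T6.H27.CL

variable {A : Type*} [NormedRing A] [NormedAlgebra ℝ A] [CompleteSpace A]

/-- `h` is nice with respect to `Γ`: it has finite order, or, for some `q ≥ 1`, the maps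
`Ad(h^n) - 1` are bounded below on the image of `Ad(h) - 1` in the Lie algebra of `G`, uniformly for all
`n ≥ 1` with `n ≡ ±1` modulo `q` (this is the case if the eigenvalues of modulus one of `Ad(h)` are
semisimple and `q`-th roots of unity), and, unless `q = 1`, the group generated by the elements which
are contracted or expanded by `h^q` has a dense image in `G / Γ`. -/
def Nice (G : Subgroup Aˣ) (Γ : Subgroup G) (h : G) : Prop :=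
  (∃ n : ℕ, 1 ≤ n ∧ h ^ n = 1) ∨
  ∃ q : ℕ, 1 ≤ q ∧ (q = 1 ∨ Dense {x : G | ∃ g ∈ horo (h ^ q), ∃ γ ∈ Γ, x = g * γ}) ∧
    ∃ C : ℝ, ∀ n : ℕ, 1 ≤ n → (∃ a : ℕ, n + 1 = q * a ∨ n = q * a + 1) → ∀ X ∈ lieSet G,
      ‖Ad (h : Aˣ) X - X‖ ≤
        C * ‖Ad ((h : Aˣ) ^ n) (Ad (h : Aˣ) X - X) - (Ad (h : Aˣ) X - X)‖

/-- Translation by `h` can be closed inside of the group. -/
def GCl {G : Subgroup Aˣ} (Γ : Subgroup G) (h : G) : Prop :=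
  ∀ U ∈ 𝓝 (1 : G), ∃ c ∈ U, ∃ g ∈ U, ∃ n : ℕ, 1 ≤ n ∧ ∃ γ ∈ Γ, (h * c) ^ n * g = g * γ

theorem gcl_closure {G : Subgroup Aˣ} {Γ : Subgroup G} {h : G}
    (hh : h ∈ closure {h' | GCl Γ h'}) : GCl Γ h := by
  intro U hU
  have hc : Continuous (fun p : G × G => p.1 * p.2) := by fun_prop
  have h1 : (fun p : G × G => p.1 * p.2) ⁻¹' U ∈ 𝓝 ((1 : G), (1 : G)) := by
    apply hc.continuousAt.preimage_mem_nhds
    simpa using hU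
  rw [nhds_prod_eq] at h1
  obtain ⟨V, hV, hV2⟩ := Filter.mem_prod_same_iff.1 h1
  have hN : {x : G | h⁻¹ * x ∈ V} ∈ 𝓝 h := by
    have hc : Continuous (fun x : G => h⁻¹ * x) := by fun_prop
    apply hc.continuousAt.preimage_mem_nhds
    rwa [inv_mul_cancel]
  obtain ⟨h', hh'1, hh'2⟩ := mem_closure_iff_nhds.1 hh _ hN
  obtain ⟨c, hc, g, hg, n, hn, γ, hγ, he⟩ := hh'2 (V ∩ U) (inter_mem hV hU)
  refine ⟨h⁻¹ * h' * c, hV2 (mk_mem_prod hh'1 hc.1), g, hg.2, n, hn, γ, hγ, ?_⟩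
  rw [← he]
  congr 2
  group

section FD

variable [FiniteDimensional ℝ A]

/-- Closing from return times `n ∈ S` for which `Ad(h^n) - 1` is uniformly bounded below on the image
of `Ad(h) - 1`. -/
theorem gcl_of_ret {G : Subgroup Aˣ} (hG : IsClosed (G : Set Aˣ)) {Γ : Subgroup G} {h : G}
    {S : Set ℕ} (hS : S.Nonempty) (hS1 : ∀ n ∈ S, 1 ≤ n) {C : ℝ}
    (hC : ∀ n ∈ S, ∀ X ∈ lieSet G, ‖Ad (h : Aˣ) X - X‖ ≤
      C * ‖Ad ((h : Aˣ) ^ n) (Ad (h : Aˣ) X - X) - (Ad (h : Aˣ) X - X)‖)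
    (hret : ∀ B ∈ 𝓝 (1 : G), ∃ n ∈ S, ∃ b ∈ B, ∃ b' ∈ B, ∃ γ ∈ Γ, h ^ n * b = b' * γ) :
    GCl Γ h := by
  intro U hU
  -- neighbourhoods
  obtain ⟨U₁, hU₁, hU₁U, hU₁2⟩ : ∃ U₁ ∈ 𝓝 (1 : G), U₁ ⊆ U ∧ ∀ a ∈ U₁, ∀ b ∈ U₁, a⁻¹ * b ∈ U := by
    have hc : Continuous (fun p : G × G => p.1⁻¹ * p.2) := by fun_prop
    have h1 : (fun p : G × G => p.1⁻¹ * p.2) ⁻¹' U ∈ 𝓝 ((1 : G), (1 : G)) := by
      apply hc.continuousAt.preimage_mem_nhds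
      simpa using hU
    rw [nhds_prod_eq] at h1
    obtain ⟨V, hV, hV2⟩ := Filter.mem_prod_same_iff.1 h1
    exact ⟨V ∩ U, inter_mem hV hU, inter_subset_right, fun a ha b hb =>
      hV2 (mk_mem_prod ha.1 hb.1)⟩
  obtain ⟨ε, hε, hεU⟩ : ∃ ε : ℝ, 0 < ε ∧ ∀ (W : A) (hW : W ∈ lieSet G), ‖W‖ < ε →
      (⟨eu W, lie_eu hW⟩ : G) ∈ U₁ := by
    obtain ⟨V, hV, hVU⟩ := mem_nhds_subtype (G : Set Aˣ) 1 U₁ |>.1 hU₁
    have h1 : (eu : A → Aˣ) ⁻¹' V ∈ 𝓝 (0 : A) := by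
      apply eu_cont.continuousAt.preimage_mem_nhds
      rw [eu_zero]
      exact hV
    obtain ⟨ε, hε, hεV⟩ := Metric.mem_nhds_iff.1 h1
    refine ⟨ε, hε, fun W hW hWε => ?_⟩
    apply hVU
    exact hεV (by rwa [mem_ball_zero_iff])
  obtain ⟨U₂, hU₂, hconj⟩ := conj_unif hG h.2 hS hC hε
  obtain ⟨B, hB, hBU, hB2⟩ : ∃ B ∈ 𝓝 (1 : G), B ⊆ U₁ ∧
      ∀ b ∈ B, ∀ b' ∈ B, ((b * b'⁻¹ : G) : Aˣ) ∈ U₂ := by
    have hc : Continuous (fun p : G × G => ((p.1 * p.2⁻¹ : G) : Aˣ)) := by fun_prop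
    have h1 : (fun p : G × G => ((p.1 * p.2⁻¹ : G) : Aˣ)) ⁻¹' U₂ ∈ 𝓝 ((1 : G), (1 : G)) := by
      apply hc.continuousAt.preimage_mem_nhds
      simpa using hU₂
    rw [nhds_prod_eq] at h1
    obtain ⟨V, hV, hV2⟩ := Filter.mem_prod_same_iff.1 h1
    exact ⟨V ∩ U₁, inter_mem hV hU₁, inter_subset_right, fun a ha b hb =>
      hV2 (mk_mem_prod ha.1 hb.1)⟩
  obtain ⟨k, hkS, b, hb, b', hb', γ, hγ, he⟩ := hret B hB
  have hk := hS1 k hkS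
  obtain ⟨X, Z, hX, hZ, hZf, hXε, hZε, hu⟩ := hconj k hkS _ (hB2 b hb b' hb')
    (b * b'⁻¹).2
  have hk0 : (0 : ℝ) < k := by exact_mod_cast hk
  have hk1 : (1 : ℝ) ≤ k := by exact_mod_cast hk
  have hZk : (k : ℝ)⁻¹ • Z ∈ lieSet G := lie_smul hZ _
  obtain ⟨v, hv⟩ : ∃ v : G, v = ⟨eu X, lie_eu hX⟩ := ⟨_, rfl⟩
  obtain ⟨c, hc⟩ : ∃ c : G, c = ⟨eu ((k : ℝ)⁻¹ • Z), lie_eu hZk⟩ := ⟨_, rfl⟩
  have hvU : v ∈ U₁ := by
    rw [hv]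
    exact hεU X hX hXε
  have hcU : c ∈ U₁ := by
    rw [hc]
    apply hεU _ hZk
    rw [norm_smul, norm_inv, Real.norm_of_nonneg hk0.le]
    calc (k : ℝ)⁻¹ * ‖Z‖ ≤ 1 * ‖Z‖ := by
          gcongr
          exact inv_le_one_of_one_le₀ hk1
      _ < ε := by rwa [one_mul]
  have hch : Commute h c := by
    show h * c = c * h
    apply Subtype.ext
    have h1 : (h : Aˣ) * eu ((k : ℝ)⁻¹ • Z) * (h : Aˣ)⁻¹ = eu ((k : ℝ)⁻¹ • Z) := by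
      rw [eu_conj', map_smul, hZf]
    rw [hc]
    show (h : Aˣ) * eu ((k : ℝ)⁻¹ • Z) = eu ((k : ℝ)⁻¹ • Z) * (h : Aˣ)
    exact mul_inv_eq_iff_eq_mul.1 h1
  have hck : c ^ k = ⟨eu Z, lie_eu hZ⟩ := by
    apply Subtype.ext
    rw [hc]
    show (eu ((k : ℝ)⁻¹ • Z)) ^ k = eu Z
    rw [← eu_nsmul, ← Nat.cast_smul_eq_nsmul ℝ, smul_smul, mul_inv_cancel₀ hk0.ne', one_smul]
  have hpow : (h * c) ^ k = c ^ k * h ^ k := by
    rw [hch.mul_pow]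
    exact (hch.pow_pow k k).eq
  have hu' : b * b'⁻¹ * h ^ k = v * c ^ k * h ^ k * v⁻¹ := by
    apply Subtype.ext
    rw [hck, hv]
    exact hu
  refine ⟨c, hU₁U hcU, v⁻¹ * b, hU₁2 v hvU b (hBU hb), k, hk, γ, hγ, ?_⟩
  rw [hpow]
  have h1 : c ^ k * h ^ k = v⁻¹ * (b * b'⁻¹ * h ^ k) * v := by
    rw [hu']
    group
  rw [h1]
  have h2 : v⁻¹ * (b * b'⁻¹ * h ^ k) * v * (v⁻¹ * b) = v⁻¹ * b * b'⁻¹ * (h ^ k * b) := by group
  rw [h2, he]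
  group

theorem nice_gcl {G : Subgroup Aˣ} (hG : IsClosed (G : Set Aˣ)) {Γ : Subgroup G} (hΓ : IsLat Γ)
    {h : G} (hn : Nice G Γ h) : GCl Γ h := by
  rcases hn with ⟨n, hn1, hn2⟩ | ⟨q, hq, hd, C, hC⟩
  · intro U hU
    refine ⟨1, mem_of_mem_nhds hU, 1, mem_of_mem_nhds hU, n, hn1, 1, Γ.one_mem, ?_⟩
    simp [hn2]
  have : LocallyCompactSpace G := hG.isClosedEmbedding_subtypeVal.locallyCompactSpace
  have : SecondCountableTopology G :=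
    (Topology.IsInducing.subtypeVal (t := (G : Set Aˣ))).secondCountableTopology
  refine gcl_of_ret hG (S := {n | 1 ≤ n ∧ ∃ a : ℕ, n + 1 = q * a ∨ n = q * a + 1})
    ⟨q * 0 + 1, by omega, 0, Or.inr rfl⟩ (fun n hn => hn.1) (C := C)
    (fun n hn X hX => hC n hn.1 hn.2 X hX) (fun B hB => ?_)
  obtain ⟨k, hk, hka, hrest⟩ := ret hΓ hq hd B hB
  exact ⟨k, ⟨hk, hka⟩, hrest⟩

theorem gcl_of_closure {G : Subgroup Aˣ} (hG : IsClosed (G : Set Aˣ)) {Γ : Subgroup G}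
    (hΓ : IsLat Γ) {h : G} (hh : h ∈ closure {h' | Nice G Γ h'}) : GCl Γ h :=
  gcl_closure (closure_mono (fun _ hn => nice_gcl hG hΓ hn) hh)

end FD

end Pool.Agent.T6.H27.CL
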