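import Pool.Agent.T6.H27.CL.Bdd
import Pool.Agent.T6.H27.CL.Diag
import Pool.Agent.T6.H27.CL.Rec

/-!
# The horospherical subgroups generate a normal subgroup
-/

set_option autoImplicit false
set_option linter.unusedSectionVars false

open Filter Set Topology NormedSpace LieAlgebra

namespace Pool.Agent.T6.H27.CL

attribute [local instance 100] LieRing.ofAssociativeRing

theorem le_mul_tendsto {x M : ℝ} {a : ℕ → ℝ} (ha : Tendsto a atTop (𝓝 0))
    (h : ∀ k, x ≤ M * a k) : x ≤ 0 := by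
  have h1 := ha.const_mul M
  rw [mul_zero] at h1
  exact ge_of_tendsto' h1 h

section TG

variable {G : Type*} [Group G] [TopologicalSpace G] [IsTopologicalGroup G]

theorem conj_tendsto {K : Set G} (hK : IsCompact K) {a u : ℕ → G} (ha : ∀ n, a n ∈ K)
    (hu : Tendsto u atTop (𝓝 1)) : Tendsto (fun n => a n * u n * (a n)⁻¹) atTop (𝓝 1) := by
  intro W hW
  obtain ⟨W', hW'W, hW'o, hW'1⟩ := mem_nhds_iff.1 hW
  have hc : Continuous (fun p : G × G => p.1 * p.2 * p.1⁻¹) := by fun_prop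
  have hop : IsOpen ((fun p : G × G => p.1 * p.2 * p.1⁻¹) ⁻¹' W') := hW'o.preimage hc
  have hsub : K ×ˢ ({1} : Set G) ⊆ (fun p : G × G => p.1 * p.2 * p.1⁻¹) ⁻¹' W' := by
    rintro ⟨a, b⟩ ⟨-, hb⟩
    have hb' : b = 1 := hb
    show a * b * a⁻¹ ∈ W'
    rw [hb', mul_one, mul_inv_cancel]
    exact hW'1
  obtain ⟨U₁, V₁, hU₁, hV₁, hKU, h1V, hUV⟩ := generalized_tube_lemma hK isCompact_singleton hop hsub
  have h1 : V₁ ∈ 𝓝 (1 : G) := hV₁.mem_nhds (h1V rfl)
  show ∀ᶠ n in atTop, a n * u n * (a n)⁻¹ ∈ W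
  filter_upwards [hu.eventually h1] with n hn
  exact hW'W (hUV (mk_mem_prod (hKU (ha n)) hn))

/-- The closed subgroup of all elements which normalise `N`. -/
def nz (N : Subgroup G) : Subgroup G where
  carrier := {g | ∀ x ∈ N, g * x * g⁻¹ ∈ N ∧ g⁻¹ * x * g ∈ N}
  mul_mem' := by
    intro a b ha hb x hx
    constructor
    · have h1 := (ha _ (hb x hx).1).1
      have e : a * b * x * (a * b)⁻¹ = a * (b * x * b⁻¹) * a⁻¹ := by group
      rw [e]
      exact h1
    · have h1 := (hb _ (ha x hx).2).2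
      have e : (a * b)⁻¹ * x * (a * b) = b⁻¹ * (a⁻¹ * x * a) * b := by group
      rw [e]
      exact h1
  one_mem' := by
    intro x hx
    constructor <;> simpa using hx
  inv_mem' := by
    intro a ha x hx
    rw [inv_inv]
    exact ⟨(ha x hx).2, (ha x hx).1⟩

theorem nz_closed {N : Subgroup G} (hN : IsClosed (N : Set G)) : IsClosed (nz N : Set G) := by
  have e : (nz N : Set G) = ⋂ x ∈ (N : Set G), ({g | g * x * g⁻¹ ∈ (N : Set G)} ∩
      {g | g⁻¹ * x * g ∈ (N : Set G)}) := by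
    ext g
    simp only [mem_iInter]
    exact Iff.rfl
  rw [e]
  refine isClosed_biInter fun x _ => ?_
  have hc1 : Continuous (fun g : G => g * x * g⁻¹) := by fun_prop
  have hc2 : Continuous (fun g : G => g⁻¹ * x * g) := by fun_prop
  exact (hN.preimage hc1).inter (hN.preimage hc2)

/-- Elements with bounded conjugates normalise the closure of `horo h`. -/
theorem nz_of_bdd {h g : G} {K : Set G} (hK : IsCompact K)
    (hg : ∀ n : ℕ, h ^ n * g * (h ^ n)⁻¹ ∈ K ∧ (h ^ n)⁻¹ * g * h ^ n ∈ K)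
    (hg' : ∀ n : ℕ, h ^ n * g⁻¹ * (h ^ n)⁻¹ ∈ K ∧ (h ^ n)⁻¹ * g⁻¹ * h ^ n ∈ K) :
    g ∈ nz (horo h).topologicalClosure := by
  have key : ∀ g : G, (∀ n : ℕ, h ^ n * g * (h ^ n)⁻¹ ∈ K ∧ (h ^ n)⁻¹ * g * h ^ n ∈ K) →
      ∀ x ∈ (horo h).topologicalClosure, g * x * g⁻¹ ∈ (horo h).topologicalClosure := by
    intro g hg
    have h1 : ∀ x ∈ horo h, g * x * g⁻¹ ∈ horo h := by
      intro x hx
      refine Subgroup.closure_induction (p := fun x _ => g * x * g⁻¹ ∈ horo h) ?_ ?_ ?_ ?_ hx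
      · rintro u (hu | hu)
        · apply Subgroup.subset_closure
          left
          have h2 := conj_tendsto hK (fun n => (hg n).2) hu
          refine h2.congr fun n => ?_
          group
        · apply Subgroup.subset_closure
          right
          have h2 := conj_tendsto hK (fun n => (hg n).1) hu
          refine h2.congr fun n => ?_
          group
      · rw [mul_one, mul_inv_cancel]
        exact (horo h).one_mem
      · intro a b _ _ ha hb
        have e : g * (a * b) * g⁻¹ = (g * a * g⁻¹) * (g * b * g⁻¹) := by group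
        rw [e]
        exact (horo h).mul_mem ha hb
      · intro a _ ha
        have e : g * a⁻¹ * g⁻¹ = (g * a * g⁻¹)⁻¹ := by group
        rw [e]
        exact (horo h).inv_mem ha
    intro x hx
    have hc : Continuous (fun x : G => g * x * g⁻¹) := by fun_prop
    exact map_mem_closure (f := fun x : G => g * x * g⁻¹) hc hx h1
  intro x hx
  refine ⟨key g hg x hx, ?_⟩
  have h1 := key g⁻¹ hg' x hx
  rwa [inv_inv] at h1

end TG

variable {A : Type*} [NormedRing A] [NormedAlgebra ℝ A] [CompleteSpace A] [FiniteDimensional ℝ A]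
variable {G : Subgroup Aˣ} (hG : IsClosed (G : Set Aˣ))

/-- `Γ` is irreducible: it has a dense image in `G / N` for every closed normal subgroup `N` of `G`
whose Lie algebra contains an element with an unbounded orbit under the adjoint action of `G`. -/
def Irr {G : Subgroup Aˣ} (Γ : Subgroup G) : Prop :=
  ∀ N : Subgroup G, N.Normal → IsClosed (N : Set G) →
    (∃ X ∈ lieSet (N.map G.subtype), ¬ Bdd G X) → Dense {x : G | ∃ g ∈ N, ∃ γ ∈ Γ, x = g * γ}

theorem eL_conj_pow (h : G) (n : ℕ) (X : lieA G hG) :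
    h ^ n * eL X * (h ^ n)⁻¹ = eL ((adL hG h ^ n) X) := by
  rw [eL_conj, adL_pow]

/-- the coordinates of `Ad h` -/
structure Coord (h : G) (n : ℕ) (lam : Fin n → ℂ) (Φ : Fin n → lieA G hG →ₗ[ℝ] ℂ)
    (Ψ : Fin n → ℂ →ₗ[ℝ] lieA G hG) : Prop where
  phi : ∀ i x, Φ i (adL hG h x) = lam i * Φ i x
  psi : ∀ i c, adL hG h (Ψ i c) = Ψ i (lam i * c)
  sum : ∀ x, ∑ i, Ψ i (Φ i x) = x
  ne : ∀ i, ∃ c, Ψ i c ≠ 0

namespace Coord

variable {hG} {h : G} {n : ℕ} {lam : Fin n → ℂ} {Φ : Fin n → lieA G hG →ₗ[ℝ] ℂ}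
  {Ψ : Fin n → ℂ →ₗ[ℝ] lieA G hG} (C : Coord hG h n lam Φ Ψ)
include C

theorem lam_ne (i : Fin n) : lam i ≠ 0 := by
  intro h0
  obtain ⟨c, hc⟩ := C.ne i
  apply hc
  have h1 := C.psi i c
  rw [h0, zero_mul, map_zero] at h1
  have h2 := (Module.End.isUnit_iff _).1 (adL_unit hG h)
  exact h2.1 (by rw [h1, map_zero])

theorem psi_pow (i : Fin n) (k : ℕ) (c : ℂ) : (adL hG h ^ k) (Ψ i c) = Ψ i (lam i ^ k * c) := by
  induction k with
  | zero => simp
  | succ k ih => rw [pow_succ', Module.End.mul_apply, ih, C.psi, pow_succ']; ring_nf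

theorem phi_pow (i : Fin n) (k : ℕ) (x : lieA G hG) : Φ i ((adL hG h ^ k) x) = lam i ^ k * Φ i x := by
  induction k with
  | zero => simp
  | succ k ih => rw [pow_succ', Module.End.mul_apply, C.phi, ih, pow_succ']; ring

theorem psi_inv (i : Fin n) (k : ℕ) (c : ℂ) :
    (h ^ k)⁻¹ * eL (Ψ i c) * h ^ k = eL (Ψ i ((lam i ^ k)⁻¹ * c)) := by
  have h1 := eL_conj_pow hG h k (Ψ i ((lam i ^ k)⁻¹ * c))
  rw [C.psi_pow, ← mul_assoc, mul_inv_cancel₀ (pow_ne_zero _ (C.lam_ne i)), one_mul] at h1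
  rw [← h1]
  group

theorem psi_conj (i : Fin n) (k : ℕ) (c : ℂ) :
    h ^ k * eL (Ψ i c) * (h ^ k)⁻¹ = eL (Ψ i (lam i ^ k * c)) := by
  rw [eL_conj_pow, C.psi_pow]

theorem psi_cont (i : Fin n) : Continuous (fun c : ℂ => eL (Ψ i c)) :=
  (eL_cont (hG := hG)).comp (Ψ i).continuous_of_finiteDimensional

theorem mem_horo (i : Fin n) (hi : ‖lam i‖ ≠ 1) (c : ℂ) : eL (Ψ i c) ∈ horo h := by
  apply Subgroup.subset_closure
  have h0 : eL (Ψ i 0) = 1 := by rw [map_zero]; exact eL_zero hG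
  rcases lt_or_gt_of_ne hi with h1 | h1
  · right
    have h2 : Tendsto (fun k : ℕ => lam i ^ k * c) atTop (𝓝 0) := by
      have h3 := (tendsto_pow_atTop_nhds_zero_of_norm_lt_one h1).mul_const c
      rwa [zero_mul] at h3
    have h4 := ((C.psi_cont i).tendsto 0).comp h2
    rw [h0] at h4
    exact h4.congr fun k => (C.psi_conj i k c).symm
  · left
    have h2 : Tendsto (fun k : ℕ => (lam i ^ k)⁻¹ * c) atTop (𝓝 0) := by
      have h5 : ‖(lam i)⁻¹‖ < 1 := by
        rw [norm_inv]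
        exact inv_lt_one_of_one_lt₀ h1
      have h3 := (tendsto_pow_atTop_nhds_zero_of_norm_lt_one h5).mul_const c
      rw [zero_mul] at h3
      refine h3.congr fun k => ?_
      rw [inv_pow]
    have h4 := ((C.psi_cont i).tendsto 0).comp h2
    rw [h0] at h4
    exact h4.congr fun k => (C.psi_inv i k c).symm

theorem mem_nz (i : Fin n) (hi : ‖lam i‖ = 1) (c : ℂ) :
    eL (Ψ i c) ∈ nz (horo h).topologicalClosure := by
  obtain ⟨K, hKd⟩ : ∃ K : Set G, K = (fun z : ℂ => eL (Ψ i z)) '' Metric.closedBall 0 ‖c‖ :=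
    ⟨_, rfl⟩
  have hK : IsCompact K := by
    rw [hKd]
    exact (isCompact_closedBall 0 ‖c‖).image (C.psi_cont i)
  have hm : ∀ z : ℂ, ‖z‖ ≤ ‖c‖ → eL (Ψ i z) ∈ K := by
    intro z hz
    rw [hKd]
    exact ⟨z, by rwa [mem_closedBall_zero_iff], rfl⟩
  have key : ∀ c' : ℂ, ‖c'‖ ≤ ‖c‖ → ∀ k : ℕ, h ^ k * eL (Ψ i c') * (h ^ k)⁻¹ ∈ K ∧
      (h ^ k)⁻¹ * eL (Ψ i c') * h ^ k ∈ K := by
    intro c' hc' k
    rw [C.psi_conj, C.psi_inv]
    constructor
    · apply hm
      rw [norm_mul, norm_pow, hi, one_pow, one_mul]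
      exact hc'
    · apply hm
      rw [norm_mul, norm_inv, norm_pow, hi, one_pow, inv_one, one_mul]
      exact hc'
  refine nz_of_bdd hK (key c le_rfl) fun k => ?_
  have h1 : (eL (Ψ i c))⁻¹ = eL (Ψ i (-c)) := by rw [map_neg, eL_neg]
  rw [h1]
  exact key (-c) (by rw [norm_neg]) k

/-- The closure of `horo h` is normal. -/
theorem horo_normal [ConnectedSpace G] : (horo h).topologicalClosure.Normal := by
  obtain ⟨N, hN⟩ : ∃ N, N = (horo h).topologicalClosure := ⟨_, rfl⟩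
  have hNc : IsClosed (N : Set G) := by rw [hN]; exact Subgroup.isClosed_topologicalClosure _
  rw [← hN]
  obtain ⟨G', hG'⟩ : ∃ G' : Subgroup Aˣ, G' = (nz N).map G.subtype := ⟨_, rfl⟩
  have hG'c : IsClosed (G' : Set Aˣ) := by
    have h5 : IsClosed ((nz N : Subgroup G) : Set G) := nz_closed hNc
    rw [hG', Subgroup.coe_map]
    exact hG.isClosedEmbedding_subtypeVal.isClosedMap _ h5
  have hmem : ∀ (i : Fin n) (c : ℂ), ((Ψ i c : lieA G hG) : A) ∈ lieSet G' := by
    intro i c t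
    rw [hG']
    refine ⟨eL (Ψ i (t • c)), ?_, ?_⟩
    · by_cases hi : ‖lam i‖ = 1
      · rw [hN]
        exact C.mem_nz i hi _
      · have h1 : eL (Ψ i (t • c)) ∈ N := by
          rw [hN]
          exact Subgroup.le_topologicalClosure _ (C.mem_horo i hi _)
        intro x hx
        exact ⟨N.mul_mem (N.mul_mem h1 hx) (N.inv_mem h1),
          N.mul_mem (N.mul_mem (N.inv_mem h1) hx) h1⟩
    · show eu ((Ψ i (t • c) : lieA G hG) : A) = eu (t • ((Ψ i c : lieA G hG) : A))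
      rw [map_smul]
      rfl
  have hall : ∀ X : lieA G hG, (X : A) ∈ lieSet G' := by
    intro X
    have h1 : ((∑ i, Ψ i (Φ i X) : lieA G hG) : A) = ∑ i, ((Ψ i (Φ i X) : lieA G hG) : A) := by
      exact map_sum (lieA G hG).toSubmodule.subtype _ _
    rw [← C.sum X, h1]
    exact (lie G' hG'c).sum_mem fun i _ => hmem i _
  have hnz : ∀ g : G, g ∈ nz N := by
    intro g
    refine gen_top hG (nz N) (fun X hX => ?_) g
    have h1 := lie_eu (hall ⟨X, hX⟩)
    rw [hG'] at h1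
    obtain ⟨g, hg, hgX⟩ := h1
    have h2 : g = ⟨eu X, lie_eu hX⟩ := Subtype.ext hgX
    rw [← h2]
    exact hg
  exact ⟨fun x hx g => ((hnz g) x hx).1⟩

/-- Eigenvectors for eigenvalues which are not of modulus one have unbounded orbits. -/
theorem unbdd {i : Fin n} (hi : ‖lam i‖ ≠ 1) {c : ℂ} (hc : Ψ i c ≠ 0) :
    ¬ Bdd G ((Ψ i c : lieA G hG) : A) := by
  intro hb
  obtain ⟨M, hM0, hM⟩ := bdd_unif hG
  apply hc
  have hΨ : Continuous (fun c : ℂ => ‖Ψ i c‖) := (Ψ i).continuous_of_finiteDimensional.norm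
  have hne := C.lam_ne i
  apply norm_le_zero_iff.1
  rcases lt_or_gt_of_ne hi with h1 | h1
  · have h2 : Tendsto (fun k : ℕ => lam i ^ k * c) atTop (𝓝 0) := by
      have h3 := (tendsto_pow_atTop_nhds_zero_of_norm_lt_one h1).mul_const c
      rwa [zero_mul] at h3
    have h3 := (hΨ.tendsto 0).comp h2
    rw [map_zero, norm_zero] at h3
    refine le_mul_tendsto (M := M) h3 fun k => ?_
    have h4 : Ψ i (lam i ^ k * c) = adL hG (h ^ k) (Ψ i c) := by rw [adL_pow, C.psi_pow]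
    have h5 : adL hG (h ^ k) (Ψ i c) ∈ bddS hG := bddS_adL hG hb _
    have h6 := hM _ h5 (h ^ k)⁻¹
    have h7 : adL hG (h ^ k)⁻¹ (adL hG (h ^ k) (Ψ i c)) = Ψ i c := by
      rw [← Module.End.mul_apply, ← adL_mul, inv_mul_cancel, adL_one]
      rfl
    rw [h7, ← h4] at h6
    exact h6
  · have h2 : Tendsto (fun k : ℕ => (lam i ^ k)⁻¹ * c) atTop (𝓝 0) := by
      have h5 : ‖(lam i)⁻¹‖ < 1 := by
        rw [norm_inv]
        exact inv_lt_one_of_one_lt₀ h1
      have h3 := (tendsto_pow_atTop_nhds_zero_of_norm_lt_one h5).mul_const c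
      rw [zero_mul] at h3
      refine h3.congr fun k => ?_
      rw [inv_pow]
    have h3 := (hΨ.tendsto 0).comp h2
    rw [map_zero, norm_zero] at h3
    refine le_mul_tendsto (M := M) h3 fun k => ?_
    have h4 : adL hG (h ^ k) (Ψ i ((lam i ^ k)⁻¹ * c)) = Ψ i c := by
      rw [adL_pow, C.psi_pow, ← mul_assoc, mul_inv_cancel₀ (pow_ne_zero _ hne), one_mul]
    have h5 : Ψ i ((lam i ^ k)⁻¹ * c) ∈ bddS hG := by
      have h8 : Ψ i ((lam i ^ k)⁻¹ * c) = adL hG (h ^ k)⁻¹ (Ψ i c) := by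
        rw [← h4, ← Module.End.mul_apply, ← adL_mul, inv_mul_cancel, adL_one]
        rfl
      rw [h8]
      exact bddS_adL hG hb _
    have h6 := hM _ h5 (h ^ k)
    rw [h4] at h6
    exact h6

theorem mem_lie_horo (i : Fin n) (hi : ‖lam i‖ ≠ 1) (c : ℂ) :
    ((Ψ i c : lieA G hG) : A) ∈ lieSet ((horo h).topologicalClosure.map G.subtype) := by
  intro t
  refine ⟨eL (Ψ i (t • c)), Subgroup.le_topologicalClosure _ (C.mem_horo i hi _), ?_⟩
  show eu ((Ψ i (t • c) : lieA G hG) : A) = eu (t • ((Ψ i c : lieA G hG) : A))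
  rw [map_smul]
  rfl

/-- `horo h` has a dense image in `G / Γ`. -/
theorem horo_dense [ConnectedSpace G] {Γ : Subgroup G} (hirr : Irr Γ) {i : Fin n}
    (hi : ‖lam i‖ ≠ 1) : Dense {x : G | ∃ g ∈ horo h, ∃ γ ∈ Γ, x = g * γ} := by
  obtain ⟨c, hc⟩ := C.ne i
  have h1 := hirr _ C.horo_normal (Subgroup.isClosed_topologicalClosure _)
    ⟨_, C.mem_lie_horo i hi c, C.unbdd hi hc⟩
  rw [← dense_closure]
  refine h1.mono ?_
  rintro x ⟨g, hg, γ, hγ, rfl⟩
  have hc : Continuous (fun x : G => x * γ) := by fun_prop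
  exact map_mem_closure (f := fun x : G => x * γ) hc hg fun y hy => ⟨y, hy, γ, hγ, rfl⟩

end Coord

end Pool.Agent.T6.H27.CL
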