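import Pool.Agent.T6.H27.CL.Rec

/-!
# Returns at times which are controlled in a compact group
-/

set_option autoImplicit false
set_option linter.unusedSectionVars false

open Filter Set Topology

namespace Pool.Agent.T6.H27.CL

section

variable {K : Type*} [Group K] [TopologicalSpace K] [IsTopologicalGroup K] [CompactSpace K]
  [T2Space K] [SecondCountableTopology K]

theorem pow_recur (κ : K) {V : Set K} (hV : V ∈ 𝓝 (1 : K)) : ∃ n : ℕ, 1 ≤ n ∧ κ ^ n ∈ V := by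
  have hΓ : IsLat (⊥ : Subgroup K) := by
    refine ⟨⟨univ, univ_mem, fun g _ hg => hg⟩, univ, isCompact_univ, fun g => ⟨g, mem_univ _, ?_⟩⟩
    rw [inv_mul_cancel]
    exact (⊥ : Subgroup K).one_mem
  have hc : Continuous (fun p : K × K => p.1 * p.2⁻¹) := by fun_prop
  have h1 : (fun p : K × K => p.1 * p.2⁻¹) ⁻¹' V ∈ 𝓝 ((1 : K), (1 : K)) := by
    apply hc.continuousAt.preimage_mem_nhds
    simpa using hV
  rw [nhds_prod_eq] at h1
  obtain ⟨B, hB, hB2⟩ := Filter.mem_prod_same_iff.1 h1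
  obtain ⟨n, hn, b, hb, b', hb', γ, hγ, he⟩ := recur ⊥ hΓ κ B hB
  refine ⟨n, hn, ?_⟩
  have h2 : γ = 1 := hγ
  rw [h2, mul_one] at he
  have h3 : κ ^ n = b' * b⁻¹ := by rw [← he, mul_inv_cancel_right]
  rw [h3]
  exact hB2 (mk_mem_prod hb' hb)

variable {G : Type*} [Group G] [TopologicalSpace G] [IsTopologicalGroup G] [LocallyCompactSpace G]
  [SecondCountableTopology G] [T2Space G]

theorem isLat_prod {Γ : Subgroup G} (hΓ : IsLat Γ) : IsLat (Γ.prod (⊥ : Subgroup K)) := by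
  obtain ⟨⟨W, hW, hWΓ⟩, K', hK', hKΓ⟩ := hΓ
  refine ⟨⟨W ×ˢ univ, ?_, ?_⟩, K' ×ˢ univ, hK'.prod isCompact_univ, ?_⟩
  · rw [← Prod.mk_one_one, nhds_prod_eq]
    exact prod_mem_prod hW univ_mem
  · rintro ⟨g, k⟩ ⟨hg, -⟩ ⟨hg2, hk2⟩
    have h1 : g = 1 := hWΓ g hg hg2
    have h2 : k = 1 := hk2
    rw [h1, h2, Prod.mk_one_one]
  · rintro ⟨g, k⟩
    obtain ⟨a, ha, hag⟩ := hKΓ g
    refine ⟨(a, k), ⟨ha, mem_univ _⟩, ?_⟩
    refine Subgroup.mem_prod.2 ⟨hag, ?_⟩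
    show k⁻¹ * k ∈ (⊥ : Subgroup K)
    rw [inv_mul_cancel]
    exact Subgroup.one_mem _

theorem horo_prod {h : G} {κ : K} {g : G} (hg : g ∈ horo h) : (g, (1 : K)) ∈ horo (h, κ) := by
  have hc : Continuous (fun g : G => (g, (1 : K))) := by fun_prop
  refine Subgroup.closure_induction (p := fun g _ => (g, (1 : K)) ∈ horo (h, κ)) ?_ ?_ ?_ ?_ hg
  · rintro u (hu | hu)
    · apply Subgroup.subset_closure
      left
      have h1 := (hc.tendsto 1).comp hu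
      refine h1.congr fun n => ?_
      ext
      · simp
      · simp
    · apply Subgroup.subset_closure
      right
      have h1 := (hc.tendsto 1).comp hu
      refine h1.congr fun n => ?_
      ext
      · simp
      · simp
  · exact Subgroup.one_mem _
  · intro a b _ _ ha hb
    have := Subgroup.mul_mem _ ha hb
    rwa [Prod.mk_mul_mk, one_mul] at this
  · intro a _ ha
    have := Subgroup.inv_mem _ ha
    rwa [Prod.inv_mk, inv_one] at this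

/-- Return times `k` with `κ ^ k` close to `κ` or to `κ⁻¹`. -/
theorem ret2 {Γ : Subgroup G} (hΓ : IsLat Γ) {h : G} {κ : K}
    (hd : Dense {x : G | ∃ g ∈ horo h, ∃ γ ∈ Γ, x = g * γ})
    {B : Set G} (hB : B ∈ 𝓝 (1 : G)) {V : Set K} (hV : V ∈ 𝓝 (1 : K)) :
    ∃ k : ℕ, 1 ≤ k ∧ (κ ^ k * κ⁻¹ ∈ V ∨ κ ^ k * κ ∈ V) ∧
      ∃ b ∈ B, ∃ b' ∈ B, ∃ γ ∈ Γ, h ^ k * b = b' * γ := by
  by_cases hκ : κ = 1
  · obtain ⟨n, hn, hrest⟩ := recur Γ hΓ h B hB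
    refine ⟨n, hn, Or.inl ?_, hrest⟩
    rw [hκ, one_pow, one_mul, inv_one]
    exact mem_of_mem_nhds hV
  obtain ⟨S, hS⟩ : ∃ S : G × K, S = (h, κ) := ⟨_, rfl⟩
  -- a small neighbourhood in `K`
  obtain ⟨V₀, hV₀o, hV₀1, hV₀⟩ : ∃ V₀ : Set K, IsOpen V₀ ∧ (1 : K) ∈ V₀ ∧
      ∀ v ∈ V₀, ∀ y ∈ V₀, v * y⁻¹ ∈ V ∧ (v * y⁻¹)⁻¹ ∈ V ∧ v * y⁻¹ ≠ κ := by
    have hc : Continuous (fun p : K × K => p.1 * p.2⁻¹) := by fun_prop
    have h0 : V ∩ (fun x : K => x⁻¹) ⁻¹' V ∩ {κ}ᶜ ∈ 𝓝 (1 : K) := by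
      refine inter_mem (inter_mem hV ?_) ?_
      · apply (continuous_inv (G := K)).continuousAt.preimage_mem_nhds
        rwa [inv_one]
      · exact isOpen_compl_singleton.mem_nhds (fun h => hκ h.symm)
    have h1 : (fun p : K × K => p.1 * p.2⁻¹) ⁻¹' (V ∩ (fun x : K => x⁻¹) ⁻¹' V ∩ {κ}ᶜ) ∈
        𝓝 ((1 : K), (1 : K)) := by
      apply hc.continuousAt.preimage_mem_nhds
      simpa using h0
    rw [nhds_prod_eq] at h1
    obtain ⟨B, hB, hB2⟩ := Filter.mem_prod_same_iff.1 h1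
    obtain ⟨V₀, hV₀, hV₀o, hV₀1⟩ := mem_nhds_iff.1 hB
    refine ⟨V₀, hV₀o, hV₀1, fun v hv y hy => ?_⟩
    have h2 := hB2 (mk_mem_prod (hV₀ hv) (hV₀ hy))
    exact ⟨h2.1.1, h2.1.2, h2.2⟩
  obtain ⟨B₀, hB₀B, hB₀, h1B₀⟩ := mem_nhds_iff.1 hB
  obtain ⟨U, hUd⟩ : ∃ U : Set (G × K), U = ⋃ (j : ℤ) (γ : Γ.prod (⊥ : Subgroup K)),
      {x | S ^ j * x * (γ : G × K) ∈ B₀ ×ˢ V₀} := ⟨_, rfl⟩
  have hU : IsOpen U := by
    rw [hUd]
    refine isOpen_iUnion fun j => isOpen_iUnion fun γ => ?_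
    have hc : Continuous (fun x : G × K => S ^ j * x * (γ : G × K)) := by fun_prop
    exact (hB₀.prod hV₀o).preimage hc
  have hmem : ∀ x, x ∈ U ↔ ∃ (j : ℤ) (γ : Γ.prod (⊥ : Subgroup K)),
      S ^ j * x * (γ : G × K) ∈ B₀ ×ˢ V₀ := by
    intro x
    rw [hUd]
    simp only [mem_iUnion, mem_ofPred_eq]
  have hU1 : (1 : G × K) ∈ U := (hmem 1).2 ⟨0, 1, by
    rw [zpow_zero, one_mul, one_mul]
    exact ⟨h1B₀, hV₀1⟩⟩
  have hUΓ : ∀ x ∈ U, ∀ γ ∈ Γ.prod (⊥ : Subgroup K), x * γ ∈ U := by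
    intro x hx γ hγ
    obtain ⟨j, γ', hj⟩ := (hmem x).1 hx
    refine (hmem _).2 ⟨j, ⟨γ⁻¹ * γ', Subgroup.mul_mem _ (Subgroup.inv_mem _ hγ) γ'.2⟩, ?_⟩
    have e : S ^ j * (x * γ) * (γ⁻¹ * (γ' : G × K)) = S ^ j * x * (γ' : G × K) := by group
    show S ^ j * (x * γ) * (γ⁻¹ * (γ' : G × K)) ∈ B₀ ×ˢ V₀
    rw [e]
    exact hj
  have hUS : ∀ x, S * x ∈ U ↔ x ∈ U := by
    intro x
    rw [hmem, hmem]
    constructor
    · rintro ⟨j, γ, hj⟩
      refine ⟨j + 1, γ, ?_⟩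
      have e : S ^ (j + 1) * x = S ^ j * (S * x) := by rw [zpow_add_one, mul_assoc]
      rw [e]
      exact hj
    · rintro ⟨j, γ, hj⟩
      refine ⟨j - 1, γ, ?_⟩
      have e : S ^ (j - 1) * (S * x) = S ^ j * x := by
        rw [← mul_assoc, ← zpow_add_one]
        congr 2
        ring
      rw [e]
      exact hj
  have hcl := trans' (isLat_prod hΓ) hU hU1 hUΓ hUS
  have hh : (h⁻¹, (1 : K)) ∈ closure U := by
    apply hcl
    have hc : Continuous (fun x : G => (x, (1 : K))) := by fun_prop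
    have h1 : h⁻¹ ∈ closure {x : G | ∃ g ∈ horo h, ∃ γ ∈ Γ, x = g * γ} := by
      rw [hd.closure_eq]
      exact mem_univ _
    refine map_mem_closure (f := fun x : G => (x, (1 : K))) hc h1 ?_
    rintro x ⟨g, hg, γ, hγ, rfl⟩
    refine ⟨(g, 1), ?_, (γ, 1), Subgroup.mem_prod.2 ⟨hγ, Subgroup.one_mem _⟩, ?_⟩
    · rw [hS]
      exact horo_prod hg
    · rw [Prod.mk_mul_mk, one_mul]
  have hN : {x : G × K | h * x.1 ∈ B₀ ∧ x.2 ∈ V₀} ∈ 𝓝 (h⁻¹, (1 : K)) := by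
    have hc : Continuous (fun x : G × K => (h * x.1, x.2)) := by fun_prop
    have h1 : B₀ ×ˢ V₀ ∈ 𝓝 ((fun x : G × K => (h * x.1, x.2)) (h⁻¹, (1 : K))) := by
      rw [show (fun x : G × K => (h * x.1, x.2)) (h⁻¹, (1 : K)) = ((1 : G), (1 : K)) by simp]
      exact (hB₀.prod hV₀o).mem_nhds ⟨h1B₀, hV₀1⟩
    exact hc.continuousAt.preimage_mem_nhds h1
  obtain ⟨⟨x, y⟩, ⟨hx1, hx2⟩, hx3⟩ := mem_closure_iff_nhds.1 hh _ hN
  obtain ⟨j, ⟨⟨γ, δ⟩, hγδ⟩, hj⟩ := (hmem _).1 hx3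
  have hx1' : h * x ∈ B₀ := hx1
  have hx2' : y ∈ V₀ := hx2
  have hγ : γ ∈ Γ := (Subgroup.mem_prod.1 hγδ).1
  have hδ : δ = 1 := (Subgroup.mem_prod.1 hγδ).2
  have hj1 : h ^ j * x * γ ∈ B₀ := by
    have h1 := hj.1
    rw [hS] at h1
    simpa using h1
  have hj2 : κ ^ j * y ∈ V₀ := by
    have h1 := hj.2
    rw [hS] at h1
    simpa [hδ] using h1
  obtain ⟨c1, c2, c3⟩ := hV₀ _ hj2 _ hx2'
  rw [mul_inv_cancel_right] at c1 c2 c3
  have e1 : h ^ j * x * γ = h ^ (j - 1) * (h * x) * γ := by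
    have : h ^ j = h ^ (j - 1) * h := by
      rw [← zpow_add_one]
      congr 1
      ring
    rw [this]
    group
  rcases lt_or_ge 0 j with hj0 | hj0
  · obtain ⟨a, rfl⟩ := Int.eq_ofNat_of_zero_le hj0.le
    have ha : 1 ≤ a := by exact_mod_cast hj0
    have ha1 : a ≠ 1 := by
      rintro rfl
      apply c3
      simp
    have ha2 : 2 ≤ a := by omega
    have e2 : h ^ ((a : ℤ) - 1) = h ^ (a - 1) := by
      rw [← zpow_natCast]
      congr 1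
      push_cast [Nat.cast_sub ha]
      ring
    refine ⟨a - 1, by omega, Or.inr ?_, h * x, hB₀B hx1', _, hB₀B hj1, γ⁻¹, Γ.inv_mem hγ, ?_⟩
    · have e3 : κ ^ (a - 1) * κ = κ ^ (a : ℤ) := by
        rw [← pow_succ, zpow_natCast]
        congr 1
        omega
      rw [e3]
      exact c1
    · rw [e1, e2]
      group
  · obtain ⟨a, ha⟩ := Int.eq_ofNat_of_zero_le (neg_nonneg.2 hj0)
    have hja : j = -(a : ℤ) := by rw [← ha, neg_neg]
    have e2 : h ^ (j - 1) = (h ^ (a + 1))⁻¹ := by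
      rw [← zpow_natCast, ← zpow_neg]
      congr 1
      push_cast
      rw [hja]
      ring
    refine ⟨a + 1, by omega, Or.inl ?_, _, hB₀B hj1, h * x, hB₀B hx1', γ, hγ, ?_⟩
    · have e3 : κ ^ (a + 1) * κ⁻¹ = (κ ^ j)⁻¹ := by
        rw [pow_succ, mul_inv_cancel_right, hja, zpow_neg, zpow_natCast, inv_inv]
      rw [e3]
      exact c2
    · rw [e1, e2]
      group

end

end Pool.Agent.T6.H27.CL
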