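import Pool.Agent.T6.H27.CL.Horo
import Pool.Agent.T6.H27.CL.Ret
import Pool.Agent.T6.H27.CL.Grp

/-!
# Closing for elements which are semisimple and not elliptic
-/

set_option autoImplicit false
set_option linter.unusedSectionVars false

open Filter Set Topology NormedSpace LieAlgebra

namespace Pool.Agent.T6.H27.CL

attribute [local instance 100] LieRing.ofAssociativeRing

theorem exists_min_pos {n : ℕ} (d : Fin n → ℝ) (hd : ∀ i, 0 < d i) : ∃ δ : ℝ, 0 < δ ∧ ∀ i, δ ≤ d i := by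
  have h1 : ∀ i, (0 : ℝ) ≤ (d i)⁻¹ := fun i => (inv_pos.2 (hd i)).le
  have h2 : 0 ≤ ∑ i, (d i)⁻¹ := Finset.sum_nonneg fun i _ => h1 i
  refine ⟨(∑ i, (d i)⁻¹ + 1)⁻¹, by positivity, fun i => ?_⟩
  have h3 : (d i)⁻¹ ≤ ∑ i, (d i)⁻¹ + 1 := by
    have := Finset.single_le_sum (f := fun i => (d i)⁻¹) (fun i _ => h1 i) (Finset.mem_univ i)
    linarith
  exact inv_le_of_inv_le₀ (hd i) h3

theorem circle_cont : Continuous (fun z : Circle => (z : ℂ)) := by fun_prop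

theorem pow_sub_one_far {z : ℂ} (hz : ‖z‖ ≠ 1) : ∃ d : ℝ, 0 < d ∧ ∀ k : ℕ, 1 ≤ k → d ≤ ‖z ^ k - 1‖ := by
  rcases lt_or_gt_of_ne hz with h | h
  · refine ⟨1 - ‖z‖, by linarith, fun k hk => ?_⟩
    have h1 : ‖z‖ ^ k ≤ ‖z‖ := by
      calc ‖z‖ ^ k ≤ ‖z‖ ^ 1 := pow_le_pow_of_le_one (norm_nonneg _) h.le hk
        _ = ‖z‖ := pow_one _
    have h2 := norm_sub_norm_le (1 : ℂ) (z ^ k)
    rw [norm_one, norm_pow, norm_sub_rev] at h2
    linarith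
  · refine ⟨‖z‖ - 1, by linarith, fun k hk => ?_⟩
    have h1 : ‖z‖ ≤ ‖z‖ ^ k := by
      calc ‖z‖ = ‖z‖ ^ 1 := (pow_one _).symm
        _ ≤ ‖z‖ ^ k := pow_le_pow_right₀ h.le hk
    have h2 := norm_sub_norm_le (z ^ k) (1 : ℂ)
    rw [norm_one, norm_pow] at h2
    linarith

variable {A : Type*} [NormedRing A] [NormedAlgebra ℝ A] [CompleteSpace A] [FiniteDimensional ℝ A]
variable {G : Subgroup Aˣ} {hG : IsClosed (G : Set Aˣ)}

namespace Coord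

variable {h : G} {n : ℕ} {lam : Fin n → ℂ} {Φ : Fin n → lieA G hG →ₗ[ℝ] ℂ}
  {Ψ : Fin n → ℂ →ₗ[ℝ] lieA G hG} (C : Coord hG h n lam Φ Ψ)
include C

/-- The lower bound. -/
theorem bound {δ : ℝ} (hδ : 0 < δ) : ∃ D : ℝ, ∀ k : ℕ, (∀ i, lam i ≠ 1 → δ ≤ ‖lam i ^ k - 1‖) →
    ∀ X ∈ lieSet G, ‖Ad (h : Aˣ) X - X‖ ≤
      D * ‖Ad ((h : Aˣ) ^ k) (Ad (h : Aˣ) X - X) - (Ad (h : Aˣ) X - X)‖ := by
  have h1 : ∀ i, ∃ a : ℝ, 0 ≤ a ∧ ∀ X, ‖Φ i X‖ ≤ a * ‖X‖ := by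
    intro i
    obtain ⟨a, ha, hb⟩ := (LinearMap.toContinuousLinearMap (Φ i)).bound
    exact ⟨a, ha.le, hb⟩
  have h2 : ∀ i, ∃ a : ℝ, 0 ≤ a ∧ ∀ c, ‖Ψ i c‖ ≤ a * ‖c‖ := by
    intro i
    obtain ⟨a, ha, hb⟩ := (LinearMap.toContinuousLinearMap (Ψ i)).bound
    exact ⟨a, ha.le, hb⟩
  choose a ha0 ha using h1
  choose b hb0 hb using h2
  refine ⟨∑ i, b i * (δ⁻¹ * a i), fun k hk X hX => ?_⟩
  obtain ⟨Y, hY⟩ : ∃ Y : lieA G hG, Y = adL hG h ⟨X, hX⟩ - ⟨X, hX⟩ := ⟨_, rfl⟩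
  obtain ⟨Z, hZ⟩ : ∃ Z : lieA G hG, Z = adL hG (h ^ k) Y - Y := ⟨_, rfl⟩
  have hgoal : ‖Y‖ ≤ (∑ i, b i * (δ⁻¹ * a i)) * ‖Z‖ := by
    have h3 : ∀ i, ‖Φ i Y‖ ≤ δ⁻¹ * (a i * ‖Z‖) := by
      intro i
      have h4 : Φ i Y = (lam i - 1) * Φ i ⟨X, hX⟩ := by
        rw [hY, map_sub, C.phi]
        ring
      by_cases hi : lam i = 1
      · rw [h4, hi, sub_self, zero_mul, norm_zero]
        have := ha0 i
        positivity
      · have h5 : Φ i Z = (lam i ^ k - 1) * Φ i Y := by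
          rw [hZ, map_sub, adL_pow, C.phi_pow]
          ring
        have h6 := hk i hi
        have h7 : δ * ‖Φ i Y‖ ≤ a i * ‖Z‖ := by
          calc δ * ‖Φ i Y‖ ≤ ‖lam i ^ k - 1‖ * ‖Φ i Y‖ := by gcongr
            _ = ‖Φ i Z‖ := by rw [h5, norm_mul]
            _ ≤ a i * ‖Z‖ := ha i Z
        rw [le_inv_mul_iff₀ hδ]
        exact h7
    calc ‖Y‖ = ‖∑ i, Ψ i (Φ i Y)‖ := by rw [C.sum]
      _ ≤ ∑ i, ‖Ψ i (Φ i Y)‖ := norm_sum_le _ _
      _ ≤ ∑ i, b i * (δ⁻¹ * a i) * ‖Z‖ := by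
          refine Finset.sum_le_sum fun i _ => ?_
          calc ‖Ψ i (Φ i Y)‖ ≤ b i * ‖Φ i Y‖ := hb i _
            _ ≤ b i * (δ⁻¹ * (a i * ‖Z‖)) := by
                have := hb0 i
                have := h3 i
                gcongr
            _ = b i * (δ⁻¹ * a i) * ‖Z‖ := by ring
      _ = _ := by rw [Finset.sum_mul]
  rw [hZ, hY] at hgoal
  exact hgoal

/-- **Closing of elements which are semisimple and not elliptic.** -/
theorem gcl_hyp [ConnectedSpace G] {Γ : Subgroup G} (hΓ : IsLat Γ) (hirr : Irr Γ) {i₀ : Fin n}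
    (hi₀ : ‖lam i₀‖ ≠ 1) : GCl Γ h := by
  have : LocallyCompactSpace G := hG.isClosedEmbedding_subtypeVal.locallyCompactSpace
  have : SecondCountableTopology G :=
    (Topology.IsInducing.subtypeVal (t := (G : Set Aˣ))).secondCountableTopology
  have hd := C.horo_dense hirr hi₀
  have hκ : ∀ i, ∃ z : Circle, ‖lam i‖ = 1 → (z : ℂ) = lam i := by
    intro i
    by_cases hi : ‖lam i‖ = 1
    · exact ⟨⟨lam i, mem_sphere_zero_iff_norm.2 hi⟩, fun _ => rfl⟩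
    · exact ⟨1, fun h => absurd h hi⟩
  choose κ hκ using hκ
  -- the distance
  have hd1 : ∀ i, ∃ d : ℝ, 0 < d ∧ (lam i ≠ 1 → ‖lam i‖ = 1 → 2 * d ≤ ‖lam i - 1‖) ∧
      (‖lam i‖ ≠ 1 → ∀ k : ℕ, 1 ≤ k → d ≤ ‖lam i ^ k - 1‖) := by
    intro i
    by_cases h1 : lam i = 1
    · exact ⟨1, one_pos, fun h => absurd h1 h, fun h => absurd (by rw [h1, norm_one]) h⟩
    by_cases h2 : ‖lam i‖ = 1
    · refine ⟨‖lam i - 1‖ / 2, ?_, fun _ _ => by linarith, fun h => absurd h2 h⟩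
      have : 0 < ‖lam i - 1‖ := norm_pos_iff.2 (sub_ne_zero.2 h1)
      linarith
    · obtain ⟨d, hd, hd2⟩ := pow_sub_one_far h2
      exact ⟨d, hd, fun _ h => absurd h h2, fun _ => hd2⟩
  choose d hd0 hdA hdB using hd1
  obtain ⟨δ, hδ, hδd⟩ := exists_min_pos d hd0
  obtain ⟨V, hVd⟩ : ∃ V : Set (Fin n → Circle), V = {z | ∀ i, ‖((z i : Circle) : ℂ) - 1‖ < δ} :=
    ⟨_, rfl⟩
  have hV : V ∈ 𝓝 (1 : Fin n → Circle) := by
    have h1 : ∀ i, ∀ᶠ z : Fin n → Circle in 𝓝 1, ‖((z i : Circle) : ℂ) - 1‖ < δ := by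
      intro i
      have hc : Continuous (fun z : Fin n → Circle => ‖((z i : Circle) : ℂ) - 1‖) :=
        ((circle_cont.comp (continuous_apply i)).sub continuous_const).norm
      have h2 := hc.tendsto 1
      have h3 : ‖(((1 : Fin n → Circle) i : Circle) : ℂ) - 1‖ = 0 := by simp
      rw [h3] at h2
      exact h2.eventually (gt_mem_nhds hδ)
    rw [hVd]
    exact Filter.eventually_all.2 h1
  obtain ⟨S, hS⟩ : ∃ S : Set ℕ, S = {k | 1 ≤ k ∧ (κ ^ k * κ⁻¹ ∈ V ∨ κ ^ k * κ ∈ V)} := ⟨_, rfl⟩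
  have hbd : ∀ k ∈ S, ∀ i, lam i ≠ 1 → δ ≤ ‖lam i ^ k - 1‖ := by
    intro k hk i hi
    rw [hS] at hk
    by_cases h2 : ‖lam i‖ = 1
    · have h3 := hdA i hi h2
      have h4 := hδd i
      have h5 := hκ i h2
      have hne : lam i ≠ 0 := C.lam_ne i
      rcases hk.2 with h6 | h6
      · rw [hVd] at h6
        have h7 := h6 i
        have h8 : (((κ ^ k * κ⁻¹) i : Circle) : ℂ) = lam i ^ k * (lam i)⁻¹ := by
          simp [h5]
        rw [h8] at h7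
        have h9 : ‖lam i ^ k - lam i‖ < δ := by
          have e : lam i ^ k - lam i = (lam i ^ k * (lam i)⁻¹ - 1) * lam i := by
            rw [sub_mul, mul_assoc, inv_mul_cancel₀ hne, mul_one, one_mul]
          rw [e, norm_mul, h2, mul_one]
          exact h7
        have h10 : ‖lam i - 1‖ ≤ ‖lam i ^ k - 1‖ + ‖lam i ^ k - lam i‖ := by
          have e : lam i - 1 = (lam i ^ k - 1) - (lam i ^ k - lam i) := by ring
          rw [e]
          exact norm_sub_le _ _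
        linarith
      · rw [hVd] at h6
        have h7 := h6 i
        have h8 : (((κ ^ k * κ) i : Circle) : ℂ) = lam i ^ k * lam i := by
          simp [h5]
        rw [h8] at h7
        have h10 : ‖lam i - 1‖ ≤ ‖lam i ^ k - 1‖ + ‖lam i ^ k * lam i - 1‖ := by
          have e : lam i - 1 = (lam i ^ k * lam i - 1) - (lam i ^ k - 1) * lam i := by ring
          rw [e]
          refine (norm_sub_le _ _).trans ?_
          rw [norm_mul, h2, mul_one, add_comm]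
        linarith
    · exact (hδd i).trans (hdB i h2 k hk.1)
  obtain ⟨D, hD⟩ := C.bound hδ
  refine gcl_of_ret hG (S := S) ?_ ?_ (C := D) ?_ ?_
  · obtain ⟨k, hk1, hk2, -⟩ := ret2 hΓ (κ := κ) hd univ_mem hV
    exact ⟨k, by rw [hS]; exact ⟨hk1, hk2⟩⟩
  · intro k hk
    rw [hS] at hk
    exact hk.1
  · intro k hk X hX
    exact hD k (hbd k hk) X hX
  · intro B hB
    obtain ⟨k, hk1, hk2, hrest⟩ := ret2 hΓ (κ := κ) hd hB hV
    exact ⟨k, by rw [hS]; exact ⟨hk1, hk2⟩, hrest⟩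

end Coord

end Pool.Agent.T6.H27.CL
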