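import Mathlib

/-!
# The Jordan decomposition of an automorphism of a bilinear map

If an invertible linear map `T` preserves a bilinear map `β : V × V → V`, then `T = S exp(N)` with `S`
semisimple preserving `β` and `N` a nilpotent derivation of `β`, both commuting with everything that
commutes with `T`.
-/

set_option autoImplicit false
set_option linter.unusedSectionVars false

namespace Pool.Agent.T6.H27.CL

open Module Polynomial

theorem adj_self {B : Type*} [Ring B] [Algebra ℝ B] {a b : B} (hb : b ∈ Algebra.adjoin ℝ {a}) :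
    Commute b a := (Algebra.commute_of_mem_adjoin_self hb).symm

theorem adj_comm {B : Type*} [Ring B] [Algebra ℝ B] {a b c : B} (hb : b ∈ Algebra.adjoin ℝ {a})
    (hc : Commute c a) : Commute c b :=
  Algebra.commute_of_mem_adjoin_singleton_of_commute hb hc

theorem jc_exists {V : Type*} [AddCommGroup V] [Module ℝ V] [FiniteDimensional ℝ V]
    (T : End ℝ V) : ∃ s n : End ℝ V, s.IsSemisimple ∧ IsNilpotent n ∧ Commute s n ∧ T = s + n := by
  obtain ⟨n, hn, s, hs, hnn, hss, hT⟩ := Module.End.exists_isNilpotent_isSemisimple (f := T)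
  refine ⟨s, n, hss, hnn, ?_, by rw [hT, add_comm]⟩
  exact (adj_comm hs (adj_self hn)).symm

/-- the rational structure of a real algebra -/
@[reducible] noncomputable def qmod (B : Type*) [Ring B] [Algebra ℝ B] : Module ℚ B :=
  Module.compHom B (algebraMap ℚ ℝ)

attribute [local instance] qmod

theorem qsmul {B : Type*} [Ring B] [Algebra ℝ B] (q : ℚ) (x : B) : q • x = (q : ℝ) • x := rfl

section Comm

variable {C : Type*} [CommRing C] [Algebra ℝ C]

theorem exp_two {x : C} (hx : IsNilpotent x) : ∃ w, IsNilpotent.exp x = 1 + x + x ^ 2 * w := by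
  obtain ⟨k, hk⟩ := hx
  have hk2 : x ^ (k + 2) = 0 := by rw [pow_add, hk, zero_mul]
  refine ⟨∑ i ∈ Finset.range k, ((i + 2).factorial : ℚ)⁻¹ • x ^ i, ?_⟩
  rw [IsNilpotent.exp_eq_sum hk2, Finset.sum_range_succ', Finset.sum_range_succ', Finset.mul_sum]
  have h1 : ∀ i ∈ Finset.range k, ((i + 1 + 1).factorial : ℚ)⁻¹ • x ^ (i + 1 + 1) =
      x ^ 2 * ((i + 2).factorial : ℚ)⁻¹ • x ^ i := by
    intro i _
    rw [qsmul, qsmul, mul_smul_comm]
    congr 1
    ring
  rw [Finset.sum_congr rfl h1]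
  simp only [zero_add, Nat.factorial_one, Nat.cast_one, inv_one, one_smul, pow_one,
    Nat.factorial_zero, pow_zero]
  ring

theorem dvd_nil {ν x : C} (hν : IsNilpotent ν) (h : ν ∣ x) : IsNilpotent x := by
  obtain ⟨y, rfl⟩ := h
  exact (Commute.all _ _).isNilpotent_mul_right hν

/-- The logarithm. -/
theorem log_comm {ν : C} (hν : IsNilpotent ν) : ∃ N, ν ∣ N ∧ IsNilpotent.exp N = 1 + ν := by
  have key : ∀ j : ℕ, ∃ N, ν ∣ N ∧ ν ^ (j + 1) ∣ IsNilpotent.exp N - (1 + ν) := by
    intro j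
    induction j with
    | zero =>
      refine ⟨0, dvd_zero _, ?_⟩
      rw [IsNilpotent.exp_zero]
      exact ⟨-1, by ring⟩
    | succ j ih =>
      obtain ⟨N, hN, r, hr⟩ := ih
      obtain ⟨d, hd⟩ : ∃ d, d = ν ^ (j + 1) * r := ⟨_, rfl⟩
      rw [← hd] at hr
      have hνd : ν ∣ d := by
        rw [hd, pow_succ', mul_assoc]
        exact dvd_mul_right _ _
      refine ⟨N + -d, dvd_add hN (dvd_neg.2 hνd), ?_⟩
      rw [IsNilpotent.exp_add_of_commute (Commute.all _ _) (dvd_nil hν hN)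
        (dvd_nil hν (dvd_neg.2 hνd))]
      obtain ⟨w, hw⟩ := exp_two (dvd_nil hν (dvd_neg.2 hνd))
      have hN' : IsNilpotent.exp N = 1 + ν + d := by rw [← hr]; ring
      rw [hw, hN']
      have e : (1 + ν + d) * (1 + -d + (-d) ^ 2 * w) - (1 + ν) =
          d * (-ν) + d * d * (-1 + (1 + ν + d) * w) := by ring
      rw [e]
      have h1 : ν ^ (j + 1 + 1) ∣ d * (-ν) := by
        rw [hd]
        exact ⟨-r, by ring⟩
      have h2 : ν ^ (j + 1 + 1) ∣ d * d := by
        rw [hd]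
        exact ⟨ν ^ j * r * r, by ring⟩
      exact dvd_add h1 (h2.mul_right _)
  obtain ⟨k, hk⟩ := hν
  obtain ⟨N, hN, hN2⟩ := key k
  refine ⟨N, hN, ?_⟩
  have h1 : ν ^ (k + 1) = 0 := by rw [pow_succ, hk, zero_mul]
  rw [h1, zero_dvd_iff] at hN2
  exact sub_eq_zero.1 hN2

end Comm

section Ring

variable {B : Type*} [Ring B] [Algebra ℝ B]

/-- The logarithm, in a noncommutative algebra. -/
theorem log_nil {ν : B} (hν : IsNilpotent ν) : ∃ N ∈ Algebra.adjoin ℝ {ν}, IsNilpotent N ∧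
    IsNilpotent.exp N = 1 + ν := by
  letI : CommRing (Algebra.adjoin ℝ {ν}) := Algebra.adjoinCommRingOfComm ℝ (by
    rintro _ rfl _ rfl
    rfl)
  obtain ⟨ν', hν'⟩ : ∃ ν' : Algebra.adjoin ℝ {ν}, (ν' : B) = ν :=
    ⟨⟨ν, Algebra.self_mem_adjoin_singleton ℝ ν⟩, rfl⟩
  have h1 : IsNilpotent ν' := by
    obtain ⟨k, hk⟩ := hν
    refine ⟨k, ?_⟩
    apply Subtype.ext
    rw [SubmonoidClass.coe_pow, hν', hk]
    rfl
  obtain ⟨N, hN, hN2⟩ := log_comm h1
  have h2 := dvd_nil h1 hN
  refine ⟨N, N.2, h2.map (Algebra.adjoin ℝ {ν}).val, ?_⟩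
  have h3 := IsNilpotent.map_exp h2 (Algebra.adjoin ℝ {ν}).val
  have h4 : (Algebra.adjoin ℝ {ν}).val N = (N : B) := rfl
  rw [← h4, ← h3, hN2, map_add, map_one]
  congr 1

/-- `exp δ - 1 = δ u` with `u` invertible. -/
theorem exp_sub_one {δ : B} (hδ : IsNilpotent δ) : ∃ u : B, IsUnit u ∧
    IsNilpotent.exp δ - 1 = u * δ := by
  letI : CommRing (Algebra.adjoin ℝ {δ}) := Algebra.adjoinCommRingOfComm ℝ (by
    rintro _ rfl _ rfl
    rfl)
  obtain ⟨d, hd⟩ : ∃ d : Algebra.adjoin ℝ {δ}, (d : B) = δ :=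
    ⟨⟨δ, Algebra.self_mem_adjoin_singleton ℝ δ⟩, rfl⟩
  have h1 : IsNilpotent d := by
    obtain ⟨k, hk⟩ := hδ
    refine ⟨k, ?_⟩
    apply Subtype.ext
    rw [SubmonoidClass.coe_pow, hd, hk]
    rfl
  obtain ⟨w, hw⟩ := exp_two h1
  have h2 : IsUnit (1 + d * w) :=
    IsNilpotent.isUnit_one_add (dvd_nil h1 (dvd_mul_right d w))
  have h3 := IsNilpotent.map_exp h1 (Algebra.adjoin ℝ {δ}).val
  have h4 : ∀ x : Algebra.adjoin ℝ {δ}, (Algebra.adjoin ℝ {δ}).val x = (x : B) := fun _ => rfl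
  have h5 : IsNilpotent.exp δ = (Algebra.adjoin ℝ {δ}).val (IsNilpotent.exp d) := by
    rw [h3, h4, hd]
  have h6 : (Algebra.adjoin ℝ {δ}).val d = δ := hd
  have h7 : (1 + d + d ^ 2 * w) - 1 = (1 + d * w) * d := by ring
  have h8 := congrArg (Algebra.adjoin ℝ {δ}).val h7
  rw [map_sub, map_one, map_mul (Algebra.adjoin ℝ {δ}).val (1 + d * w) d, h6] at h8
  refine ⟨(Algebra.adjoin ℝ {δ}).val (1 + d * w), h2.map _, ?_⟩
  rw [h5, hw]
  exact h8

end Ring

section Bilin

variable {V : Type*} [AddCommGroup V] [Module ℝ V]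

/-- Kernels and Jordan decompositions. -/
theorem ker_jc {f s n : End ℝ V} (hs : s.IsSemisimple) (hn : IsNilpotent n)
    (hc : Commute s n) (hf : f = s + n) {v : V} (hv : f v = 0) : s v = 0 := by
  have hp : LinearMap.ker f ∈ s.invtSubmodule := by
    rw [Module.End.mem_invtSubmodule_iff_forall_mem_of_mem]
    intro x hx
    rw [LinearMap.mem_ker] at hx ⊢
    have h1 : Commute f s := by
      rw [hf]
      exact (Commute.refl s).add_left hc.symm
    have h2 : f (s x) = s (f x) := LinearMap.congr_fun h1.eq x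
    rw [h2, hx, map_zero]
  have h1 := hs.restrict hp
  have hp' : ∀ x ∈ LinearMap.ker f, s x ∈ LinearMap.ker f := hp
  have h2 : IsNilpotent (LinearMap.restrict s hp') := by
    obtain ⟨k, hk⟩ := hn
    refine ⟨k, ?_⟩
    have h3 : ∀ (j : ℕ) (x : LinearMap.ker f),
        (((LinearMap.restrict s hp') ^ j) x : V) = ((-1 : ℝ) ^ j) • (n ^ j) (x : V) := by
      intro j
      induction j with
      | zero => intro x; simp
      | succ j ih =>
        intro x
        rw [pow_succ, Module.End.mul_apply, ih, pow_succ, pow_succ, Module.End.mul_apply]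
        have h4 : s (x : V) = -(n (x : V)) := by
          have h5 : f (x : V) = 0 := x.2
          have h7 := LinearMap.congr_fun hf (x : V)
          rw [h5, LinearMap.add_apply] at h7
          exact eq_neg_of_add_eq_zero_left h7.symm
        have h6 : ((LinearMap.restrict s hp' x : LinearMap.ker f) : V) = s (x : V) := rfl
        rw [h6, h4, map_neg, mul_neg_one, neg_smul, smul_neg]
    ext x
    rw [h3, hk]
    simp
  have h3 := Module.End.eq_zero_of_isNilpotent_isSemisimple h2 h1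
  have h4 : ((LinearMap.restrict s hp' ⟨v, hv⟩ : LinearMap.ker f) : V) = s v := rfl
  rw [← h4, h3]
  rfl

/-- Three representations of `End V` on a space `W`, the last two of them reversing products, which
commute with each other. -/
structure Tri (V W : Type*) [AddCommGroup V] [Module ℝ V] [AddCommGroup W] [Module ℝ W] where
  P : End ℝ V →ₗ[ℝ] End ℝ W
  Qa : End ℝ V →ₗ[ℝ] End ℝ W
  Qb : End ℝ V →ₗ[ℝ] End ℝ W
  P_mul : ∀ a b, P (a * b) = P a * P b
  Qa_mul : ∀ a b, Qa (a * b) = Qa b * Qa a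
  Qb_mul : ∀ a b, Qb (a * b) = Qb b * Qb a
  P_one : P 1 = 1
  Qa_one : Qa 1 = 1
  Qb_one : Qb 1 = 1
  comm_PQa : ∀ a b, Commute (P a) (Qa b)
  comm_PQb : ∀ a b, Commute (P a) (Qb b)
  comm_QaQb : ∀ a b, Commute (Qa a) (Qb b)

variable {W : Type*} [AddCommGroup W] [Module ℝ W]

theorem lin_nil (Φ : End ℝ V →ₗ[ℝ] End ℝ W) (h : ∀ a k, Φ (a ^ k) = Φ a ^ k) {n : End ℝ V}
    (hn : IsNilpotent n) : IsNilpotent (Φ n) := by
  obtain ⟨k, hk⟩ := hn
  exact ⟨k, by rw [← h, hk, map_zero]⟩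

theorem lin_exp (Φ : End ℝ V →ₗ[ℝ] End ℝ W) (h : ∀ a k, Φ (a ^ k) = Φ a ^ k) {n : End ℝ V}
    (hn : IsNilpotent n) : Φ (IsNilpotent.exp n) = IsNilpotent.exp (Φ n) := by
  obtain ⟨k, hk⟩ := hn
  have hk2 : Φ n ^ k = 0 := by rw [← h, hk, map_zero]
  rw [IsNilpotent.exp_eq_sum hk, IsNilpotent.exp_eq_sum hk2, map_sum]
  refine Finset.sum_congr rfl fun i _ => ?_
  rw [qsmul, qsmul, map_smul, h]

theorem lin_ss [FiniteDimensional ℝ V] (Φ : End ℝ V →ₗ[ℝ] End ℝ W)
    (h : ∀ a k, Φ (a ^ k) = Φ a ^ k) {s : End ℝ V} (hs : s.IsSemisimple) : (Φ s).IsSemisimple := by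
  refine Module.End.isSemisimple_of_squarefree_aeval_eq_zero hs.minpoly_squarefree ?_
  have h1 : ∀ p : ℝ[X], aeval (Φ s) p = Φ (aeval s p) := by
    intro p
    rw [aeval_eq_sum_range, aeval_eq_sum_range, map_sum]
    refine Finset.sum_congr rfl fun i _ => ?_
    rw [map_smul, h]
  rw [h1, minpoly.aeval, map_zero]

namespace Tri

variable (t : Tri V W)

theorem P_pow (a : End ℝ V) (k : ℕ) : t.P (a ^ k) = t.P a ^ k := by
  induction k with
  | zero => rw [pow_zero, pow_zero, t.P_one]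
  | succ k ih => rw [pow_succ, t.P_mul, ih, pow_succ]
theorem Qa_pow (a : End ℝ V) (k : ℕ) : t.Qa (a ^ k) = t.Qa a ^ k := by
  induction k with
  | zero => rw [pow_zero, pow_zero, t.Qa_one]
  | succ k ih => rw [pow_succ, t.Qa_mul, ih, pow_succ']
theorem Qb_pow (a : End ℝ V) (k : ℕ) : t.Qb (a ^ k) = t.Qb a ^ k := by
  induction k with
  | zero => rw [pow_zero, pow_zero, t.Qb_one]
  | succ k ih => rw [pow_succ, t.Qb_mul, ih, pow_succ']

theorem comm_PP {a b : End ℝ V} (h : Commute a b) : Commute (t.P a) (t.P b) := by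
  rw [commute_iff_eq, ← t.P_mul, ← t.P_mul, h.eq]
theorem comm_QaQa {a b : End ℝ V} (h : Commute a b) : Commute (t.Qa a) (t.Qa b) := by
  rw [commute_iff_eq, ← t.Qa_mul, ← t.Qa_mul, h.eq]
theorem comm_QbQb {a b : End ℝ V} (h : Commute a b) : Commute (t.Qb a) (t.Qb b) := by
  rw [commute_iff_eq, ← t.Qb_mul, ← t.Qb_mul, h.eq]

/-- The semisimple part of an automorphism is an automorphism. -/
theorem ss_aut [FiniteDimensional ℝ V] [FiniteDimensional ℝ W] {T s n : End ℝ V}
    (hs : s.IsSemisimple)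
    (hn : IsNilpotent n) (hc : Commute s n) (hT : T = s + n) {β : W}
    (hβ : (t.P T - t.Qa T * t.Qb T) β = 0) : (t.P s - t.Qa s * t.Qb s) β = 0 := by
  have hcT : Commute T s := by rw [hT]; exact (Commute.refl s).add_left hc.symm
  have hcTn : Commute T n := by rw [hT]; exact hc.add_left (Commute.refl n)
  have hss : (t.P s - t.Qa s * t.Qb s).IsSemisimple := by
    refine (lin_ss t.P t.P_pow hs).sub_of_commute ?_
      ((lin_ss t.Qa t.Qa_pow hs).mul_of_commute (t.comm_QaQb s s) (lin_ss t.Qb t.Qb_pow hs))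
    exact (t.comm_PQa s s).mul_right (t.comm_PQb s s)
  have n1 : IsNilpotent (t.Qa n * t.Qb T) :=
    (t.comm_QaQb n T).isNilpotent_mul_right (lin_nil t.Qa t.Qa_pow hn)
  have n2 : IsNilpotent (t.Qa s * t.Qb n) :=
    (t.comm_QaQb s n).isNilpotent_mul_left (lin_nil t.Qb t.Qb_pow hn)
  have c12 : Commute (t.Qa n * t.Qb T) (t.Qa s * t.Qb n) := by
    refine Commute.mul_left ?_ ?_
    · exact (t.comm_QaQa hc.symm).mul_right (t.comm_QaQb n n)
    · exact (t.comm_QaQb s T).symm.mul_right (t.comm_QbQb hcTn)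
  have n3 : IsNilpotent (t.Qa n * t.Qb T + t.Qa s * t.Qb n) := c12.isNilpotent_add n1 n2
  have c3 : Commute (t.P n) (t.Qa n * t.Qb T + t.Qa s * t.Qb n) :=
    ((t.comm_PQa n n).mul_right (t.comm_PQb n T)).add_right
      ((t.comm_PQa n s).mul_right (t.comm_PQb n n))
  have hnil : IsNilpotent (t.P n - (t.Qa n * t.Qb T + t.Qa s * t.Qb n)) :=
    c3.isNilpotent_sub (lin_nil t.P t.P_pow hn) n3
  have hcomm : Commute (t.P s - t.Qa s * t.Qb s)
      (t.P n - (t.Qa n * t.Qb T + t.Qa s * t.Qb n)) := by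
    have a1a : Commute (t.P s) (t.P n) := t.comm_PP hc
    have a1b : Commute (t.P s) (t.Qa n * t.Qb T + t.Qa s * t.Qb n) :=
      ((t.comm_PQa s n).mul_right (t.comm_PQb s T)).add_right
        ((t.comm_PQa s s).mul_right (t.comm_PQb s n))
    have a1 := a1a.sub_right a1b
    have a2a : Commute (t.Qa s) (t.P n) := (t.comm_PQa n s).symm
    have a2b : Commute (t.Qa s) (t.Qa n * t.Qb T + t.Qa s * t.Qb n) :=
      ((t.comm_QaQa hc).mul_right (t.comm_QaQb s T)).add_right
        ((Commute.refl _).mul_right (t.comm_QaQb s n))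
    have a2 := a2a.sub_right a2b
    have a3a : Commute (t.Qb s) (t.P n) := (t.comm_PQb n s).symm
    have a3b : Commute (t.Qb s) (t.Qa n * t.Qb T + t.Qa s * t.Qb n) :=
      ((t.comm_QaQb n s).symm.mul_right (t.comm_QbQb hcT.symm)).add_right
        ((t.comm_QaQb s s).symm.mul_right (t.comm_QbQb hc))
    have a3 := a3a.sub_right a3b
    exact a1.sub_left (a2.mul_left a3)
  have hsum : t.P T - t.Qa T * t.Qb T =
      (t.P s - t.Qa s * t.Qb s) + (t.P n - (t.Qa n * t.Qb T + t.Qa s * t.Qb n)) := by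
    have h1 : t.P T = t.P s + t.P n := by rw [hT, map_add]
    have h2 : t.Qa T = t.Qa s + t.Qa n := by rw [hT, map_add]
    have h3 : t.Qb T = t.Qb s + t.Qb n := by rw [hT, map_add]
    rw [h1, h2, h3]
    noncomm_ring
  exact ker_jc hss hnil hcomm hsum hβ

/-- The logarithm of a unipotent automorphism is a derivation. -/
theorem log_der {N : End ℝ V} (hN : IsNilpotent N) {β : W}
    (hβ : t.P (IsNilpotent.exp N) β =
      t.Qa (IsNilpotent.exp N) (t.Qb (IsNilpotent.exp N) β)) :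
    (t.P N - (t.Qa N + t.Qb N)) β = 0 := by
  obtain ⟨δ, hδ⟩ : ∃ δ : End ℝ W, δ = t.P N - (t.Qa N + t.Qb N) := ⟨_, rfl⟩
  have nP := lin_nil t.P t.P_pow hN
  have nQa := lin_nil t.Qa t.Qa_pow hN
  have nQb := lin_nil t.Qb t.Qb_pow hN
  have nQ : IsNilpotent (t.Qa N + t.Qb N) := (t.comm_QaQb N N).isNilpotent_add nQa nQb
  have cPQ : Commute (t.P N) (t.Qa N + t.Qb N) := (t.comm_PQa N N).add_right (t.comm_PQb N N)
  have nδ : IsNilpotent δ := by
    rw [hδ]
    exact cPQ.isNilpotent_sub nP nQ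
  have cδ : Commute δ (t.Qa N + t.Qb N) := by
    rw [hδ]
    exact cPQ.sub_left (Commute.refl _)
  have h1 : IsNilpotent.exp (t.P N) = IsNilpotent.exp δ * IsNilpotent.exp (t.Qa N + t.Qb N) := by
    rw [← IsNilpotent.exp_add_of_commute cδ nδ nQ, hδ, sub_add_cancel]
  have h2 : IsNilpotent.exp (t.Qa N + t.Qb N) =
      IsNilpotent.exp (t.Qa N) * IsNilpotent.exp (t.Qb N) :=
    IsNilpotent.exp_add_of_commute (t.comm_QaQb N N) nQa nQb
  have h3 : IsNilpotent.exp (t.P N) β = IsNilpotent.exp (t.Qa N + t.Qb N) β := by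
    rw [h2, ← lin_exp t.P t.P_pow hN, ← lin_exp t.Qa t.Qa_pow hN, ← lin_exp t.Qb t.Qb_pow hN]
    exact hβ
  obtain ⟨γ, hγ⟩ : ∃ γ, γ = IsNilpotent.exp (t.Qa N + t.Qb N) β := ⟨_, rfl⟩
  have h4 : IsNilpotent.exp δ γ = γ := by
    rw [hγ, ← Module.End.mul_apply, ← h1, h3]
  obtain ⟨u, hu, hu2⟩ := exp_sub_one nδ
  have h5 : u (δ γ) = 0 := by
    rw [← Module.End.mul_apply, ← hu2, LinearMap.sub_apply, h4, Module.End.one_apply, sub_self]
  have h6 : δ γ = 0 := by
    have h7 := (Module.End.isUnit_iff u).1 hu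
    exact h7.1 (by rw [h5, map_zero])
  have h8 : Commute δ (IsNilpotent.exp (t.Qa N + t.Qb N)) := by
    obtain ⟨k, hk⟩ := nQ
    rw [IsNilpotent.exp_eq_sum hk]
    refine Commute.sum_right _ _ _ fun i _ => ?_
    rw [qsmul]
    exact (cδ.pow_right i).smul_right _
  have h9 : IsNilpotent.exp (t.Qa N + t.Qb N) (δ β) = 0 := by
    rw [← Module.End.mul_apply, ← h8.eq, Module.End.mul_apply, ← hγ, h6]
  have h10 : δ β = 0 := by
    have h7 := (Module.End.isUnit_iff _).1 (IsNilpotent.isUnit_exp nQ)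
    exact h7.1 (by rw [h9, map_zero])
  rw [← hδ]
  exact h10

end Tri

/-- The space of bilinear maps. -/
def bilTri (V : Type*) [AddCommGroup V] [Module ℝ V] : Tri V (V →ₗ[ℝ] V →ₗ[ℝ] V) where
  P :=
    { toFun := fun a =>
        { toFun := fun β => β.compr₂ a
          map_add' := fun β γ => by ext x y; simp
          map_smul' := fun c β => by ext x y; simp }
      map_add' := fun a b => by ext β x y; simp
      map_smul' := fun c a => by ext β x y; simp }
  Qa :=
    { toFun := fun a =>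
        { toFun := fun β => β ∘ₗ a
          map_add' := fun β γ => by ext x y; simp
          map_smul' := fun c β => by ext x y; simp }
      map_add' := fun a b => by ext β x y; simp
      map_smul' := fun c a => by ext β x y; simp }
  Qb :=
    { toFun := fun a =>
        { toFun := fun β => β.compl₂ a
          map_add' := fun β γ => by ext x y; simp
          map_smul' := fun c β => by ext x y; simp }
      map_add' := fun a b => by ext β x y; simp
      map_smul' := fun c a => by ext β x y; simp }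
  P_mul _ _ := by ext β x y; rfl
  Qa_mul _ _ := by ext β x y; rfl
  Qb_mul _ _ := by ext β x y; rfl
  P_one := by ext β x y; rfl
  Qa_one := by ext β x y; rfl
  Qb_one := by ext β x y; rfl
  comm_PQa _ _ := by ext β x y; rfl
  comm_PQb _ _ := by ext β x y; rfl
  comm_QaQb _ _ := by ext β x y; rfl

theorem bil_ss [FiniteDimensional ℝ V] {T s n : End ℝ V} (hs : s.IsSemisimple)
    (hn : IsNilpotent n) (hc : Commute s n) (hT : T = s + n) {β : V →ₗ[ℝ] V →ₗ[ℝ] V}
    (hβ : ∀ x y, T (β x y) = β (T x) (T y)) (x y : V) : s (β x y) = β (s x) (s y) := by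
  have h1 := (bilTri V).ss_aut hs hn hc hT (β := β) (by
    ext x y
    show T (β x y) - β (T x) (T y) = 0
    rw [hβ, sub_self])
  have h2 : s (β x y) - β (s x) (s y) = 0 := LinearMap.congr_fun (LinearMap.congr_fun h1 x) y
  exact sub_eq_zero.1 h2

theorem bil_der {N : End ℝ V} (hN : IsNilpotent N) {β : V →ₗ[ℝ] V →ₗ[ℝ] V}
    (hβ : ∀ x y, IsNilpotent.exp N (β x y) = β (IsNilpotent.exp N x) (IsNilpotent.exp N y))
    (x y : V) : N (β x y) = β (N x) y + β x (N y) := by
  have h1 := (bilTri V).log_der hN (β := β) (by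
    ext x y
    exact hβ x y)
  have h2 : N (β x y) - (β (N x) y + β x (N y)) = 0 :=
    LinearMap.congr_fun (LinearMap.congr_fun h1 x) y
  exact sub_eq_zero.1 h2

/-- **Jordan decomposition** of an automorphism of a bilinear map. -/
theorem jordan_aut [FiniteDimensional ℝ V] {T : End ℝ V} (hTu : IsUnit T)
    {β : V →ₗ[ℝ] V →ₗ[ℝ] V}
    (hβ : ∀ x y, T (β x y) = β (T x) (T y)) :
    ∃ s N : End ℝ V, s.IsSemisimple ∧ IsUnit s ∧ IsNilpotent N ∧ Commute s N ∧
      T = s * IsNilpotent.exp N ∧ IsNilpotent (T - s) ∧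
      (∀ x y, s (β x y) = β (s x) (s y)) ∧ (∀ x y, N (β x y) = β (N x) y + β x (N y)) ∧
      (N = 0 → T.IsSemisimple) := by
  obtain ⟨s, n, hss, hnn, hsn, hT'⟩ := jc_exists T
  have hsT : Commute s T := by
    rw [hT']
    exact (Commute.refl s).add_right hsn
  have hnT : Commute n T := by
    rw [hT']
    exact hsn.symm.add_right (Commute.refl n)
  have hsu : IsUnit s := by
    have h1 : s = T + -n := by rw [hT']; abel
    rw [h1]
    exact IsNilpotent.isUnit_add_left_of_commute hnn.neg hTu hnT.neg_left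
  obtain ⟨su, hsu'⟩ := hsu
  obtain ⟨ν, hν⟩ : ∃ ν : End ℝ V, ν = ((su⁻¹ : (End ℝ V)ˣ) : End ℝ V) * n := ⟨_, rfl⟩
  have hsi : Commute ((su⁻¹ : (End ℝ V)ˣ) : End ℝ V) n := by
    have h1 : Commute (su : End ℝ V) n := by rw [hsu']; exact hsn
    exact h1.units_inv_left
  have hνn : IsNilpotent ν := by
    rw [hν]
    exact hsi.isNilpotent_mul_left hnn
  have hsν : Commute s ν := by
    rw [hν]
    refine Commute.mul_right ?_ hsn
    rw [← hsu']
    exact (Commute.refl (su : End ℝ V)).units_inv_right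
  obtain ⟨N, hNm, hNn, hNe⟩ := log_nil hνn
  have hsN : Commute s N := adj_comm hNm hsν
  have hTs : T = s * IsNilpotent.exp N := by
    rw [hNe, mul_add, mul_one, hν, ← mul_assoc, ← hsu', Units.mul_inv, one_mul, hsu', hT']
  have hsaut := bil_ss hss hnn hsn hT' hβ
  refine ⟨s, N, hss, ⟨su, hsu'⟩, hNn, hsN, hTs, ?_, hsaut, ?_, ?_⟩
  · rw [hT', add_sub_cancel_left]
    exact hnn
  · apply bil_der hNn
    -- `exp N = s⁻¹ T` is an automorphism
    intro x y
    have hinj : Function.Injective s := by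
      have := (Module.End.isUnit_iff s).1 ⟨su, hsu'⟩
      exact this.1
    apply hinj
    rw [hsaut]
    have h1 : ∀ z, s (IsNilpotent.exp N z) = T z := by
      intro z
      rw [hTs]
      rfl
    rw [h1, h1, h1, hβ]
  · intro hN0
    rw [hN0, IsNilpotent.exp_zero] at hNe
    have h1 : ν = 0 := by
      have h2 : (1 : End ℝ V) + ν = 1 + 0 := by rw [add_zero]; exact hNe.symm
      exact add_left_cancel h2
    have h3 : n = 0 := by
      have h4 : n = s * ν := by
        rw [hν, ← mul_assoc, ← hsu', Units.mul_inv, one_mul]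
      rw [h4, h1, mul_zero]
    rw [hT', h3, add_zero]
    exact hss

end Bilin

end Pool.Agent.T6.H27.CL
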