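import Mathlib

/-!
# Elements which scale a nilpotent element of a semisimple Lie algebra
-/

set_option autoImplicit false
set_option linter.unusedSectionVars false

namespace Pool.Agent.T6.H27.CL

open Module LieAlgebra

section SS

variable {V : Type*} [AddCommGroup V] [Module ℝ V] [FiniteDimensional ℝ V]

theorem ss_sub_one {s : End ℝ V} (hs : s.IsSemisimple) : (s - 1).IsSemisimple := by
  have h1 := (Module.End.isSemisimple_sub_algebraMap_iff (f := s) (μ := (1 : ℝ))).2 hs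
  rwa [map_one] at h1

theorem ss_sq {f : End ℝ V} (hfs : f.IsSemisimple) {x : V} (hx : f (f x) = 0) : f x = 0 := by
  have h1 : LinearMap.ker (f ^ 2) = LinearMap.ker f := by
    have h2 := hfs.isFinitelySemisimple.genEigenspace_eq_eigenspace 0 (k := 2) (by norm_num)
    rw [Module.End.eigenspace_def] at h2
    have h3 : f.genEigenspace 0 ((2 : ℕ) : ℕ∞) = LinearMap.ker (f ^ 2) := by
      rw [Module.End.genEigenspace_nat]
      simp
    have h4 : (f.genEigenspace 0) (2 : ℕ∞) = f.genEigenspace 0 ((2 : ℕ) : ℕ∞) := rfl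
    rw [← h3, ← h4, h2]
    simp
  have h2 : x ∈ LinearMap.ker (f ^ 2) := by
    rw [LinearMap.mem_ker, pow_two]
    exact hx
  rw [h1] at h2
  exact h2

theorem ss_disj {f : End ℝ V} (hfs : f.IsSemisimple) :
    Disjoint (LinearMap.ker f) (LinearMap.range f) := by
  rw [Submodule.disjoint_def]
  rintro x hx ⟨y, rfl⟩
  exact ss_sq hfs hx

theorem ss_top {f : End ℝ V} (hfs : f.IsSemisimple) :
    LinearMap.ker f ⊔ LinearMap.range f = ⊤ := by
  have h1 := Submodule.finrank_sup_add_finrank_inf_eq (LinearMap.ker f) (LinearMap.range f)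
  rw [(ss_disj hfs).eq_bot, finrank_bot, add_zero] at h1
  apply Submodule.eq_top_of_finrank_eq
  rw [h1, add_comm]
  exact LinearMap.finrank_range_add_finrank_ker f

end SS

attribute [local instance 100] LieRing.ofAssociativeRing

variable {L : Type*} [LieRing L] [LieAlgebra ℝ L] [FiniteDimensional ℝ L] [IsKilling ℝ L]

/-- A nilpotent element is in the range of its adjoint map. -/
theorem mem_range_ad {E : L} (hE : IsNilpotent (ad ℝ L E)) : ∃ H : L, ⁅H, E⁆ = E := by
  obtain ⟨B, hB⟩ : ∃ B : LinearMap.BilinForm ℝ L, B = killingForm ℝ L := ⟨_, rfl⟩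
  have hBn : B.Nondegenerate := by
    rw [hB]
    exact LieAlgebra.IsKilling.killingForm_nondegenerate ℝ L
  have hBr : B.IsRefl := by
    rw [hB]
    exact (LieModule.traceForm_isSymm ℝ L L).isRefl
  have hmem : E ∈ LinearMap.range (ad ℝ L E) := by
    rw [← LinearMap.BilinForm.orthogonal_orthogonal hBn hBr (LinearMap.range (ad ℝ L E))]
    rw [LinearMap.BilinForm.mem_orthogonal_iff]
    intro y hy
    rw [LinearMap.BilinForm.mem_orthogonal_iff] at hy
    -- `y` centralises `E`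
    have h1 : ⁅E, y⁆ = 0 := by
      apply hBn.1
      intro x
      have h2 : B ⁅E, x⁆ y = 0 := hy _ ⟨x, rfl⟩
      rw [hB] at h2 ⊢
      have h3 := LieModule.traceForm_apply_lie_apply' ℝ L L E x y
      have h4 : killingForm ℝ L x ⁅E, y⁆ = 0 := by
        have : killingForm ℝ L ⁅E, x⁆ y = - killingForm ℝ L x ⁅E, y⁆ := h3
        rw [h2] at this
        linarith
      rw [← h4]
      exact LieModule.traceForm_comm ℝ L L _ _
    have hcomm : Commute (ad ℝ L y) (ad ℝ L E) := by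
      rw [commute_iff_eq, ← sub_eq_zero]
      have h2 : ⁅ad ℝ L E, ad ℝ L y⁆ = 0 := by
        rw [← LieHom.map_lie, h1, map_zero]
      have h3 : ad ℝ L E * ad ℝ L y - ad ℝ L y * ad ℝ L E = 0 := h2
      rw [← neg_eq_zero, neg_sub]
      exact h3
    have hnil : IsNilpotent (ad ℝ L y ∘ₗ ad ℝ L E) :=
      hcomm.isNilpotent_mul_left hE
    have h5 := LinearMap.isNilpotent_trace_of_isNilpotent hnil
    have h6 : LinearMap.trace ℝ L (ad ℝ L y ∘ₗ ad ℝ L E) = 0 := h5.eq_zero
    show B y E = 0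
    rw [hB]
    exact h6
  obtain ⟨x, hx⟩ := hmem
  refine ⟨-x, ?_⟩
  rw [← lie_skew, lie_neg, neg_neg]
  exact hx

/-- The element of the previous theorem can be chosen to be fixed by a semisimple automorphism. -/
theorem exists_scale (s : L →ₗ[ℝ] L) (hs : Module.End.IsSemisimple s)
    (haut : ∀ x y, s ⁅x, y⁆ = ⁅s x, s y⁆) {E : L} (hsE : s E = E)
    (hE : IsNilpotent (ad ℝ L E)) : ∃ H : L, ⁅H, E⁆ = E ∧ s H = H := by
  obtain ⟨H₀, hH₀⟩ := mem_range_ad hE
  obtain ⟨f, hf⟩ : ∃ f : End ℝ L, f = s - 1 := ⟨_, rfl⟩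
  have hfs : f.IsSemisimple := by
    rw [hf]
    exact ss_sub_one hs
  have hfa : ∀ x, f x = s x - x := fun x => by
    rw [hf]
    rfl
  obtain ⟨H, hH, R, hR, hHR⟩ := Submodule.mem_sup.1 (ss_top hfs ▸ Submodule.mem_top : H₀ ∈ _)
  obtain ⟨R', rfl⟩ := hR
  have hsH : s H = H := by
    have h1 : f H = 0 := hH
    rw [hfa] at h1
    exact sub_eq_zero.1 h1
  refine ⟨H, ?_, hsH⟩
  have h1 : ⁅f R', E⁆ = E - ⁅H, E⁆ := by
    have h2 : ⁅H + f R', E⁆ = E := by rw [hHR, hH₀]
    rw [add_lie] at h2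
    rw [eq_sub_iff_add_eq, add_comm]
    exact h2
  have h2 : ⁅f R', E⁆ ∈ LinearMap.range f := by
    refine ⟨⁅R', E⁆, ?_⟩
    rw [hfa, hfa, haut, hsE, sub_lie]
  have h3 : ⁅f R', E⁆ ∈ LinearMap.ker f := by
    rw [h1, LinearMap.mem_ker, hfa, map_sub, haut, hsE, hsH]
    abel
  have h4 := (Submodule.disjoint_def.1 (ss_disj hfs)) _ h3 h2
  rw [h4, eq_comm, sub_eq_zero] at h1
  exact h1.symm

end Pool.Agent.T6.H27.CL
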