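import Pool.Agent.T6.H27.CL.Alg
import Pool.Agent.T6.H27.CL.Kill
import Pool.Agent.T6.H27.CL.Jordan

/-!
# The adjoint representation on the Lie algebra
-/

set_option autoImplicit false
set_option linter.unusedSectionVars false

open Filter Set Topology NormedSpace LieAlgebra

namespace Pool.Agent.T6.H27.CL

attribute [local instance 100] LieRing.ofAssociativeRing
attribute [local instance] qmod

variable {A : Type*} [NormedRing A] [NormedAlgebra ℝ A] [CompleteSpace A] [FiniteDimensional ℝ A]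

/-- The Lie algebra of a closed subgroup. -/
def lieA (G : Subgroup Aˣ) (hG : IsClosed (G : Set Aˣ)) : LieSubalgebra ℝ A :=
  { lie G hG with lie_mem' := fun hX hY => lie_bracket hG hX hY }

variable {G : Subgroup Aˣ} (hG : IsClosed (G : Set Aˣ))

theorem lieA_lie (X Y : lieA G hG) : ((⁅X, Y⁆ : lieA G hG) : A) = X * Y - Y * X := rfl

/-- The adjoint action on the Lie algebra. -/
noncomputable def adL (u : G) : Module.End ℝ (lieA G hG) where
  toFun X := ⟨Ad (u : Aˣ) (X : A), lie_Ad X.2 u.2⟩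
  map_add' X Y := Subtype.ext (map_add (Ad (u : Aˣ)) (X : A) (Y : A))
  map_smul' c X := Subtype.ext (map_smul (Ad (u : Aˣ)) c (X : A))

theorem adL_coe (u : G) (X : lieA G hG) : ((adL hG u X : lieA G hG) : A) = Ad (u : Aˣ) (X : A) := rfl

theorem adL_mul (u v : G) : adL hG (u * v) = adL hG u * adL hG v := by
  ext X
  exact Ad_mul (u : Aˣ) (v : Aˣ) (X : A)

theorem adL_one : adL hG (1 : G) = 1 := by
  ext X
  exact Ad_one (X : A)

theorem adL_pow (u : G) (n : ℕ) : adL hG (u ^ n) = adL hG u ^ n := by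
  induction n with
  | zero => rw [pow_zero, pow_zero, adL_one]
  | succ n ih => rw [pow_succ, adL_mul, ih, pow_succ]

theorem adL_unit (u : G) : IsUnit (adL hG u) :=
  ⟨⟨adL hG u, adL hG u⁻¹, by rw [← adL_mul, mul_inv_cancel, adL_one],
    by rw [← adL_mul, inv_mul_cancel, adL_one]⟩, rfl⟩

theorem adL_lie (u : G) (X Y : lieA G hG) : adL hG u ⁅X, Y⁆ = ⁅adL hG u X, adL hG u Y⁆ := by
  apply Subtype.ext
  rw [adL_coe, lieA_lie, lieA_lie, adL_coe, adL_coe]
  simp only [Ad_apply, mul_sub, sub_mul]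
  have h1 : (((u : Aˣ)⁻¹ : Aˣ) : A) * ((u : Aˣ) : A) = 1 := Units.inv_mul _
  have h2 : ∀ X Y : A, ((u : Aˣ) : A) * (X * Y) * (((u : Aˣ)⁻¹ : Aˣ) : A) =
      ((u : Aˣ) : A) * X * (((u : Aˣ)⁻¹ : Aˣ) : A) *
        (((u : Aˣ) : A) * Y * (((u : Aˣ)⁻¹ : Aˣ) : A)) := by
    intro X Y
    calc _ = ((u : Aˣ) : A) * X * 1 * Y * (((u : Aˣ)⁻¹ : Aˣ) : A) := by
          simp only [mul_assoc, mul_one]
      _ = _ := by
          rw [← h1]
          simp only [mul_assoc]
  rw [h2, h2]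

/-- The exponential, with values in the group. -/
noncomputable def eL {hG : IsClosed (G : Set Aˣ)} (X : lieA G hG) : G := ⟨eu (X : A), lie_eu X.2⟩

theorem eL_val (X : lieA G hG) : ((eL X : G) : Aˣ) = eu (X : A) := rfl

theorem eL_conj (u : G) (X : lieA G hG) : u * eL X * u⁻¹ = eL (adL hG u X) :=
  Subtype.ext (eu_conj' (u : Aˣ) (X : A))

theorem eL_comm {u : G} {X : lieA G hG} (h : adL hG u X = X) : Commute u (eL X) := by
  have h1 := eL_conj hG u X
  rw [h] at h1
  exact mul_inv_eq_iff_eq_mul.1 h1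

theorem eL_zero : eL (0 : lieA G hG) = 1 := Subtype.ext eu_zero

theorem eL_neg (X : lieA G hG) : eL (-X) = (eL X)⁻¹ := Subtype.ext (eu_neg (X : A))

theorem eL_cont : Continuous (eL : lieA G hG → G) :=
  Continuous.subtype_mk (eu_cont.comp continuous_subtype_val) _

theorem adL_eL_curve {V : lieA G hG} (S : ℝ → lieA G hG) (hS : ∀ t, HasDerivAt S ⁅V, S t⁆ t) :
    adL hG (eL V) (S 0) = S 1 := by
  apply Subtype.ext
  rw [adL_coe, eL_val]
  refine ad_curve (fun t => ((S t : lieA G hG) : A)) fun t => ?_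
  have h1 : HasFDerivAt (fun X : lieA G hG => (X : A)) ((lie G hG).subtypeL) (S t) :=
    (lie G hG).subtypeL.hasFDerivAt
  exact h1.comp_hasDerivAt t (hS t)

theorem adL_eL_scale {V E : lieA G hG} {ε : ℝ} (h : ⁅V, E⁆ = ε • E) :
    adL hG (eL V) E = Real.exp ε • E := by
  have h1 := adL_eL_curve hG (V := V) (fun t => Real.exp (ε * t) • E) (fun t => by
    rw [_root_.lie_smul, h, smul_smul]
    have h2 : HasDerivAt (fun t : ℝ => Real.exp (ε * t)) (Real.exp (ε * t) * ε) t := by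
      have h3 := ((hasDerivAt_id t).const_mul ε).exp
      simpa using h3
    exact h2.smul_const E)
  simpa using h1

theorem adL_eL_nil {E : lieA G hG} (hE : IsNilpotent (ad ℝ (lieA G hG) E)) :
    adL hG (eL E) = IsNilpotent.exp (ad ℝ (lieA G hG) E) := by
  obtain ⟨N, hN⟩ : ∃ N, N = ad ℝ (lieA G hG) E := ⟨_, rfl⟩
  rw [← hN] at hE ⊢
  obtain ⟨k, hk⟩ := hE
  have hk1 : N ^ (k + 1) = 0 := by rw [pow_succ, hk, zero_mul]
  ext X
  have h1 := adL_eL_curve hG (V := E)
    (fun t => ∑ i ∈ Finset.range (k + 1), (t ^ i * ((i.factorial : ℝ)⁻¹)) • (N ^ i) X) (fun t => by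
      have h2 : HasDerivAt (fun t : ℝ => ∑ i ∈ Finset.range (k + 1),
          (t ^ i * ((i.factorial : ℝ)⁻¹)) • (N ^ i) X)
          (∑ i ∈ Finset.range (k + 1), ((i : ℝ) * t ^ (i - 1) * ((i.factorial : ℝ)⁻¹)) • (N ^ i) X) t := by
        apply HasDerivAt.fun_sum
        intro i _
        exact ((hasDerivAt_pow i t).mul_const _).smul_const _
      refine h2.congr_deriv ?_
      rw [Finset.sum_range_succ']
      have h3 : ⁅E, ∑ i ∈ Finset.range (k + 1), (t ^ i * ((i.factorial : ℝ)⁻¹)) • (N ^ i) X⁆ =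
          N (∑ i ∈ Finset.range (k + 1), (t ^ i * ((i.factorial : ℝ)⁻¹)) • (N ^ i) X) := by
        rw [hN]
        rfl
      rw [h3, map_sum, Finset.sum_range_succ]
      have h4 : ∀ i : ℕ, N ((N ^ i) X) = (N ^ (i + 1)) X := by
        intro i
        rw [pow_succ', Module.End.mul_apply]
      simp only [map_smul, h4]
      have h5 : (N ^ (k + 1)) X = 0 := by rw [hk1]; rfl
      rw [h5, smul_zero, add_zero]
      have h6 : (((0 : ℕ) : ℝ) * t ^ (0 - 1) * (((0 : ℕ).factorial : ℝ)⁻¹)) • (N ^ 0) X = 0 := by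
        rw [Nat.cast_zero, zero_mul, zero_mul, zero_smul]
      rw [h6, add_zero]
      refine Finset.sum_congr rfl fun i _ => ?_
      congr 1
      rw [Nat.add_sub_cancel, Nat.factorial_succ]
      push_cast
      have h7 : ((i.factorial : ℝ)) ≠ 0 := by positivity
      have h8 : ((i : ℝ) + 1) ≠ 0 := by positivity
      field_simp)
  have h9 : (∑ i ∈ Finset.range (k + 1), ((0 : ℝ) ^ i * ((i.factorial : ℝ)⁻¹)) • (N ^ i) X)
      = X := by
    rw [Finset.sum_range_succ']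
    simp
  rw [h9] at h1
  rw [h1, IsNilpotent.exp_eq_sum hk1, LinearMap.sum_apply]
  refine congrArg _ (Finset.sum_congr rfl fun i _ => ?_)
  rw [qsmul, one_pow, one_mul]
  push_cast
  rfl

/-- Continuity of the adjoint action. -/
theorem adL_near (u : G) {ε : ℝ} (hε : 0 < ε) : ∀ᶠ v : G in 𝓝 u, ∀ X : lieA G hG,
    ‖adL hG v X - adL hG u X‖ ≤ ε * ‖X‖ := by
  have hc : Continuous (fun v : G => Ad (v : Aˣ)) := by
    have h1 : Continuous (fun v : G => ((v : Aˣ) : A)) :=
      Units.continuous_val.comp continuous_subtype_val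
    have h2 : Continuous (fun v : G => (((v : Aˣ)⁻¹ : Aˣ) : A)) :=
      Units.continuous_val.comp (continuous_inv.comp continuous_subtype_val)
    exact ((ContinuousLinearMap.mulLeftRight ℝ A).continuous.comp h1).clm_apply h2
  have h1 : ∀ᶠ v : G in 𝓝 u, ‖Ad (v : Aˣ) - Ad (u : Aˣ)‖ < ε := by
    have h2 : Tendsto (fun v : G => ‖Ad (v : Aˣ) - Ad (u : Aˣ)‖) (𝓝 u) (𝓝 0) := by
      have h3 := ((hc.tendsto u).sub_const (Ad (u : Aˣ))).norm
      simpa using h3
    exact h2.eventually (gt_mem_nhds hε)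
  filter_upwards [h1] with v hv X
  have h2 : ‖(Ad (v : Aˣ) - Ad (u : Aˣ)) (X : A)‖ ≤ ‖Ad (v : Aˣ) - Ad (u : Aˣ)‖ * ‖(X : A)‖ :=
    ContinuousLinearMap.le_opNorm _ _
  refine h2.trans ?_
  show _ ≤ ε * ‖(X : A)‖
  gcongr

end Pool.Agent.T6.H27.CL
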