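import Mathlib

/-!
# Closed subgroups of the group of units of a finite dimensional real algebra
-/

set_option autoImplicit false
set_option linter.unusedSectionVars false

open Filter Set Topology NormedSpace

namespace Pool.Agent.T6.H27.CL

section Exp

variable {A : Type*} [NormedRing A] [NormedAlgebra ℝ A] [CompleteSpace A]

theorem exp_add' {x y : A} (h : Commute x y) : exp (x + y) = exp x * exp y := by
  letI := NormedAlgebra.restrictScalars ℚ ℝ A
  exact exp_add_of_commute h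

theorem exp_mul_exp_neg (X : A) : exp X * exp (-X) = 1 := by
  rw [← exp_add' (Commute.refl X).neg_right, add_neg_cancel, exp_zero]

theorem exp_neg_mul_exp (X : A) : exp (-X) * exp X = 1 := by
  rw [← exp_add' (Commute.refl X).neg_left, neg_add_cancel, exp_zero]

theorem exp_cont : Continuous (exp : A → A) := by
  letI := NormedAlgebra.restrictScalars ℚ ℝ A
  exact exp_continuous

/-- The exponential, as a unit. -/
noncomputable def eu (X : A) : Aˣ := ⟨exp X, exp (-X), exp_mul_exp_neg X, exp_neg_mul_exp X⟩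

theorem eu_val (X : A) : (eu X : A) = exp X := rfl

theorem eu_zero : eu (0 : A) = 1 := by
  apply Units.ext
  rw [eu_val, exp_zero, Units.val_one]

theorem eu_add {X Y : A} (h : Commute X Y) : eu (X + Y) = eu X * eu Y := by
  apply Units.ext
  rw [eu_val, Units.val_mul, eu_val, eu_val, exp_add' h]

theorem eu_neg (X : A) : eu (-X) = (eu X)⁻¹ := by
  rw [eq_comm, inv_eq_iff_mul_eq_one, ← eu_add (Commute.refl X).neg_right, add_neg_cancel, eu_zero]

theorem eu_nsmul (n : ℕ) (X : A) : eu (n • X) = eu X ^ n := by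
  induction n with
  | zero => rw [zero_smul, pow_zero, eu_zero]
  | succ n ih => rw [succ_nsmul, pow_succ, eu_add ((Commute.refl X).smul_left n), ih]

theorem eu_conj (u : Aˣ) (X : A) : u * eu X * u⁻¹ = eu ((u : A) * X * ((u⁻¹ : Aˣ) : A)) := by
  letI := NormedAlgebra.restrictScalars ℚ ℝ A
  apply Units.ext
  rw [Units.val_mul, Units.val_mul, eu_val, eu_val, exp_units_conj]

theorem eu_cont : Continuous (eu : A → Aˣ) := by
  rw [Units.isOpenEmbedding_val.isInducing.continuous_iff]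
  exact exp_cont

/-- The adjoint action. -/
noncomputable def Ad (u : Aˣ) : A →L[ℝ] A :=
  ContinuousLinearMap.mulLeftRight ℝ A (u : A) ((u⁻¹ : Aˣ) : A)

theorem Ad_apply (u : Aˣ) (X : A) : Ad u X = (u : A) * X * ((u⁻¹ : Aˣ) : A) := rfl

theorem Ad_mul (u v : Aˣ) (X : A) : Ad (u * v) X = Ad u (Ad v X) := by
  simp only [Ad_apply, Units.val_mul, mul_inv_rev, mul_assoc]

theorem Ad_one (X : A) : Ad (1 : Aˣ) X = X := by
  simp [Ad_apply]

theorem Ad_pow (u : Aˣ) (n : ℕ) (X : A) : Ad (u ^ n) X = (Ad u)^[n] X := by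
  induction n generalizing X with
  | zero => rw [pow_zero, Ad_one]; rfl
  | succ n ih => rw [pow_succ, Ad_mul, ih, Function.iterate_succ_apply]

theorem eu_conj' (u : Aˣ) (X : A) : u * eu X * u⁻¹ = eu (Ad u X) := eu_conj u X

/-- A local logarithm. -/
theorem exists_log : ∃ lg : A → A, lg 1 = 0 ∧ HasStrictFDerivAt lg (1 : A →L[ℝ] A) 1 ∧
    ∀ᶠ y in 𝓝 (1 : A), exp (lg y) = y := by
  have h0 : HasStrictFDerivAt (exp : A → A)
      ((ContinuousLinearEquiv.refl ℝ A : A ≃L[ℝ] A) : A →L[ℝ] A) 0 := hasStrictFDerivAt_exp_zero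
  have h1 := h0.localInverse_apply_image
  have h2 := h0.to_localInverse
  have h3 := h0.eventually_right_inverse
  rw [exp_zero] at h1 h2 h3
  exact ⟨_, h1, h2, h3⟩

/-- The directions of the one-parameter subgroups of a group. -/
def lieSet (G : Subgroup Aˣ) : Set A := {X | ∀ t : ℝ, eu (t • X) ∈ G}

theorem lie_smul {G : Subgroup Aˣ} {X : A} (h : X ∈ lieSet G) (s : ℝ) : s • X ∈ lieSet G := by
  intro t
  rw [smul_smul]
  exact h _

theorem lie_eu {G : Subgroup Aˣ} {X : A} (h : X ∈ lieSet G) : eu X ∈ G := by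
  have := h 1
  rwa [one_smul] at this

theorem lie_Ad {G : Subgroup Aˣ} {X : A} (h : X ∈ lieSet G) {u : Aˣ} (hu : u ∈ G) :
    Ad u X ∈ lieSet G := by
  intro t
  have h1 : t • Ad u X = Ad u (t • X) := (map_smul (Ad u) t X).symm
  rw [h1, ← eu_conj']
  exact G.mul_mem (G.mul_mem hu (h t)) (G.inv_mem hu)

theorem mem_of_seq {G : Subgroup Aˣ} (hG : IsClosed (G : Set Aˣ)) (Z : ℕ → A) (m : ℕ → ℕ) (W : A)
    (hZ : ∀ᶠ i in atTop, eu (Z i) ∈ G) (hW : Tendsto (fun i => m i • Z i) atTop (𝓝 W)) :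
    eu W ∈ G := by
  have h1 : Tendsto (fun i => eu (m i • Z i)) atTop (𝓝 (eu W)) := (eu_cont.tendsto W).comp hW
  refine hG.mem_of_tendsto h1 (hZ.mono fun i hi => ?_)
  rw [eu_nsmul]
  exact G.pow_mem hi _

theorem lie_add_aux {G : Subgroup Aˣ} (hG : IsClosed (G : Set Aˣ)) {X Y : A} (hX : X ∈ lieSet G)
    (hY : Y ∈ lieSet G) : eu (X + Y) ∈ G := by
  obtain ⟨lg, hlg0, hlg, hexp⟩ := exists_log (A := A)
  let φ : ℝ → A := fun s => exp (s • X) * exp (s • Y)
  have hφ0 : φ 0 = 1 := by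
    show exp ((0 : ℝ) • X) * exp ((0 : ℝ) • Y) = 1
    rw [zero_smul, zero_smul, exp_zero, mul_one]
  have hE : ∀ Z : A, HasDerivAt (fun s : ℝ => exp (s • Z)) Z 0 := by
    intro Z
    have h1 := hasDerivAt_exp_smul_const (𝕂 := ℝ) Z 0
    rwa [zero_smul, exp_zero, one_mul] at h1
  have hφ : HasDerivAt φ (X + Y) 0 := by
    have h1 := (hE X).mul (hE Y)
    simp only [zero_smul, exp_zero, mul_one, one_mul] at h1
    exact h1
  have hl : HasDerivAt (fun s => lg (φ s)) (X + Y) 0 := by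
    have h1 : HasFDerivAt lg (1 : A →L[ℝ] A) (φ 0) := by
      rw [hφ0]
      exact hlg.hasFDerivAt
    exact h1.comp_hasDerivAt (0 : ℝ) hφ
  have ht := hasDerivAt_iff_tendsto_slope_zero.1 hl
  have hs : Tendsto (fun n : ℕ => ((n : ℝ) + 1)⁻¹) atTop (𝓝[≠] 0) := by
    refine tendsto_nhdsWithin_iff.2 ⟨?_, Eventually.of_forall fun n => ?_⟩
    · have := tendsto_one_div_add_atTop_nhds_zero_nat (𝕜 := ℝ)
      simpa using this
    · have : (0 : ℝ) < (n : ℝ) + 1 := by positivity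
      exact (inv_pos.2 this).ne'
  have h2 := ht.comp hs
  have h3 : Tendsto (fun n : ℕ => (n + 1) • lg (φ (((n : ℝ) + 1)⁻¹))) atTop (𝓝 (X + Y)) := by
    refine h2.congr fun n => ?_
    show (((n : ℝ) + 1)⁻¹)⁻¹ • (lg (φ (0 + ((n : ℝ) + 1)⁻¹)) - lg (φ 0)) = _
    rw [inv_inv, zero_add, hφ0, hlg0, sub_zero, ← Nat.cast_smul_eq_nsmul ℝ]
    congr 1
    push_cast
    ring
  refine mem_of_seq hG _ _ _ ?_ h3
  have hφc : Tendsto (fun n : ℕ => φ (((n : ℝ) + 1)⁻¹)) atTop (𝓝 1) := by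
    have h4 : ContinuousAt φ 0 := hφ.continuousAt
    have h5 := h4.tendsto.comp (tendsto_nhds_of_tendsto_nhdsWithin hs)
    rwa [hφ0] at h5
  filter_upwards [hφc.eventually hexp] with n hn
  have h6 : eu (lg (φ (((n : ℝ) + 1)⁻¹))) = eu ((((n : ℝ) + 1)⁻¹) • X) * eu ((((n : ℝ) + 1)⁻¹) • Y) := by
    apply Units.ext
    rw [eu_val, hn, Units.val_mul, eu_val, eu_val]
  rw [h6]
  exact G.mul_mem (hX _) (hY _)

/-- The Lie algebra of a closed subgroup. -/
def lie (G : Subgroup Aˣ) (hG : IsClosed (G : Set Aˣ)) : Submodule ℝ A where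
  carrier := lieSet G
  add_mem' := by
    intro X Y hX hY t
    rw [smul_add]
    exact lie_add_aux hG (lie_smul hX t) (lie_smul hY t)
  zero_mem' := by
    intro t
    rw [smul_zero, eu_zero]
    exact G.one_mem
  smul_mem' := fun s X hX => lie_smul hX s

theorem mem_lie {G : Subgroup Aˣ} {hG : IsClosed (G : Set Aˣ)} {X : A} :
    X ∈ lie G hG ↔ X ∈ lieSet G := Iff.rfl

theorem lie_of_dir {G : Subgroup Aˣ} (hG : IsClosed (G : Set Aˣ)) (Z : ℕ → A) (W : A)
    (hZ0 : Tendsto Z atTop (𝓝 0)) (hZ : ∀ i, Z i ≠ 0) (hZG : ∀ i, eu (Z i) ∈ G)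
    (hW : Tendsto (fun i => ‖Z i‖⁻¹ • Z i) atTop (𝓝 W)) : W ∈ lieSet G := by
  have key : ∀ t : ℝ, 0 ≤ t → eu (t • W) ∈ G := by
    intro t ht
    refine mem_of_seq hG Z (fun i => ⌊t / ‖Z i‖⌋₊) _ (Eventually.of_forall hZG) ?_
    have h1 : Tendsto (fun i => ((⌊t / ‖Z i‖⌋₊ : ℝ) * ‖Z i‖)) atTop (𝓝 t) := by
      have h2 : Tendsto (fun i => t - ‖Z i‖) atTop (𝓝 t) := by
        have h3 := hZ0.norm
        rw [norm_zero] at h3
        have h4 := (tendsto_const_nhds (x := t)).sub h3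
        rwa [sub_zero] at h4
      refine tendsto_of_tendsto_of_tendsto_of_le_of_le h2 tendsto_const_nhds (fun i => ?_)
        (fun i => ?_)
      · have hpos : 0 < ‖Z i‖ := norm_pos_iff.2 (hZ i)
        have h5 : t / ‖Z i‖ < (⌊t / ‖Z i‖⌋₊ : ℝ) + 1 := Nat.lt_floor_add_one _
        have h6 : t < ((⌊t / ‖Z i‖⌋₊ : ℝ) + 1) * ‖Z i‖ := (div_lt_iff₀ hpos).1 h5
        show t - ‖Z i‖ ≤ _
        nlinarith
      · have hpos : 0 < ‖Z i‖ := norm_pos_iff.2 (hZ i)
        have h5 : (⌊t / ‖Z i‖⌋₊ : ℝ) ≤ t / ‖Z i‖ := Nat.floor_le (by positivity)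
        exact (le_div_iff₀ hpos).1 h5
    have h7 := h1.smul hW
    refine h7.congr fun i => ?_
    have hpos : ‖Z i‖ ≠ 0 := (norm_pos_iff.2 (hZ i)).ne'
    rw [smul_smul, mul_assoc, mul_inv_cancel₀ hpos, mul_one, Nat.cast_smul_eq_nsmul]
  intro t
  rcases le_total 0 t with h | h
  · exact key t h
  · have h1 := key (-t) (by linarith)
    rw [neg_smul, eu_neg] at h1
    have h2 := G.inv_mem h1
    rwa [inv_inv] at h2

end Exp

section FD

variable {A : Type*} [NormedRing A] [NormedAlgebra ℝ A] [CompleteSpace A] [FiniteDimensional ℝ A]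

/-- Small elements of a complement of the Lie algebra do not exponentiate into the group. -/
theorem small_compl {G : Subgroup Aˣ} (hG : IsClosed (G : Set Aˣ)) (P : Submodule ℝ A)
    (hP : Disjoint (lie G hG) P) : ∃ ε : ℝ, 0 < ε ∧ ∀ M ∈ P, ‖M‖ < ε → eu M ∈ G → M = 0 := by
  by_contra hcon
  push Not at hcon
  have h1 : ∀ n : ℕ, ∃ M ∈ P, ‖M‖ < 1 / ((n : ℝ) + 1) ∧ eu M ∈ G ∧ M ≠ 0 := fun n =>
    hcon _ (by positivity)
  choose M hMP hMn hMG hM0 using h1
  have hlim : Tendsto M atTop (𝓝 0) := by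
    rw [tendsto_zero_iff_norm_tendsto_zero]
    exact squeeze_zero (fun n => norm_nonneg _) (fun n => (hMn n).le)
      tendsto_one_div_add_atTop_nhds_zero_nat
  obtain ⟨D, hD⟩ : ∃ D : ℕ → A, ∀ n, D n = ‖M n‖⁻¹ • M n := ⟨_, fun _ => rfl⟩
  have hDn : ∀ n, ‖D n‖ = 1 := by
    intro n
    rw [hD, norm_smul, norm_inv, norm_norm, inv_mul_cancel₀ (norm_pos_iff.2 (hM0 n)).ne']
  have : ProperSpace A := FiniteDimensional.proper ℝ A
  obtain ⟨W, hW, φ, hφ, hlimD⟩ := (isCompact_sphere (0 : A) 1).tendsto_subseq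
    (x := D) (fun n => by rw [mem_sphere_zero_iff_norm]; exact hDn n)
  have hWn : ‖W‖ = 1 := by rwa [mem_sphere_zero_iff_norm] at hW
  have hWP : W ∈ P := by
    have hcl : IsClosed (P : Set A) := P.closed_of_finiteDimensional
    refine hcl.mem_of_tendsto hlimD (Eventually.of_forall fun i => ?_)
    show D (φ i) ∈ P
    rw [hD]
    exact P.smul_mem _ (hMP _)
  have hWL : W ∈ lieSet G := by
    refine lie_of_dir hG (fun i => M (φ i)) W (hlim.comp hφ.tendsto_atTop) (fun i => hM0 _)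
      (fun i => hMG _) ?_
    refine hlimD.congr fun i => ?_
    show D (φ i) = _
    rw [hD]
  have hW0 : W = 0 := by
    have := (Submodule.disjoint_def.1 hP) W hWL hWP
    exact this
  rw [hW0, norm_zero] at hWn
  exact zero_ne_one hWn

/-- The units near `1` of a closed subgroup. -/
instance : LocallyCompactSpace Aˣ := by
  have : ProperSpace A := FiniteDimensional.proper ℝ A
  exact (Units.isOpenEmbedding_val (R := A)).locallyCompactSpace

instance : SecondCountableTopology Aˣ := by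
  have : ProperSpace A := FiniteDimensional.proper ℝ A
  have : SecondCountableTopology A := inferInstance
  exact (Units.isOpenEmbedding_val (R := A)).isInducing.secondCountableTopology

end FD

end Pool.Agent.T6.H27.CL
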