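import Pool.Agent.T6.H27.CL.EllB

/-!
# Tame lattices
-/

set_option autoImplicit false
set_option linter.unusedSectionVars false

open Filter Set Topology NormedSpace

namespace Pool.Agent.T6.H27.CL

attribute [local instance 100] LieRing.ofAssociativeRing

section Defs

variable {A : Type*} [NormedRing A] [NormedAlgebra ℝ A] [CompleteSpace A]

/-- `Γ` is a discrete cocompact subgroup of `G`. -/
def IsLattice (Γ G : Subgroup Aˣ) : Prop :=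
  Γ ≤ G ∧ (∃ W ∈ 𝓝 (1 : Aˣ), ∀ g ∈ W, g ∈ Γ → g = 1) ∧
    ∃ K : Set Aˣ, IsCompact K ∧ ∀ g ∈ G, ∃ k ∈ K, k⁻¹ * g ∈ Γ

/-- `Γ` is irreducible in `G`: `N Γ` is dense in `G` for every closed normal subgroup `N` of `G` whose
Lie algebra contains an element with an unbounded orbit under the adjoint action of `G` (for semisimple
`G`: for every closed normal subgroup `N` which is not compact). -/
def Irreducible (Γ G : Subgroup Aˣ) : Prop :=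
  ∀ N : Subgroup Aˣ, N ≤ G → IsClosed (N : Set Aˣ) → (∀ g ∈ G, ∀ x ∈ N, g * x * g⁻¹ ∈ N) →
    (∃ X ∈ lieSet N, ¬ Bdd G X) → ∀ g ∈ G, g ∈ closure {x | ∃ a ∈ N, ∃ γ ∈ Γ, x = a * γ}

/-- The maps `Ad(h^n) - 1`, `n ≥ 1`, are uniformly bounded below on `(Ad(h) - 1) 𝔤`, `𝔤` the Lie algebra
of `G`: this means that the restriction of `Ad(h)` to `𝔤` has no eigenvalue of modulus one except for
possibly the semisimple eigenvalue `1`. -/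
def Split (G : Subgroup Aˣ) (h : Aˣ) : Prop :=
  ∃ C : ℝ, ∀ n : ℕ, 1 ≤ n → ∀ X ∈ lieSet G,
    ‖Ad h X - X‖ ≤ C * ‖Ad (h ^ n) (Ad h X - X) - (Ad h X - X)‖

/-- Translation by `h` can be closed inside of the group `G`. -/
def GC (Γ G : Subgroup Aˣ) (h : Aˣ) : Prop :=
  ∀ U ∈ 𝓝 (1 : Aˣ), ∃ c ∈ G, c ∈ U ∧ ∃ g ∈ G, g ∈ U ∧ ∃ n : ℕ, 1 ≤ n ∧ ∃ γ ∈ Γ,
    (h * c) ^ n * g = g * γ

variable [FiniteDimensional ℝ A]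

/-- Tame triples `(Γ, G, h)`. -/
inductive Tame : Subgroup Aˣ → Subgroup Aˣ → Aˣ → Prop
  | semisimple {Γ G : Subgroup Aˣ} {h : Aˣ} (hG : IsClosed (G : Set Aˣ)) : ConnectedSpace G →
      LieAlgebra.IsSemisimple ℝ (lieA G hG) →
      (IsCompact (G : Set Aˣ) ∨ ∃ X ∈ lieSet G, ¬ Bdd G X) →
      IsLattice Γ G → Irreducible Γ G → h ∈ G → Tame Γ G h
  | split {Γ G : Subgroup Aˣ} {h : Aˣ} : IsClosed (G : Set Aˣ) → IsLattice Γ G →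
      h ∈ closure {h' | h' ∈ G ∧ Split G h'} → Tame Γ G h
  | mul {Γ₁ G₁ Γ₂ G₂ : Subgroup Aˣ} {h₁ h₂ : Aˣ} : Tame Γ₁ G₁ h₁ → Tame Γ₂ G₂ h₂ →
      (∀ a ∈ G₁, ∀ b ∈ G₂, a * b = b * a) → Tame (Γ₁ ⊔ Γ₂) (G₁ ⊔ G₂) (h₁ * h₂)
  | central {Γ₁ Z Γ₂ S Γ : Subgroup Aˣ} {z h : Aˣ} : IsClosed (Z : Set Aˣ) → ConnectedSpace Z →
      (∀ a ∈ Z, ∀ b ∈ Z, a * b = b * a) → IsLattice Γ₁ Z → z ∈ Z → Tame Γ₂ S h →
      (∀ a ∈ Z, ∀ b ∈ S, a * b = b * a) → Γ₁ ≤ Γ → Γ ≤ Z ⊔ S →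
      (∀ s ∈ Γ₂, ∃ a ∈ Z, a * s ∈ Γ) → Tame Γ (Z ⊔ S) (z * h)

end Defs

variable {A : Type*} [NormedRing A] [NormedAlgebra ℝ A] [CompleteSpace A] [FiniteDimensional ℝ A]

theorem isLat_of {Γ G : Subgroup Aˣ} (hG : IsClosed (G : Set Aˣ)) (h : IsLattice Γ G) :
    IsLat (Γ.subgroupOf G) := by
  obtain ⟨hΓ, ⟨W, hW, hWΓ⟩, K, hK, hKΓ⟩ := h
  refine ⟨⟨Subtype.val ⁻¹' W, continuous_subtype_val.continuousAt.preimage_mem_nhds hW,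
    fun g hg hg2 => Subtype.ext (hWΓ _ hg hg2)⟩, Subtype.val ⁻¹' K, ?_, fun g => ?_⟩
  · exact hG.isClosedEmbedding_subtypeVal.isCompact_preimage hK
  · obtain ⟨k, hk, hkg⟩ := hKΓ g g.2
    have hkG : k ∈ G := by
      have h1 : k = g * (k⁻¹ * g)⁻¹ := by group
      rw [h1]
      exact G.mul_mem g.2 (G.inv_mem (hΓ hkg))
    exact ⟨⟨k, hkG⟩, hk, hkg⟩

theorem irr_of {Γ G : Subgroup Aˣ} (hG : IsClosed (G : Set Aˣ)) (hΓ : Γ ≤ G)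
    (h : Irreducible Γ G) : Irr (Γ.subgroupOf G) := by
  intro N hN hNc hX g
  have hcl : IsClosed ((N.map G.subtype : Subgroup Aˣ) : Set Aˣ) := by
    rw [Subgroup.coe_map]
    exact hG.isClosedEmbedding_subtypeVal.isClosedMap _ hNc
  have h1 := h (N.map G.subtype) (by
    rintro x ⟨y, -, rfl⟩
    exact y.2) hcl (by
    rintro g hg x ⟨y, hy, rfl⟩
    exact ⟨⟨g, hg⟩ * y * ⟨g, hg⟩⁻¹, hN.conj_mem y hy ⟨g, hg⟩, rfl⟩) hX g g.2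
  rw [closure_subtype]
  refine closure_mono ?_ h1
  rintro x ⟨a, ⟨a', ha', rfl⟩, γ, hγ, rfl⟩
  exact ⟨a' * ⟨γ, hΓ hγ⟩, ⟨a', ha', ⟨γ, hΓ hγ⟩, hγ, rfl⟩, rfl⟩

theorem gc_of_gcl {Γ G : Subgroup Aˣ} {h : G} (hh : GCl (Γ.subgroupOf G) h) : GC Γ G (h : Aˣ) := by
  intro U hU
  obtain ⟨c, hc, g, hg, n, hn, γ, hγ, he⟩ := hh (Subtype.val ⁻¹' U)
    (continuous_subtype_val.continuousAt.preimage_mem_nhds hU)
  exact ⟨c, c.2, hc, g, g.2, hg, n, hn, γ, hγ, congrArg Subtype.val he⟩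

/-- small neighbourhoods -/
theorem exists_sq {U : Set Aˣ} (hU : U ∈ 𝓝 (1 : Aˣ)) : ∃ V ∈ 𝓝 (1 : Aˣ), V ⊆ U ∧
    ∀ a ∈ V, ∀ b ∈ V, a * b ∈ U := by
  have hc : Continuous (fun p : Aˣ × Aˣ => p.1 * p.2) := by fun_prop
  have h1 : (fun p : Aˣ × Aˣ => p.1 * p.2) ⁻¹' U ∈ 𝓝 ((1 : Aˣ), (1 : Aˣ)) := by
    apply hc.continuousAt.preimage_mem_nhds
    simpa using hU
  rw [nhds_prod_eq] at h1
  obtain ⟨V, hV, hV2⟩ := Filter.mem_prod_same_iff.1 h1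
  exact ⟨V ∩ U, inter_mem hV hU, inter_subset_right, fun a ha b hb => hV2 (mk_mem_prod ha.1 hb.1)⟩

theorem pow_close {M : Type*} [Group M] {a g γ : M} {n : ℕ} (h : a ^ n * g = g * γ) (q : ℕ) :
    a ^ (n * q) * g = g * γ ^ q := by
  induction q with
  | zero => rw [mul_zero, pow_zero, pow_zero, one_mul, mul_one]
  | succ q ih => rw [Nat.mul_succ, add_comm, pow_add, mul_assoc, ih, ← mul_assoc, h, pow_succ',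
      mul_assoc]

theorem gc_mul {Γ₁ G₁ Γ₂ G₂ : Subgroup Aˣ} {h₁ h₂ : Aˣ} (hh₁ : h₁ ∈ G₁) (hh₂ : h₂ ∈ G₂)
    (hΓ₁ : Γ₁ ≤ G₁) (H₁ : GC Γ₁ G₁ h₁) (H₂ : GC Γ₂ G₂ h₂)
    (hc : ∀ a ∈ G₁, ∀ b ∈ G₂, a * b = b * a) : GC (Γ₁ ⊔ Γ₂) (G₁ ⊔ G₂) (h₁ * h₂) := by
  intro U hU
  obtain ⟨V, hV, -, hVU⟩ := exists_sq hU
  obtain ⟨c₁, hc₁, hc₁V, g₁, hg₁, hg₁V, n₁, hn₁, γ₁, hγ₁, e₁⟩ := H₁ V hV
  obtain ⟨c₂, hc₂, hc₂V, g₂, hg₂, hg₂V, n₂, hn₂, γ₂, hγ₂, e₂⟩ := H₂ V hV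
  refine ⟨c₁ * c₂, Subgroup.mul_mem_sup hc₁ hc₂, hVU _ hc₁V _ hc₂V, g₁ * g₂,
    Subgroup.mul_mem_sup hg₁ hg₂, hVU _ hg₁V _ hg₂V, n₁ * n₂, Nat.mul_pos hn₁ hn₂,
    γ₁ ^ n₂ * γ₂ ^ n₁, Subgroup.mul_mem_sup (Γ₁.pow_mem hγ₁ _) (Γ₂.pow_mem hγ₂ _), ?_⟩
  have f₁ := pow_close e₁ n₂
  have f₂ := pow_close e₂ n₁
  rw [mul_comm n₂ n₁] at f₂
  have k1 : Commute (h₁ * c₁) (h₂ * c₂) := hc _ (G₁.mul_mem hh₁ hc₁) _ (G₂.mul_mem hh₂ hc₂)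
  have k2 : h₁ * h₂ * (c₁ * c₂) = (h₁ * c₁) * (h₂ * c₂) := by
    have h3 : h₂ * c₁ = c₁ * h₂ := (hc _ hc₁ _ hh₂).symm
    calc h₁ * h₂ * (c₁ * c₂) = h₁ * (h₂ * c₁) * c₂ := by group
      _ = h₁ * (c₁ * h₂) * c₂ := by rw [h3]
      _ = _ := by group
  rw [k2, k1.mul_pow]
  have k3 : Commute g₁ ((h₂ * c₂) ^ (n₁ * n₂)) :=
    hc _ hg₁ _ (G₂.pow_mem (G₂.mul_mem hh₂ hc₂) _)
  have k4 : Commute (γ₁ ^ n₂) g₂ := hc _ (hΓ₁ (Γ₁.pow_mem hγ₁ _)) _ hg₂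
  calc (h₁ * c₁) ^ (n₁ * n₂) * (h₂ * c₂) ^ (n₁ * n₂) * (g₁ * g₂)
      = (h₁ * c₁) ^ (n₁ * n₂) * ((h₂ * c₂) ^ (n₁ * n₂) * g₁) * g₂ := by group
    _ = (h₁ * c₁) ^ (n₁ * n₂) * (g₁ * (h₂ * c₂) ^ (n₁ * n₂)) * g₂ := by rw [k3.eq]
    _ = ((h₁ * c₁) ^ (n₁ * n₂) * g₁) * ((h₂ * c₂) ^ (n₁ * n₂) * g₂) := by group
    _ = (g₁ * γ₁ ^ n₂) * (g₂ * γ₂ ^ n₁) := by rw [f₁, f₂]
    _ = g₁ * (γ₁ ^ n₂ * g₂) * γ₂ ^ n₁ := by group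
    _ = g₁ * (g₂ * γ₁ ^ n₂) * γ₂ ^ n₁ := by rw [k4.eq]
    _ = _ := by group

/-- Roots in a connected abelian group. -/
theorem abel_root {Z : Subgroup Aˣ} (hZ : IsClosed (Z : Set Aˣ)) [ConnectedSpace Z]
    (hab : ∀ a ∈ Z, ∀ b ∈ Z, a * b = b * a) (z : Z) {U : Set Aˣ} (hU : U ∈ 𝓝 (1 : Aˣ)) :
    ∃ M₀ : ℕ, ∀ M ≥ M₀, 1 ≤ M → ∃ ζ ∈ Z, ζ ∈ U ∧ ζ ^ M = (z : Aˣ) := by
  let H : Subgroup Z :=
    { carrier := {z | ∀ U ∈ 𝓝 (1 : Aˣ), ∃ M₀ : ℕ, ∀ M ≥ M₀, 1 ≤ M →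
        ∃ ζ ∈ Z, ζ ∈ U ∧ ζ ^ M = (z : Aˣ)}
      mul_mem' := by
        intro a b ha hb U hU
        obtain ⟨V, hV, -, hVU⟩ := exists_sq hU
        obtain ⟨M₁, hM₁⟩ := ha V hV
        obtain ⟨M₂, hM₂⟩ := hb V hV
        refine ⟨max M₁ M₂, fun M hM hM1 => ?_⟩
        obtain ⟨ζ₁, hζ₁, hζ₁V, e₁⟩ := hM₁ M (le_trans (le_max_left _ _) hM) hM1
        obtain ⟨ζ₂, hζ₂, hζ₂V, e₂⟩ := hM₂ M (le_trans (le_max_right _ _) hM) hM1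
        refine ⟨ζ₁ * ζ₂, Z.mul_mem hζ₁ hζ₂, hVU _ hζ₁V _ hζ₂V, ?_⟩
        have hcm : Commute ζ₁ ζ₂ := hab _ hζ₁ _ hζ₂
        rw [hcm.mul_pow, e₁, e₂]
        rfl
      one_mem' := by
        intro U hU
        exact ⟨0, fun M _ _ => ⟨1, Z.one_mem, mem_of_mem_nhds hU, one_pow _⟩⟩
      inv_mem' := by
        intro a ha U hU
        have hU' : (fun x : Aˣ => x⁻¹) ⁻¹' U ∈ 𝓝 (1 : Aˣ) := by
          apply (continuous_inv (G := Aˣ)).continuousAt.preimage_mem_nhds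
          rwa [inv_one]
        obtain ⟨M₁, hM₁⟩ := ha _ hU'
        refine ⟨M₁, fun M hM hM1 => ?_⟩
        obtain ⟨ζ₁, hζ₁, hζ₁V, e₁⟩ := hM₁ M hM hM1
        refine ⟨ζ₁⁻¹, Z.inv_mem hζ₁, hζ₁V, ?_⟩
        rw [inv_pow, e₁]
        rfl }
  refine gen_top hZ H (fun X hX U hU => ?_) z U hU
  have ht : Tendsto (fun M : ℕ => eu (((M : ℝ)⁻¹) • X)) atTop (𝓝 1) := by
    have h1 : Tendsto (fun M : ℕ => ((M : ℝ)⁻¹) • X) atTop (𝓝 0) := by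
      have h2 := (tendsto_inv_atTop_nhds_zero_nat (𝕜 := ℝ)).smul_const X
      rwa [zero_smul] at h2
    have h2 := (eu_cont.tendsto (0 : A)).comp h1
    rwa [eu_zero] at h2
  obtain ⟨M₀, hM₀⟩ := eventually_atTop.1 (ht.eventually hU)
  refine ⟨M₀, fun M hM hM1 => ⟨_, hX _, hM₀ M hM, ?_⟩⟩
  have hM0 : (M : ℝ) ≠ 0 := by
    have : (0 : ℝ) < M := by exact_mod_cast hM1
    exact this.ne'
  rw [← eu_nsmul, ← Nat.cast_smul_eq_nsmul ℝ, smul_smul, mul_inv_cancel₀ hM0, one_smul]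

theorem abel_root_unif {Z : Subgroup Aˣ} (hZ : IsClosed (Z : Set Aˣ)) [ConnectedSpace Z]
    (hab : ∀ a ∈ Z, ∀ b ∈ Z, a * b = b * a) {K : Set Aˣ} (hK : IsCompact K) {U : Set Aˣ}
    (hU : U ∈ 𝓝 (1 : Aˣ)) :
    ∃ M₀ : ℕ, ∀ M ≥ M₀, 1 ≤ M → ∀ k ∈ K, k ∈ Z → ∃ ζ ∈ Z, ζ ∈ U ∧ ζ ^ M = k := by
  obtain ⟨V, hV, -, hVU⟩ := exists_sq hU
  refine hK.induction_on (p := fun K : Set Aˣ => ∃ M₀ : ℕ, ∀ M ≥ M₀, 1 ≤ M → ∀ k ∈ K, k ∈ Z →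
    ∃ ζ ∈ Z, ζ ∈ U ∧ ζ ^ M = k) ?_ ?_ ?_ ?_
  · exact ⟨0, fun M _ _ k hk => absurd hk (notMem_empty k)⟩
  · rintro s t hst ⟨M₀, h⟩
    exact ⟨M₀, fun M hM hM1 k hk => h M hM hM1 k (hst hk)⟩
  · rintro s t ⟨M₁, h₁⟩ ⟨M₂, h₂⟩
    refine ⟨max M₁ M₂, fun M hM hM1 k hk hkZ => ?_⟩
    rcases hk with hk | hk
    · exact h₁ M (le_trans (le_max_left _ _) hM) hM1 k hk hkZ
    · exact h₂ M (le_trans (le_max_right _ _) hM) hM1 k hk hkZ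
  · intro k₀ _
    by_cases hk₀ : k₀ ∈ Z
    · -- near an element of `Z`
      obtain ⟨M₀, hM₀⟩ := abel_root hZ hab ⟨k₀, hk₀⟩ hV
      obtain ⟨ε, hε, hεV⟩ : ∃ ε : ℝ, 0 < ε ∧ ∀ X : A, ‖X‖ < ε → eu X ∈ V := by
        have h1 : (eu : A → Aˣ) ⁻¹' V ∈ 𝓝 (0 : A) := by
          apply eu_cont.continuousAt.preimage_mem_nhds
          rw [eu_zero]
          exact hV
        obtain ⟨ε, hε, hεV⟩ := Metric.mem_nhds_iff.1 h1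
        exact ⟨ε, hε, fun X hX => hεV (by rwa [mem_ball_zero_iff])⟩
      obtain ⟨W, hW, hW2⟩ := exp_cover hZ hε
      refine ⟨{k | k₀⁻¹ * k ∈ W}, ?_, M₀, fun M hM hM1 k hk hkZ => ?_⟩
      · apply mem_nhdsWithin_of_mem_nhds
        have hc : Continuous (fun k : Aˣ => k₀⁻¹ * k) := by fun_prop
        apply hc.continuousAt.preimage_mem_nhds
        rwa [inv_mul_cancel]
      · obtain ⟨X, hX, hXε, hXk⟩ := hW2 _ hk (Z.mul_mem (Z.inv_mem hk₀) hkZ)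
        obtain ⟨ζ, hζ, hζV, hζM⟩ := hM₀ M hM hM1
        have hM0 : (0 : ℝ) < M := by exact_mod_cast hM1
        refine ⟨ζ * eu ((M : ℝ)⁻¹ • X), Z.mul_mem hζ (hX _), hVU _ hζV _ (hεV _ ?_), ?_⟩
        · rw [norm_smul, norm_inv, Real.norm_of_nonneg hM0.le]
          refine lt_of_le_of_lt ?_ hXε
          calc (M : ℝ)⁻¹ * ‖X‖ ≤ 1 * ‖X‖ := by
                gcongr
                exact inv_le_one_of_one_le₀ (by exact_mod_cast hM1)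
            _ = ‖X‖ := one_mul _
        · have hcm : Commute ζ (eu ((M : ℝ)⁻¹ • X)) := hab _ hζ _ (hX _)
          rw [hcm.mul_pow, hζM, ← eu_nsmul, ← Nat.cast_smul_eq_nsmul ℝ, smul_smul,
            mul_inv_cancel₀ hM0.ne', one_smul, ← hXk, mul_inv_cancel_left]
    · refine ⟨(Z : Set Aˣ)ᶜ, mem_nhdsWithin_of_mem_nhds (hZ.isOpen_compl.mem_nhds hk₀), 0,
        fun M _ _ k hk hkZ => absurd hkZ hk⟩

theorem gc_central {Γ₁ Z Γ₂ S Γ : Subgroup Aˣ} {z h : Aˣ} (hZ : IsClosed (Z : Set Aˣ))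
    (hcon : ConnectedSpace Z) (hab : ∀ a ∈ Z, ∀ b ∈ Z, a * b = b * a) (hΓ₁ : IsLattice Γ₁ Z)
    (hz : z ∈ Z) (hh : h ∈ S) (hΓ₂ : Γ₂ ≤ S) (H : GC Γ₂ S h)
    (hc : ∀ a ∈ Z, ∀ b ∈ S, a * b = b * a) (h1Γ : Γ₁ ≤ Γ)
    (h2Γ : ∀ s ∈ Γ₂, ∃ a ∈ Z, a * s ∈ Γ) : GC Γ (Z ⊔ S) (z * h) := by
  intro U hU
  obtain ⟨V, hV, hVU', hVU⟩ := exists_sq hU
  obtain ⟨c, hcS, hcV, g, hgS, hgV, n, hn, γ₂, hγ₂, e⟩ := H V hV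
  obtain ⟨a, ha, haγ⟩ := h2Γ γ₂ hγ₂
  obtain ⟨hΓ₁Z, -, K, hK, hKΓ⟩ := hΓ₁
  have hK' : IsCompact ((fun x : Aˣ => x⁻¹) '' K) := hK.image continuous_inv
  obtain ⟨M₀, hM₀⟩ := abel_root_unif hZ hab hK' hV
  obtain ⟨m, hm⟩ : ∃ m, m = M₀ + 1 := ⟨_, rfl⟩
  have hnm : M₀ ≤ n * m := by
    calc M₀ ≤ m := by omega
      _ = 1 * m := (one_mul _).symm
      _ ≤ n * m := Nat.mul_le_mul_right _ hn
  have hnm1 : 1 ≤ n * m := Nat.mul_pos hn (by omega)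
  obtain ⟨w, hw⟩ : ∃ w, w = z ^ (n * m) * (a ^ m)⁻¹ := ⟨_, rfl⟩
  have hwZ : w ∈ Z := by
    rw [hw]
    exact Z.mul_mem (Z.pow_mem hz _) (Z.inv_mem (Z.pow_mem ha _))
  obtain ⟨k, hk, hkw⟩ := hKΓ w hwZ
  have hkZ : k ∈ Z := by
    have h1 : k = w * (k⁻¹ * w)⁻¹ := by group
    rw [h1]
    exact Z.mul_mem hwZ (Z.inv_mem (hΓ₁Z hkw))
  obtain ⟨ζ, hζ, hζV, hζk⟩ := hM₀ (n * m) hnm hnm1 k⁻¹ ⟨k, hk, rfl⟩ (Z.inv_mem hkZ)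
  have cc : ∀ {a b : Aˣ}, a ∈ Z → b ∈ S → Commute a b := fun {a b} ha hb => hc a ha b hb
  refine ⟨ζ * c, Subgroup.mul_mem_sup hζ hcS, hVU _ hζV _ hcV, g,
    (le_sup_right : S ≤ Z ⊔ S) hgS, hVU' hgV, n * m, hnm1, (k⁻¹ * w) * (a * γ₂) ^ m,
    Γ.mul_mem (h1Γ hkw) (Γ.pow_mem haγ _), ?_⟩
  have k1 : z * h * (ζ * c) = (z * ζ) * (h * c) := by
    have h3 : h * ζ = ζ * h := (cc hζ hh).symm.eq
    calc z * h * (ζ * c) = z * (h * ζ) * c := by group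
      _ = z * (ζ * h) * c := by rw [h3]
      _ = _ := by group
  have k2 : Commute (z * ζ) (h * c) := cc (Z.mul_mem hz hζ) (S.mul_mem hh hcS)
  have k3 : Commute z ζ := hab _ hz _ hζ
  have k4 : (a * γ₂) ^ m = a ^ m * γ₂ ^ m := (cc ha (hΓ₂ hγ₂)).mul_pow m
  have k5 : Commute (z ^ (n * m) * k⁻¹) g := cc (Z.mul_mem (Z.pow_mem hz _) (Z.inv_mem hkZ)) hgS
  have k6 : z ^ (n * m) * k⁻¹ = k⁻¹ * w * a ^ m := by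
    have h3 : Commute (z ^ (n * m)) k⁻¹ := hab _ (Z.pow_mem hz _) _ (Z.inv_mem hkZ)
    rw [hw, h3.eq]
    group
  rw [k1, k2.mul_pow, k3.mul_pow, hζk, mul_assoc, pow_close e m, ← mul_assoc, k5.eq, k4, k6]
  group

theorem Tame.mem {Γ G : Subgroup Aˣ} {h : Aˣ} (H : Tame Γ G h) : h ∈ G ∧ Γ ≤ G := by
  induction H with
  | semisimple hG _ _ _ hΓ _ hh => exact ⟨hh, hΓ.1⟩
  | split hG hΓ hh =>
    refine ⟨?_, hΓ.1⟩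
    have h1 := closure_mono (t := (_ : Set Aˣ)) (fun x (hx : x ∈ {h' | h' ∈ _ ∧ Split _ h'}) => hx.1) hh
    rw [hG.closure_eq] at h1
    exact h1
  | mul _ _ _ ih₁ ih₂ => exact ⟨Subgroup.mul_mem_sup ih₁.1 ih₂.1, sup_le_sup ih₁.2 ih₂.2⟩
  | central _ _ _ _ hz _ _ _ hΓ _ ih => exact ⟨Subgroup.mul_mem_sup hz ih.1, hΓ⟩

/-- **Tame triples can be closed inside of the group.** -/
theorem Tame.gc {Γ G : Subgroup Aˣ} {h : Aˣ} (H : Tame Γ G h) : GC Γ G h := by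
  induction H with
  | @semisimple Γ G h hG hcon hss hcpt hΓ hirr hh =>
    have hcpt' : CompactSpace G ∨ ∃ X ∈ lieSet G, ¬ Bdd G X := by
      rcases hcpt with hc | hc
      · exact Or.inl (isCompact_iff_compactSpace.1 hc)
      · exact Or.inr hc
    have hK : LieAlgebra.IsKilling ℝ (lieA G hG) := inferInstance
    exact gc_of_gcl (gcl_all (hG := hG) hcpt' (isLat_of hG hΓ) (irr_of hG hΓ.1 hirr) ⟨h, hh⟩)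
  | @split Γ G h hG hΓ hh =>
    have hhG : h ∈ G := by
      have h1 := closure_mono (t := (G : Set Aˣ)) (fun x hx => hx.1) hh
      rwa [hG.closure_eq] at h1
    refine gc_of_gcl (h := ⟨h, hhG⟩) (gcl_of_closure hG (isLat_of hG hΓ) ?_)
    rw [closure_subtype]
    refine closure_mono ?_ hh
    rintro x ⟨hx, C, hC⟩
    exact ⟨⟨x, hx⟩, Or.inr ⟨1, le_rfl, Or.inl rfl, C, fun n hn _ X hX => hC n hn X hX⟩, rfl⟩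
  | mul t₁ t₂ hc ih₁ ih₂ => exact gc_mul t₁.mem.1 t₂.mem.1 t₁.mem.2 ih₁ ih₂ hc
  | central hZ hcon hab hΓ₁ hz t hc h1 _ h2 ih =>
    exact gc_central hZ hcon hab hΓ₁ hz t.mem.1 t.mem.2 ih hc h1 h2

end Pool.Agent.T6.H27.CL
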