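import Pool.Agent.T6.H27.CL.Act
import Pool.Agent.T6.H27.CL.Tame
import Pool.Agent.TH382.QC.Torus

/-!
# The closing lemma at limits of periodic homogeneous submanifolds
-/

set_option autoImplicit false
set_option linter.unusedSectionVars false

open scoped Manifold ContDiff Topology
open Filter Set Metric

universe u

namespace Pool.Agent.T6.H27.CL

open Pool.Agent.H718R2.G Pool.Agent.W564.SC Pool.Agent.TH382.QC Pool.Agent.TH382.HS

/-- `y` lies on a periodic homogeneous submanifold of `F`: a closed subgroup `G` of the group of units of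
a finite dimensional real Banach algebra `A` acts smoothly on an open set `O` which contains `y`; the
orbit `C = G y` is compact and `y` is fixed by the lattice `Γ` of `G`; `C` is periodic with some period
`m ≥ 1` (`F^i(C)` does not meet `C` for `1 ≤ i < m`), and on `C` the map `F^m` is `g y ↦ h g k y`, where
`(Γ, G, h)` is tame and `k^l y = y` for some `l ≥ 1` (a translation if `k = 1`; in general, `g y ↦ g k y`
is a map of finite order of `C` which commutes with the action). Nothing is required of `F` outside of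
`C, F(C), ..., F^(m-1)(C)`. -/
def IsLiePer (n : ℕ) (N : Type u) [TopologicalSpace N] [ChartedSpace (V n) N] (F : N → N)
    (y : N) : Prop :=
  ∃ (A : Type) (_ : NormedRing A) (_ : NormedAlgebra ℝ A) (_ : CompleteSpace A)
    (_ : FiniteDimensional ℝ A) (G Γ : Subgroup Aˣ) (O : Set N) (act : G → N → N),
    IsClosed (G : Set Aˣ) ∧ IsGAction G n N O act ∧ y ∈ O ∧ CptOrbit act y ∧
    (∀ γ : G, (γ : Aˣ) ∈ Γ → act γ y = y) ∧
    ∃ m : ℕ, 1 ≤ m ∧
      (∃ (h k : G) (l : ℕ), Tame Γ G (h : Aˣ) ∧ 1 ≤ l ∧ act (k ^ l) y = y ∧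
        ∀ g, F^[m] (act g y) = act (h * g * k) y) ∧
      ∀ i, 1 ≤ i → i < m → ∀ g g', F^[i] (act g y) ≠ act g' y

variable {n : ℕ} {N : Type u} [TopologicalSpace N] [T2Space N] [CompactSpace N]
  [ChartedSpace (V n) N] [IsManifold (𝓡 n) ∞ N] {r : ℕ∞}

theorem closable_of_liePer (F : DiffM n N r) (y : N) (hF : IsLiePer n N F y) :
    ClosableAt n N r F y := by
  obtain ⟨A, _, _, _, _, G, Γ, O, act, hG, hact, hyO, hcpt, hΓ, m, hm, ⟨h, k, l, ht, hl, hk, hFm⟩,
    hdis⟩ := hF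
  refine step hG hact hyO hcpt F hm hl hk hFm hdis fun U hU => ?_
  obtain ⟨W, hW, hWU⟩ := mem_nhds_subtype (G : Set Aˣ) 1 U |>.1 hU
  obtain ⟨c, hc, hcW, g, hg, hgW, i, hi, γ, hγ, he⟩ := ht.gc W hW
  have hγG : γ ∈ G := ht.mem.2 hγ
  exact ⟨⟨c, hc⟩, hWU hcW, ⟨g, hg⟩, hWU hgW, i, hi, ⟨γ, hγG⟩, hΓ _ hγ, Subtype.ext he⟩

theorem main (F : DiffM n N r) (z : N)
    (h : ∀ U : Set (DiffM n N r), IsOpen[strongTop n N r] U → F ∈ U →
      ∃ F' ∈ U, z ∈ closure {y | IsLiePer n N F' y}) : ClosableAt n N r F z := by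
  apply closable_of_limit
  intro U hU hFU
  obtain ⟨F', hF', hz⟩ := h U hU hFU
  refine ⟨F', hF', closure_mono ?_ hz⟩
  intro y hy
  exact closable_of_liePer F' y hy

/-! ### Cocycle extensions -/

section Skew

variable {A : Type} [NormedRing A] [NormedAlgebra ℝ A] {G : Subgroup Aˣ}

/-- `f` commutes with the action `ρ`. -/
def Comm (ρ : G → N → N) (f : N → N) : Prop :=
  ∀ (g : G) (y : N), f (ρ g y) = ρ g (f y)

/-- `F y = α(y) · F₀(y)`, where `α` is invariant under the action `ρ` and `F₀` commutes with it. -/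
structure IsSkew (ρ : G → N → N) (α : N → G) (F₀ F : N → N) : Prop where
  inv : ∀ g y, α (ρ g y) = α y
  comm : Comm ρ F₀
  eq : ∀ y, F y = ρ (α y) (F₀ y)

/-- Every neighbourhood of `F₀` in `Diff^r(N)` contains a diffeomorphism which commutes with the action
and for which `z` is periodic. -/
def EqClosable (n : ℕ) (N : Type u) [TopologicalSpace N] [ChartedSpace (V n) N] (r : ℕ∞)
    (ρ : G → N → N) (F₀ : DiffM n N r) (z : N) : Prop :=
  ∀ U : Set (DiffM n N r), IsOpen[strongTop n N r] U → F₀ ∈ U → ∃ G ∈ U, Comm ρ G ∧ IsPer G z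

end Skew

section alg

variable {A : Type} [NormedRing A] [NormedAlgebra ℝ A] {G : Subgroup Aˣ} {N : Type u}
  {ρ : G → N → N} (h1 : ∀ y, ρ 1 y = y) (hm : ∀ g h y, ρ (g * h) y = ρ g (ρ h y))

include hm in
theorem comm_iter {f : N → N} (hf : Comm ρ f) (i : ℕ) (g : G) (y : N) :
    f^[i] (ρ g y) = ρ g (f^[i] y) := by
  induction i with
  | zero => rfl
  | succ i ih => rw [Function.iterate_succ_apply', ih, hf, Function.iterate_succ_apply']

include h1 hm in
theorem skew_iter {α : N → G} {F₀ F : N → N} (h : IsSkew ρ α F₀ F) (z : N) (i : ℕ) :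
    ∃ p : G, ∀ g, F^[i] (ρ g z) = ρ (p * g) (F₀^[i] z) := by
  induction i with
  | zero => exact ⟨1, fun g => by rw [one_mul]; rfl⟩
  | succ i ih =>
    obtain ⟨p, hp⟩ := ih
    refine ⟨α (F₀^[i] z) * p, fun g => ?_⟩
    rw [Function.iterate_succ_apply', hp, h.eq, h.inv, h.comm, ← hm, Function.iterate_succ_apply',
      mul_assoc]

end alg

variable {A : Type} [NormedRing A] [NormedAlgebra ℝ A] [CompleteSpace A] [FiniteDimensional ℝ A]
  {G Γ : Subgroup Aˣ} {ρ : G → N → N}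

/-- a skew product over a map for which `z` is periodic -/
theorem skew_per (hG : IsClosed (G : Set Aˣ)) (hρ : IsGAction G n N univ ρ)
    (ht : ∀ h ∈ G, Tame Γ G h) {α : N → G} {F₀ F : N → N} (h : IsSkew ρ α F₀ F) {z : N}
    (hz : CptOrbit ρ z) (hΓ : ∀ γ : G, (γ : Aˣ) ∈ Γ → ρ γ z = z) (hper : IsPer F₀ z) :
    IsLiePer n N F z := by
  classical
  have h1 : ∀ y, ρ 1 y = y := fun y => hρ.one y (mem_univ _)
  have hm : ∀ g h y, ρ (g * h) y = ρ g (ρ h y) := fun g h y => hρ.mul g h y (mem_univ _)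
  obtain ⟨q, hq, hqz⟩ := hper
  have hex : ∃ m : ℕ, 1 ≤ m ∧ ∃ k, F₀^[m] z = ρ k z := ⟨q, hq, 1, by rw [hqz, h1]⟩
  obtain ⟨m, hmdef⟩ : ∃ m, m = Nat.find hex := ⟨_, rfl⟩
  obtain ⟨hm1, k, hk⟩ : 1 ≤ m ∧ ∃ k, F₀^[m] z = ρ k z := by
    rw [hmdef]
    exact Nat.find_spec hex
  have hmin : ∀ i, 1 ≤ i → i < m → ∀ k, F₀^[i] z ≠ ρ k z := by
    intro i hi him k hik
    rw [hmdef] at him
    exact Nat.find_min hex him ⟨hi, k, hik⟩
  have hpow : ∀ l : ℕ, F₀^[m * l] z = ρ (k ^ l) z := by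
    intro l
    induction l with
    | zero => rw [pow_zero, h1]; rfl
    | succ l ih =>
      rw [Nat.mul_succ, Function.iterate_add_apply, hk, comm_iter hm h.comm, ih, ← hm, pow_succ']
  -- the period is a multiple of `m`
  obtain ⟨l, hl⟩ : ∃ l, q = m * l := by
    have h2 : q % m = 0 := by
      by_contra hne
      have h3 : q % m < m := Nat.mod_lt _ hm1
      refine hmin (q % m) (Nat.one_le_iff_ne_zero.2 hne) h3 (k ^ (q / m))⁻¹ ?_
      have h4 : F₀^[q % m + m * (q / m)] z = z := by rw [Nat.mod_add_div, hqz]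
      rw [Function.iterate_add_apply, hpow, comm_iter hm h.comm] at h4
      have h5 := congrArg (ρ (k ^ (q / m))⁻¹) h4
      rwa [← hm, inv_mul_cancel, h1] at h5
    exact ⟨q / m, by have := Nat.mod_add_div q m; rw [h2, zero_add] at this; exact this.symm⟩
  have hl1 : 1 ≤ l := by
    rcases Nat.eq_zero_or_pos l with h0 | h0
    · rw [h0, mul_zero] at hl
      omega
    · exact h0
  obtain ⟨p, hp⟩ := skew_iter h1 hm h z m
  refine ⟨A, inferInstance, inferInstance, inferInstance, inferInstance, G, Γ, univ, ρ, hG, hρ,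
    mem_univ _, hz, hΓ, m, hm1, ⟨p, k, l, ht _ p.2, hl1, ?_, fun g => ?_⟩,
    fun i hi him g g' hc => ?_⟩
  · rw [← hpow, ← hl, hqz]
  · rw [hp, hk, ← hm]
  · obtain ⟨p', hp'⟩ := skew_iter h1 hm h z i
    rw [hp'] at hc
    refine hmin i hi him ((p' * g)⁻¹ * g') ?_
    rw [hm, ← hc, ← hm, inv_mul_cancel, h1]

theorem skew_diff {α : N → G} {F₀ F F₁ : DiffM n N r} (h : IsSkew ρ α F₀ F)
    (h1 : Comm ρ F₁) :
    IsSkew ρ (fun y => α (F₀.symm (F₁ y))) F₁ ((F₁.trans F₀.symm).trans F) where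
  inv g y := by
    have h2 : F₀.symm (F₁ (ρ g y)) = ρ g (F₀.symm (F₁ y)) := by
      rw [h1]
      apply F₀.injective
      show F₀ (F₀.symm (ρ g (F₁ y))) = F₀ (ρ g (F₀.symm (F₁ y)))
      rw [F₀.apply_symm_apply, h.comm, F₀.apply_symm_apply]
    show α (F₀.symm (F₁ (ρ g y))) = α (F₀.symm (F₁ y))
    rw [h2, h.inv]
  comm := h1
  eq y := by
    show F (F₀.symm (F₁ y)) = _
    rw [h.eq, F₀.apply_symm_apply]

/-- Skew products over a map which can be closed at `z` by maps which commute with the action. -/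
theorem extension (hG : IsClosed (G : Set Aˣ)) (hρ : IsGAction G n N univ ρ)
    (ht : ∀ h ∈ G, Tame Γ G h) {α : N → G} (F₀ F : DiffM n N r)
    (h : IsSkew ρ α F₀ F) (z : N) (hz : CptOrbit ρ z) (hΓ : ∀ γ : G, (γ : Aˣ) ∈ Γ → ρ γ z = z)
    (hc : EqClosable n N r ρ F₀ z) : ClosableAt n N r F z := by
  have hcomp : S_COMP := Pool.Agent.W917.SC.comp
  obtain ⟨G', hG', hcv⟩ := Cv.exists_seq hcomp F₀ (fun G => Comm ρ G ∧ IsPer G z) hc
  refine main F z fun U hU hFU => ?_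
  have c1 := Cv.trans hcomp (Cv.trans hcomp hcv (Cv.const F₀.symm)) (Cv.const F)
  have e : (F₀.trans F₀.symm).trans F = F := by
    ext y
    show F (F₀.symm (F₀ y)) = F y
    rw [F₀.symm_apply_apply]
  rw [e] at c1
  obtain ⟨m, hm⟩ := (c1.mem hU hFU).exists
  exact ⟨_, hm, subset_closure (skew_per hG hρ ht (skew_diff h (hG' m).1) hz hΓ (hG' m).2)⟩

/-- Quasi-periodic cocycles. -/
theorem quasiperiodic (hG : IsClosed (G : Set Aˣ)) {e : ℕ} (hρ : IsGAction G n N univ ρ)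
    (ht : ∀ h ∈ G, Tame Γ G h) {R : V e → N → N}
    (hR : IsTorusAct e n N R) (hRρ : ∀ a, Comm ρ (R a)) (β : V e) {α : N → G}
    (F₀ F : DiffM n N r) (hF₀ : ∀ y, F₀ y = R β y) (h : IsSkew ρ α F₀ F) (z : N)
    (hz : CptOrbit ρ z) (hΓ : ∀ γ : G, (γ : Aˣ) ∈ Γ → ρ γ z = z) : ClosableAt n N r F z := by
  refine extension hG hρ ht F₀ F h z hz hΓ fun U hU hU0 => ?_
  obtain ⟨H, hfam, hH⟩ := tor_fam hR r β
  have e : H 0 = F₀ := by
    ext y
    rw [hH, add_zero, hF₀]
  rw [← e] at hU0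
  obtain ⟨a, ha, hint⟩ := rat_approx β
  obtain ⟨k, hk⟩ := ((Cv.fam Pool.Agent.W917.SC.comp hfam ha).mem hU hU0).exists
  refine ⟨H (a k), hk, fun g y => by rw [hH, hH]; exact hRρ _ g y, k + 1, by omega, ?_⟩
  have e2 : (H (a k) : N → N) = R (β + a k) := by
    funext y
    rw [hH]
  rw [e2, R_iter hR]
  exact hR.int _ (hint k) z

end Pool.Agent.T6.H27.CL
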